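import Pool.Agent.Lib.MP_9c8c11_gt.Raise

set_option autoImplicit false

open MvPolynomial Finset

noncomputable section

namespace Pool.Agent.Lib.SqZ

lemma dx_dd {e : ℕ → ℕ} {l : ℕ} (hl : e l = 1) (s : ℕ) (f : R) :
    dx l (dd e true s f) = dd e true s (dx l f) := by
  rw [dd_apply, dd_apply, map_add, map_add, map_sum, dx_phi, dx_om e l hl]
  have h1 : ∑ x ∈ range s, dx l (del x f) = ∑ i ∈ range s, del i (dx l f) := by
    refine Finset.sum_congr rfl fun i _ => ?_
    rw [dx_del]
  rw [h1]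

/-- no `x_l` occurs in elements of label degree zero in `l` -/
lemma dx_zero_of {e : ℕ → ℕ} {l : ℕ} {f : R} {M : Gd} (hf : Hg e f M) (h0 : M.2.2 l = 0) :
    dx l f = 0 := by
  have h1 : f ∈ Fs (fun i => match i with
    | .t _ _ => 1 | .v _ => 1 | .x m _ => if m = l then 0 else 1) := by
    intro m hm i
    rcases i with (⟨k, n⟩ | n | ⟨l', n⟩)
    · exact one_dvd _
    · exact one_dvd _
    · by_cases h : l' = l
      · subst h
        have := weight_label e m l' n
        rw [hf.support hm, h0] at this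
        simp [Nat.le_zero.mp this]
      · simp [h]
  revert h1
  clear hf
  revert f
  apply Fs_induction
  · rintro (⟨k, n⟩ | n | ⟨m, n⟩)
    · simp
    · simp
    · by_cases h : m = l
      · simp [h]
      · simp [h, dx_x]
  · simp
  · simp
  · intro f g hf hg; rw [map_add, hf, hg, add_zero]
  · intro f g _ _ hf hg; rw [Derivation.leibniz, hf, hg]; simp

/-- the de Rham lemma -/
theorem dR {e : ℕ → ℕ} (he : ∀ m, e m ≠ 0) {l : ℕ} (hl : e l = 1) {a J : ℕ} {W : ℤ}
    {μt : ℕ →₀ ℕ}
    (H : ∀ p < a, ∀ ν : ℕ →₀ ℕ, ν + (J - p) • Finsupp.single l 1 = μt →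
      HVan e p (J - p) (W - ((J - p : ℕ) : ℤ)) ν) :
    ∀ (p : ℕ), p < a → ∀ (i : ℕ) (w : ℤ) (ν : ℕ →₀ ℕ) (c h : R),
      p + i + 2 = J → w + i + 1 = W → ν + (i+1) • Finsupp.single l 1 = μt →
      c ∈ Gm e p p (w, i+1, ν) → h ∈ Gm e (p+1) (p+1) (w+1, i, ν + Finsupp.single l 1) →
      dx l h = dd e true p c →
      ∃ b ∈ Gm e p p (w+1, i, ν + Finsupp.single l 1), dx l (h + dd e true p b) = 0 := by
  intro p
  induction p with
  | zero =>
    intro hpa i w ν c h hJ hW hμ hc hh hdx
    -- `D c = 0`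
    have hdc : dd e true 0 (dx l c) = 0 := by
      rw [← dx_dd hl, ← hdx, dx_dx]
    have hDc : dx l c = 0 := by
      by_cases h0 : ν l = 0
      · exact dx_zero_of hc.2 h0
      · have hν : ν = (ν - Finsupp.single l 1) + Finsupp.single l 1 := by
          rw [tsub_add_cancel_of_le]
          rw [Finsupp.single_le_iff]
          exact Nat.one_le_iff_ne_zero.mpr h0
        set ν' := ν - Finsupp.single l 1 with hν'
        have h1 : dx l c ∈ Gm e 0 0 (w - 1, i+2, ν') := by
          apply dx_G hl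
          rw [← hν, sub_add_cancel]; exact hc
        have h2 := H 0 hpa ν' (by
          rw [← hμ, hν, show J - 0 = i + 2 by omega, succ_nsmul (Finsupp.single l 1) (i+1)]
          abel)
        rw [show J - 0 = i + 2 by omega, show W - ((i + 2 : ℕ) : ℤ) = w - 1 by
          push_cast; omega] at h2
        exact h2 _ h1 hdc
    obtain ⟨b, hb, hbc⟩ := lift_dx hl hc hDc
    refine ⟨b, hb, ?_⟩
    rw [map_add, hdx, dx_dd hl, hbc]; exact add_self' _
  | succ p ih =>
    intro hpa i w ν c h hJ hW hμ hc hh hdx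
    have hdc : dd e true (p+1) (dx l c) = 0 := by
      rw [← dx_dd hl, ← hdx, dx_dx]
    -- find `b₁` with `D (c + d b₁) = 0`
    have key : ∃ b₁ ∈ Gm e p p (w, i+1, ν), dx l (c + dd e true p b₁) = 0 := by
      by_cases h0 : ν l = 0
      · refine ⟨0, Submodule.zero_mem _, ?_⟩
        rw [map_zero, add_zero]
        exact dx_zero_of hc.2 h0
      · have hν : ν = (ν - Finsupp.single l 1) + Finsupp.single l 1 := by
          rw [tsub_add_cancel_of_le]
          rw [Finsupp.single_le_iff]
          exact Nat.one_le_iff_ne_zero.mpr h0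
        set ν' := ν - Finsupp.single l 1 with hν'
        have hμ' : ν' + (i+2) • Finsupp.single l 1 = μt := by
          rw [← hμ, hν, succ_nsmul (Finsupp.single l 1) (i+1)]
          abel
        have h1 : dx l c ∈ Gm e (p+1) (p+1) (w - 1, i+2, ν') := by
          apply dx_G hl
          rw [← hν, sub_add_cancel]; exact hc
        have h2 := H (p+1) hpa ν' (by
          rw [show J - (p+1) = i + 2 by omega]; exact hμ')
        rw [show J - (p+1) = i + 2 by omega, show W - ((i + 2 : ℕ) : ℤ) = w - 1 by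
          push_cast; omega] at h2
        obtain ⟨c1, hc1, hc1d⟩ := h2 _ h1 hdc
        have h3 := ih (by omega) (i+1) (w-1) ν' c1 c (by omega) (by push_cast; omega) hμ' hc1
          (by rw [← hν, sub_add_cancel]; exact hc) hc1d.symm
        rw [← hν, sub_add_cancel] at h3
        exact h3
    obtain ⟨b1, hb1, hb1d⟩ := key
    have h4 : c + dd e true p b1 ∈ Gm e (p+1) (p+1) (w, i+1, ν) :=
      Submodule.add_mem _ hc (dd_G_eq he true hb1)
    obtain ⟨b, hb, hbc⟩ := lift_dx hl h4 hb1d
    refine ⟨b, hb, ?_⟩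
    rw [map_add, hdx, dx_dd hl, hbc, map_add, dd_dd, add_zero]; exact add_self' _

/-- the bad case: all kinds are one except one label of kind zero -/
theorem bad {e : ℕ → ℕ} {l : ℕ} (hl : e l = 0) (he : ∀ m, m ≠ l → e m ≠ 0) {a : ℕ} {w : ℤ}
    {μ : ℕ →₀ ℕ}
    (H1 : ∀ p < a, HVan (up e l) p (a - p) w (μ + Finsupp.single l 1))
    (H2 : ∀ p, p + 1 < a → HVan (up e l) p (a - p) (w - 1) μ)
    (H3 : ∀ p < a, ∀ ν : ℕ →₀ ℕ, ν + (a + 1 - p) • Finsupp.single l 1 = μ + Finsupp.single l 1 →
      HVan (up e l) p (a + 1 - p) (w - ((a + 1 - p : ℕ) : ℤ)) ν)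
    (H4 : ∀ w'' μ'', 2 * w'' = w → cmul (fun m => if m = l then 1 else 0) μ'' =
      μ + Finsupp.single l 1 → Van (fun m => if m = l then 1 else e m - 1) a w'' μ'')
    (H5 : Van e a (w - 1) μ) :
    Van e a w (μ + Finsupp.single l 1) := by
  have he' : ∀ m, up e l m ≠ 0 := by
    intro m
    by_cases hm : m = l
    · subst hm; simp
    · rw [up_ne e hm]; exact he m hm
  intro f hf hd
  apply raise_aux hl hf hd _ H5
  -- notation: `e1 = up e l`
  set M : Gd := (w, 0, μ + Finsupp.single l 1) with hM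
  have hπf : rp l f ∈ Gm (up e l) 0 a M := rp_G hl hf
  have hπd : dd (up e l) false a (rp l f) = 0 := by rw [← rp_dd hl, hd, map_zero]
  -- Step A
  obtain ⟨h0, hh0, hh⟩ := MLs he' hπf a le_rfl (by rw [hπd]; exact Subalgebra.zero_mem _)
    (fun p hp => H1 p hp)
  set h := rp l f + h0 with hhdef
  have hdh : dd (up e l) false a h = 0 := by
    rw [hhdef, map_add, hπd, Bd_dd hh0, add_zero]
  -- Step B
  have stepB : ∃ H0, H0 ∈ Gm e 0 a M ∧ dd e false a H0 = 0 ∧ rp l H0 = h0 := by
    cases a with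
    | zero =>
      have h1 : h0 = 0 := hh0
      exact ⟨0, Submodule.zero_mem _, map_zero _, by rw [map_zero, h1]⟩
    | succ a =>
      obtain ⟨y, hy, hyd⟩ := hh0
      refine ⟨dd e false a (ri l y), dd_G (Nat.zero_le _) (ri_G hl hy), dd_dd _ _ _ _, ?_⟩
      rw [rp_dd hl, rp_ri, hyd]
  obtain ⟨H0, hH0, hH0d, hH0r⟩ := stepB
  have hf1 : f + H0 ∈ Gm e 0 a M := Submodule.add_mem _ hf hH0
  have hf1r : rp l (f + H0) = h := by rw [map_add, hH0r]
  have hf1d : dd e false a (f + H0) = 0 := by rw [map_add, hd, hH0d, add_zero]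
  obtain ⟨g, hg, hfg⟩ := ker_rp hl hf1
  rw [hf1r] at hfg
  rw [hfg] at hf1d
  -- Step C
  have hC := connecting hl hf1d
  set g1 := rp l g with hg1def
  have hg1 : g1 ∈ Gm (up e l) 0 a (w - 1, 0, μ) := rp_G hl hg
  have hTh : Th e l a h ∈ F a (a+1) := Th_F hl hh.1
  -- Step D and E: correct `h` by a boundary so that `D h = 0`
  have stepE : ∃ h2, Bd (up e l) false (fun a => Gm (up e l) a a M) a h2 ∧
      h + h2 ∈ Gm (up e l) a a M ∧ dx l (h + h2) = 0 := by
    cases a with
    | zero =>
      refine ⟨0, rfl, by rw [add_zero]; exact hh, ?_⟩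
      rw [add_zero, ← sig_dt_Th hl he 0, ← hC]
      have h1 : dd (up e l) false 0 g1 ∈ Gm (up e l) 1 1 (w - 1, 0, μ) := dd_G_eq he' false hg1
      rw [dt_of_mem (show 0 < 1 by omega) h1.1, map_zero]
    | succ p =>
      obtain ⟨h1, hh1, hf2⟩ := MLs he' hg1 p (by omega) (by rw [hC]; exact hTh)
        (fun p' hp' => H2 p' (by omega))
      have hd2 : dd (up e l) false (p+1) (g1 + h1) = Th e l (p+1) h := by
        rw [map_add, Bd_dd hh1, add_zero, hC]
      have hk := kap_dd he' (p := p) (q := 1) hf2 (by rw [hd2]; exact hTh)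
      rw [hd2, kap_succ, kap_zero, sig_dt_Th hl he] at hk
      have hc : kap p 1 (g1 + h1) ∈ Gm (up e l) p p (w - 1, 1, μ) := by
        have := kap_G 1 0 hf2
        rwa [zero_add] at this
      have hh' : h ∈ Gm (up e l) (p+1) (p+1) (w - 1 + 1, 0, μ + Finsupp.single l 1) := by
        rw [sub_add_cancel]; exact hh
      obtain ⟨b, hb, hbd⟩ := dR he' (up_self e l) (a := p+1) (J := p+2) (W := w)
        (μt := μ + Finsupp.single l 1) (fun p' hp' ν hν => H3 p' hp' ν hν) p (by omega) 0 (w-1) μ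
        (kap p 1 (g1 + h1)) h (by omega) (by push_cast; omega) (by simp) hc hh' hk
      rw [sub_add_cancel] at hb
      refine ⟨dd (up e l) false p b, ⟨b, hb, rfl⟩, Submodule.add_mem _ hh
        (dd_G_eq he' false hb), ?_⟩
      rw [← dd_vfree p hb.2]
      exact hbd
  obtain ⟨h2, hh2, hh2G, hh2D⟩ := stepE
  -- Step F
  have hfin : Bd (up e l) false (fun a => Gm (up e l) a a M) a (h + h2) := by
    apply untwist (c := fun m => if m = l then 1 else 0) (e'' := fun m => if m = l then 1 else e m - 1)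
      (by intro m; split_ifs <;> omega)
    · intro m
      by_cases hm : m = l
      · subst hm; simp
      · rw [if_neg hm, if_neg hm, up_ne e hm]
        have := he m hm
        omega
    · intro m hm i
      rcases i with (⟨k, n⟩ | n | ⟨l', n⟩)
      · have h3 := hh2G.1 m hm (.t k n)
        simp only [Tp] at h3
        simp only [T2]
        by_cases hk : k < a
        · rw [if_pos hk] at h3 ⊢; exact h3
        · rw [if_neg hk, if_neg hk] at h3
          rw [if_neg hk]; exact h3
      · simp only [T2]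
        rw [Hg_zero_v hh2G.2 m hm n]
      · simp only [T2]
        by_cases hl' : l' = l
        · subst hl'
          rw [if_pos rfl, pow_one]
          exact ((isDR_dx l').even hh2D (Hg_zero_v hh2G.2) m hm n).two_dvd
        · rw [if_neg hl', pow_zero]; exact one_dvd _
    · exact hh2G.2
    · rw [map_add, hdh, Bd_dd hh2, add_zero]
    · exact H4
  -- conclusion
  have hle : ∀ p, Gm (up e l) p p M ≤ Gm (up e l) 0 p M :=
    fun p x hx => Gm_mono (Nat.zero_le _) le_rfl le_rfl hx
  have h5 : rp l f = (h + h2) + (h2 + h0) := by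
    rw [hhdef]
    have e1 := add_self' h0
    have e2 := add_self' h2
    calc rp l f = rp l f + (h0 + h0) + (h2 + h2) := by rw [e1, e2, add_zero, add_zero]
      _ = _ := by ring
  rw [h5]
  exact Bd_add (Bd_mono hle hfin) (Bd_add (Bd_mono hle hh2) hh0)

end Pool.Agent.Lib.SqZ
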