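import Mathlib

set_option autoImplicit false

open MvPolynomial Finset

noncomputable section

namespace Pool.Agent.Lib.SqZ

/-- Index type of the variables of one big polynomial ring over `F_2`:
`t i n` is the generator `ξ_{n+1}` sitting at position `i` of the cobar complex,
`v n` is the class of `ξ_{n+1}` in the exterior quotient, `x l n` is the `n`-th basis vector of
the comodule with label `l`. -/
inductive Idx where
  | t (i n : ℕ)
  | v (n : ℕ)
  | x (l n : ℕ)
  deriving DecidableEq

abbrev R := MvPolynomial Idx (ZMod 2)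

lemma add_self' (f : R) : f + f = 0 := CharTwo.add_self_eq_zero f

lemma eq_of_add_eq_zero' {f g : R} (h : f + g = 0) : f = g := by
  have := CharTwo.add_self_eq_zero g
  have h2 : f + g + g = g := by rw [h, zero_add]
  rw [add_assoc, this, add_zero] at h2
  exact h2

def xi (i : ℕ) : ℕ → R
  | 0 => 1
  | m+1 => X (.t i m)

@[simp] lemma xi_zero (i : ℕ) : xi i 0 = 1 := rfl
lemma xi_succ (i m : ℕ) : xi i (m+1) = X (.t i m) := rfl

def E (i a b : ℕ) : R := xi i (b - a) ^ (2 ^ a)

@[simp] lemma E_self (i a : ℕ) : E i a a = 1 := by simp [E]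
lemma E_zero (i b : ℕ) : E i 0 b = xi i b := by simp [E]

lemma E_pow (i a b k : ℕ) : E i a b ^ (2 ^ k) = E i (a + k) (b + k) := by
  unfold E
  rw [← pow_mul, ← pow_add, Nat.add_sub_add_right]

/-- the coproduct of `ξ_m` at position `i` -/
def cop (i m : ℕ) : R := ∑ l ∈ range (m+1), E i l m * xi (i+1) l

@[simp] lemma cop_zero (i : ℕ) : cop i 0 = 1 := by simp [cop]

lemma frob_sum {ι : Type*} (s : Finset ι) (f : ι → R) (k : ℕ) :
    (∑ i ∈ s, f i) ^ (2 ^ k) = ∑ i ∈ s, f i ^ (2 ^ k) :=
  sum_pow_char_pow 2 k s f

lemma cop_pow (i a m : ℕ) :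
    cop i m ^ (2 ^ a) = ∑ l ∈ Icc a (m + a), E i l (m + a) * E (i+1) a l := by
  unfold cop
  rw [frob_sum]
  have h : Icc a (m+a) = (range (m+1)).map (addRightEmbedding a) := by
    rw [Finset.range_eq_Ico, Finset.map_add_right_Ico]
    ext y; simp; omega
  rw [h, Finset.sum_map]
  refine Finset.sum_congr rfl fun l hl => ?_
  rw [mul_pow, E_pow]
  simp only [addRightEmbedding_apply]
  congr 1
  rw [← E_zero, E_pow, zero_add]

/-- coaction formula: `Y` is the family of basis vectors -/
def cx (s k : ℕ) (Y : ℕ → R) (n : ℕ) : R := ∑ i ∈ range (n+1), (E s i n)^(2^k) * Y i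

/-! ### The operators -/

def phi : R →ₐ[ZMod 2] R := aeval (fun k => match k with
  | .t j n => X (.t (j+1) n)
  | .v n => X (.v n)
  | .x l n => X (.x l n))

@[simp] lemma phi_t (j n : ℕ) : phi (X (.t j n)) = X (.t (j+1) n) := by simp [phi]
@[simp] lemma phi_v (n : ℕ) : phi (X (.v n)) = X (.v n) := by simp [phi]
@[simp] lemma phi_x (l n : ℕ) : phi (X (.x l n)) = X (.x l n) := by simp [phi]

def del (i : ℕ) : R →ₐ[ZMod 2] R := aeval (fun k => match k with
  | .t j n => if j < i then X (.t j n) else if j = i then cop i (n+1) else X (.t (j+1) n)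
  | .v n => X (.v n)
  | .x l n => X (.x l n))

lemma del_t (i j n : ℕ) : del i (X (.t j n)) =
    if j < i then X (.t j n) else if j = i then cop i (n+1) else X (.t (j+1) n) := by
  simp [del]
@[simp] lemma del_v (i n : ℕ) : del i (X (.v n)) = X (.v n) := by simp [del]
@[simp] lemma del_x (i l n : ℕ) : del i (X (.x l n)) = X (.x l n) := by simp [del]

def om (e : ℕ → ℕ) (b : Bool) (s : ℕ) : R →ₐ[ZMod 2] R := aeval (fun k => match k with
  | .t j n => if j < s then X (.t j n) else X (.t (j+1) n)
  | .v n => if b then cx s 1 (fun i => X (.v i)) n else X (.v n)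
  | .x l n => cx s (e l) (fun i => X (.x l i)) n)

lemma om_t (e : ℕ → ℕ) (b : Bool) (s j n : ℕ) : om e b s (X (.t j n)) =
    if j < s then X (.t j n) else X (.t (j+1) n) := by simp [om]
lemma om_v_true (e : ℕ → ℕ) (s n : ℕ) : om e true s (X (.v n)) =
    cx s 1 (fun i => X (.v i)) n := by simp [om]
lemma om_v_false (e : ℕ → ℕ) (s n : ℕ) : om e false s (X (.v n)) = X (.v n) := by simp [om]
lemma om_x (e : ℕ → ℕ) (b : Bool) (s l n : ℕ) : om e b s (X (.x l n)) =
    cx s (e l) (fun i => X (.x l i)) n := by simp [om]

def sig (p : ℕ) : R →ₐ[ZMod 2] R := aeval (fun k => match k with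
  | .t j n => if j < p then X (.t j n) else if j = p then 0 else X (.t (j-1) n)
  | .v n => X (.v n)
  | .x l n => X (.x l n))

lemma sig_t (p j n : ℕ) : sig p (X (.t j n)) =
    if j < p then X (.t j n) else if j = p then 0 else X (.t (j-1) n) := by simp [sig]
@[simp] lemma sig_v (p n : ℕ) : sig p (X (.v n)) = X (.v n) := by simp [sig]
@[simp] lemma sig_x (p l n : ℕ) : sig p (X (.x l n)) = X (.x l n) := by simp [sig]

def tau (p : ℕ) : R →ₐ[ZMod 2] R := aeval (fun k => match k with
  | .t j n => X (.t j n)
  | .v n => cx p 1 (fun i => X (.v i)) n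
  | .x l n => X (.x l n))

@[simp] lemma tau_t (p j n : ℕ) : tau p (X (.t j n)) = X (.t j n) := by simp [tau]
lemma tau_v (p n : ℕ) : tau p (X (.v n)) = cx p 1 (fun i => X (.v i)) n := by simp [tau]
@[simp] lemma tau_x (p l n : ℕ) : tau p (X (.x l n)) = X (.x l n) := by simp [tau]

/-! values on `xi` and `E` -/

lemma phi_xi (j m : ℕ) : phi (xi j m) = xi (j+1) m := by
  cases m <;> simp [xi]

lemma phi_E (j a b : ℕ) : phi (E j a b) = E (j+1) a b := by
  simp [E, phi_xi]

lemma del_xi_lt {i j : ℕ} (h : j < i) (m : ℕ) : del i (xi j m) = xi j m := by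
  cases m <;> simp [xi, del_t, h]

lemma del_xi_gt {i j : ℕ} (h : i < j) (m : ℕ) : del i (xi j m) = xi (j+1) m := by
  cases m
  · simp [xi]
  · simp only [xi, del_t]
    rw [if_neg (by omega), if_neg (by omega)]

lemma del_xi_eq (i m : ℕ) : del i (xi i m) = cop i m := by
  cases m <;> simp [xi, del_t]

lemma del_E_lt {i j : ℕ} (h : j < i) (a b : ℕ) : del i (E j a b) = E j a b := by
  simp [E, del_xi_lt h]

lemma del_E_gt {i j : ℕ} (h : i < j) (a b : ℕ) : del i (E j a b) = E (j+1) a b := by
  simp [E, del_xi_gt h]

lemma del_E_eq (i : ℕ) {a b : ℕ} (h : a ≤ b) :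
    del i (E i a b) = ∑ l ∈ Icc a b, E i l b * E (i+1) a l := by
  obtain ⟨m, rfl⟩ := Nat.exists_eq_add_of_le' h
  rw [← cop_pow, E, map_pow, Nat.add_sub_cancel, del_xi_eq]

lemma om_xi_lt (e : ℕ → ℕ) (b : Bool) {s j : ℕ} (h : j < s) (m : ℕ) :
    om e b s (xi j m) = xi j m := by
  cases m <;> simp [xi, om_t, h]

lemma om_xi_ge (e : ℕ → ℕ) (b : Bool) {s j : ℕ} (h : s ≤ j) (m : ℕ) :
    om e b s (xi j m) = xi (j+1) m := by
  cases m
  · simp [xi]
  · simp only [xi, om_t]
    rw [if_neg (by omega)]

lemma om_E_lt (e : ℕ → ℕ) (b : Bool) {s j : ℕ} (h : j < s) (a c : ℕ) :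
    om e b s (E j a c) = E j a c := by
  simp [E, om_xi_lt e b h]

lemma om_E_ge (e : ℕ → ℕ) (b : Bool) {s j : ℕ} (h : s ≤ j) (a c : ℕ) :
    om e b s (E j a c) = E (j+1) a c := by
  simp [E, om_xi_ge e b h]

lemma sig_xi_lt {p j : ℕ} (h : j < p) (m : ℕ) : sig p (xi j m) = xi j m := by
  cases m <;> simp [xi, sig_t, h]

lemma sig_xi_gt {p j : ℕ} (h : p < j) (m : ℕ) : sig p (xi j m) = xi (j-1) m := by
  cases m
  · simp [xi]
  · simp only [xi, sig_t]
    rw [if_neg (by omega), if_neg (by omega)]

lemma sig_xi_eq (p m : ℕ) : sig p (xi p m) = if m = 0 then 1 else 0 := by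
  cases m <;> simp [xi, sig_t]

lemma sig_E_lt {p j : ℕ} (h : j < p) (a b : ℕ) : sig p (E j a b) = E j a b := by
  simp [E, sig_xi_lt h]

lemma sig_E_gt {p j : ℕ} (h : p < j) (a b : ℕ) : sig p (E j a b) = E (j-1) a b := by
  simp [E, sig_xi_gt h]

lemma sig_E_eq (p : ℕ) {a b : ℕ} (h : a ≤ b) : sig p (E p a b) = if a = b then 1 else 0 := by
  simp only [E, map_pow, sig_xi_eq]
  by_cases hab : a = b
  · simp [hab]
  · rw [if_neg (by omega), if_neg hab, zero_pow (by positivity)]

lemma tau_xi (p j m : ℕ) : tau p (xi j m) = xi j m := by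
  cases m <;> simp [xi]

lemma tau_E (p j a b : ℕ) : tau p (E j a b) = E j a b := by
  simp [E, tau_xi]

/-! values on the coaction sums -/

lemma hom_cx (O : R →ₐ[ZMod 2] R) {s s' : ℕ} (hE : ∀ a b, O (E s a b) = E s' a b)
    {Y Y' : ℕ → R} (hY : ∀ i, O (Y i) = Y' i) (k n : ℕ) :
    O (cx s k Y n) = cx s' k Y' n := by
  simp [cx, map_sum, map_mul, map_pow, hE, hY]

lemma cx_eq (s k : ℕ) (Y : ℕ → R) (n : ℕ) :
    cx s k Y n = ∑ i ∈ range (n+1), E s (i+k) (n+k) * Y i := by
  unfold cx
  simp only [E_pow]

lemma cx_coassoc (s k : ℕ) (Y : ℕ → R) (n : ℕ) :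
    cx s k (fun j => cx (s+1) k Y j) n =
      ∑ i ∈ range (n+1), (∑ l ∈ Icc (i+k) (n+k), E s l (n+k) * E (s+1) (i+k) l) * Y i := by
  simp only [cx_eq, Finset.mul_sum, Finset.sum_mul]
  rw [Finset.sum_comm' (t' := range (n+1)) (s' := fun i => Icc i n) (by
    intro x y; simp only [mem_range, mem_Icc]; omega)]
  refine Finset.sum_congr rfl fun i hi => ?_
  have h : Icc (i+k) (n+k) = (Icc i n).map (addRightEmbedding k) := by
    rw [Finset.map_add_right_Icc]
  rw [h, Finset.sum_map]
  refine Finset.sum_congr rfl fun l hl => ?_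
  simp only [addRightEmbedding_apply]
  ring

lemma sig_cx_eq (p k : ℕ) (Y : ℕ → R) (hY : ∀ i, sig p (Y i) = Y i) (n : ℕ) :
    sig p (cx p k Y n) = Y n := by
  simp only [cx, map_sum, map_mul, map_pow, hY]
  rw [Finset.sum_range_succ, Finset.sum_eq_zero]
  · simp
  · intro i hi
    rw [mem_range] at hi
    rw [sig_E_eq p hi.le, if_neg hi.ne, zero_pow (by positivity), zero_mul]

/-! ### cosimplicial identities -/

lemma alg_ext {A B : R →ₐ[ZMod 2] R} (ht : ∀ j n, A (X (.t j n)) = B (X (.t j n)))
    (hv : ∀ n, A (X (.v n)) = B (X (.v n))) (hx : ∀ l n, A (X (.x l n)) = B (X (.x l n))) :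
    A = B := by
  apply MvPolynomial.algHom_ext
  rintro (⟨i, n⟩ | n | ⟨l, n⟩)
  · exact ht i n
  · exact hv n
  · exact hx l n

lemma phi_cop (i m : ℕ) : phi (cop i m) = cop (i+1) m := by
  simp [cop, phi_xi, phi_E]

lemma del_cop_lt {i j : ℕ} (h : j + 1 < i) (m : ℕ) : del i (cop j m) = cop j m := by
  simp [cop, del_xi_lt h, del_E_lt (show j < i by omega)]

lemma del_cop_gt {i j : ℕ} (h : i < j) (m : ℕ) : del i (cop j m) = cop (j+1) m := by
  simp [cop, del_xi_gt (show i < j+1 by omega), del_E_gt h]

lemma del_cop_coassoc (i m : ℕ) : del (i+1) (cop i m) = del i (cop i m) := by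
  simp only [cop, map_sum, map_mul, del_E_lt (show i < i+1 by omega), del_xi_eq,
    del_xi_gt (show i < i+1 by omega)]
  simp only [cop, Finset.mul_sum]
  rw [Finset.sum_comm' (t' := range (m+1)) (s' := fun i => Icc i m) (by
    intro x y; simp only [mem_range, mem_Icc]; omega)]
  refine Finset.sum_congr rfl fun l hl => ?_
  rw [mem_range] at hl
  rw [del_E_eq i (show l ≤ m by omega), Finset.sum_mul]
  refine Finset.sum_congr rfl fun k hk => ?_
  ring

lemma del_del {i j : ℕ} (h : i ≤ j) (f : R) : del (j+1) (del i f) = del i (del j f) := by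
  have : (del (j+1)).comp (del i) = (del i).comp (del j) := by
    apply alg_ext
    · intro k n
      simp only [AlgHom.comp_apply]
      rcases lt_trichotomy k i with hk | rfl | hk
      · rw [del_t i, if_pos hk, del_t j, if_pos (by omega), del_t (j+1), if_pos (by omega), del_t i,
          if_pos hk]
      · rw [del_t k, if_neg (by omega), if_pos rfl]
        rcases Nat.lt_or_ge k j with hkj | hkj
        · rw [del_t j, if_pos hkj, del_cop_lt (by omega), del_t k, if_neg (by omega), if_pos rfl]
        · obtain rfl : k = j := by omega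
          rw [del_t k, if_neg (by omega), if_pos rfl, del_cop_coassoc]
      · rw [del_t i, if_neg (by omega), if_neg (by omega)]
        rcases lt_trichotomy k j with hkj | rfl | hkj
        · rw [del_t j, if_pos hkj, del_t (j+1), if_pos (by omega), del_t i, if_neg (by omega),
            if_neg (by omega)]
        · rw [del_t k, if_neg (by omega), if_pos rfl, del_t (k+1), if_neg (by omega), if_pos rfl,
            del_cop_gt hk]
        · rw [del_t j, if_neg (by omega), if_neg (by omega), del_t (j+1), if_neg (by omega),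
            if_neg (by omega), del_t i, if_neg (by omega), if_neg (by omega)]
    · intro n; simp
    · intro l n; simp
  exact DFunLike.congr_fun this f

lemma om_cop_lt (e : ℕ → ℕ) (b : Bool) {s j : ℕ} (h : j + 1 < s) (m : ℕ) :
    om e b s (cop j m) = cop j m := by
  simp [cop, om_xi_lt e b h, om_E_lt e b (show j < s by omega)]

lemma om_del (e : ℕ → ℕ) (b : Bool) {i s : ℕ} (h : i < s) (f : R) :
    om e b (s+1) (del i f) = del i (om e b s f) := by
  have : (om e b (s+1)).comp (del i) = (del i).comp (om e b s) := by
    apply alg_ext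
    · intro k n
      simp only [AlgHom.comp_apply]
      rcases lt_trichotomy k i with hk | rfl | hk
      · rw [del_t i, if_pos hk, om_t, if_pos (by omega), om_t, if_pos (by omega), del_t i,
          if_pos hk]
      · rw [del_t k, if_neg (by omega), if_pos rfl, om_t, if_pos h, om_cop_lt _ _ (by omega),
          del_t k, if_neg (by omega), if_pos rfl]
      · rw [del_t i, if_neg (by omega), if_neg (by omega), om_t, om_t]
        by_cases hks : k < s
        · rw [if_pos (by omega), if_pos hks, del_t, if_neg (by omega), if_neg (by omega)]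
        · rw [if_neg (by omega), if_neg hks, del_t, if_neg (by omega), if_neg (by omega)]
    · intro n
      simp only [AlgHom.comp_apply, del_v]
      cases b
      · simp [om_v_false]
      · rw [om_v_true, om_v_true,
          hom_cx (del i) (s' := s+1) (fun a c => del_E_gt h a c) (fun j => del_v i j)]
    · intro l n
      simp only [AlgHom.comp_apply, del_x]
      rw [om_x, om_x, hom_cx (del i) (s' := s+1) (fun a c => del_E_gt h a c) (fun j => del_x i l j)]
  exact DFunLike.congr_fun this f

lemma om_cx_coassoc (e : ℕ → ℕ) (b : Bool) (s k n : ℕ) (Y : ℕ → R)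
    (hY : ∀ j, om e b (s+1) (Y j) = cx (s+1) k Y j) (hY2 : ∀ j, del s (Y j) = Y j) :
    om e b (s+1) (cx s k Y n) = del s (cx s k Y n) := by
  have h1 : om e b (s+1) (cx s k Y n) = cx s k (fun j => cx (s+1) k Y j) n := by
    apply hom_cx
    · intro a c; exact om_E_lt e b (by omega) a c
    · exact hY
  rw [h1, cx_coassoc]
  simp only [cx, map_sum, map_mul, map_pow, hY2]
  refine Finset.sum_congr rfl fun i hi => ?_
  rw [mem_range] at hi
  congr 1
  rw [← map_pow, E_pow, del_E_eq s (by omega)]

lemma om_om (e : ℕ → ℕ) (b : Bool) (s : ℕ) (f : R) :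
    om e b (s+1) (om e b s f) = del s (om e b s f) := by
  have : (om e b (s+1)).comp (om e b s) = (del s).comp (om e b s) := by
    apply alg_ext
    · intro k n
      simp only [AlgHom.comp_apply]
      rw [om_t]
      by_cases hks : k < s
      · rw [if_pos hks, om_t, if_pos (by omega), del_t, if_pos hks]
      · rw [if_neg hks, om_t, if_neg (by omega), del_t, if_neg (by omega), if_neg (by omega)]
    · intro n
      simp only [AlgHom.comp_apply]
      cases b
      · simp [om_v_false]
      · rw [om_v_true]
        exact om_cx_coassoc e true s 1 n _ (fun j => om_v_true e (s+1) j) (fun j => del_v s j)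
    · intro l n
      simp only [AlgHom.comp_apply]
      rw [om_x]
      exact om_cx_coassoc e b s (e l) n _ (fun j => om_x e b (s+1) l j) (fun j => del_x s l j)
  exact DFunLike.congr_fun this f

lemma del_phi_zero (f : R) : del 0 (phi f) = phi (phi f) := by
  have : (del 0).comp phi = phi.comp phi := by
    apply alg_ext
    · intro k n; simp [del_t]
    · intro n; simp
    · intro l n; simp
  exact DFunLike.congr_fun this f

lemma del_phi (i : ℕ) (f : R) : del (i+1) (phi f) = phi (del i f) := by
  have : (del (i+1)).comp phi = phi.comp (del i) := by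
    apply alg_ext
    · intro k n
      simp only [AlgHom.comp_apply, phi_t]
      rcases lt_trichotomy k i with hk | rfl | hk
      · rw [del_t, if_pos (by omega), del_t, if_pos hk, phi_t]
      · rw [del_t, if_neg (by omega), if_pos rfl, del_t, if_neg (by omega), if_pos rfl, phi_cop]
      · rw [del_t, if_neg (by omega), if_neg (by omega), del_t, if_neg (by omega),
          if_neg (by omega), phi_t]
    · intro n; simp
    · intro l n; simp
  exact DFunLike.congr_fun this f

lemma om_phi (e : ℕ → ℕ) (b : Bool) (s : ℕ) (f : R) :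
    om e b (s+1) (phi f) = phi (om e b s f) := by
  have : (om e b (s+1)).comp phi = phi.comp (om e b s) := by
    apply alg_ext
    · intro k n
      simp only [AlgHom.comp_apply, phi_t]
      rw [om_t, om_t]
      by_cases hks : k < s
      · rw [if_pos (by omega), if_pos hks, phi_t]
      · rw [if_neg (by omega), if_neg hks, phi_t]
    · intro n
      simp only [AlgHom.comp_apply, phi_v]
      cases b
      · simp [om_v_false]
      · rw [om_v_true, om_v_true, hom_cx phi (fun a c => phi_E s a c) (fun j => phi_v j)]
    · intro l n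
      simp only [AlgHom.comp_apply, phi_x]
      rw [om_x, om_x, hom_cx phi (fun a c => phi_E s a c) (fun j => phi_x l j)]
  exact DFunLike.congr_fun this f

/-! ### codegeneracies `sig` -/

lemma sig_cop_eq (p m : ℕ) : sig p (cop p m) = xi p m := by
  simp only [cop, map_sum, map_mul]
  rw [Finset.sum_range_succ, Finset.sum_eq_zero, E_self, map_one, one_mul, zero_add,
    sig_xi_gt (show p < p+1 by omega), Nat.add_sub_cancel]
  intro i hi
  rw [mem_range] at hi
  rw [sig_E_eq p hi.le, if_neg hi.ne, zero_mul]

lemma sig_cop_gt {p i : ℕ} (h : p < i) (m : ℕ) : sig p (cop i m) = cop (i-1) m := by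
  simp only [cop, map_sum, map_mul, sig_E_gt h, sig_xi_gt (show p < i+1 by omega)]
  rw [show i + 1 - 1 = i - 1 + 1 by omega]

lemma sig_cop_lt {p i : ℕ} (h : i + 1 < p) (m : ℕ) : sig p (cop i m) = cop i m := by
  simp only [cop, map_sum, map_mul, sig_E_lt (show i < p by omega), sig_xi_lt h]

/-- second counit: killing the new slot -/
lemma sig_cop_succ (p m : ℕ) : sig (p+1) (cop p m) = xi p m := by
  simp only [cop, map_sum, map_mul]
  rw [Finset.sum_range_succ', Finset.sum_eq_zero, xi_zero, map_one, mul_one, zero_add,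
    sig_E_lt (show p < p+1 by omega), E_zero]
  intro i hi
  rw [sig_xi_eq, if_neg (by omega), mul_zero]

lemma sig_del_eq (p : ℕ) (f : R) : sig p (del p f) = f := by
  have : (sig p).comp (del p) = AlgHom.id _ _ := by
    apply alg_ext
    · intro k n
      simp only [AlgHom.comp_apply, AlgHom.id_apply]
      rcases lt_trichotomy k p with hk | rfl | hk
      · rw [del_t, if_pos hk, sig_t, if_pos hk]
      · rw [del_t, if_neg (by omega), if_pos rfl, sig_cop_eq, xi_succ]
      · rw [del_t, if_neg (by omega), if_neg (by omega), sig_t, if_neg (by omega),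
          if_neg (by omega), Nat.add_sub_cancel]
    · intro n; simp
    · intro l n; simp
  exact DFunLike.congr_fun this f

lemma sig_del_gt {p i : ℕ} (h : p < i) (f : R) : sig p (del i f) = del (i-1) (sig p f) := by
  have : (sig p).comp (del i) = (del (i-1)).comp (sig p) := by
    apply alg_ext
    · intro k n
      simp only [AlgHom.comp_apply]
      rcases lt_trichotomy k p with hk | rfl | hk
      · rw [del_t, if_pos (by omega), sig_t, if_pos hk, del_t, if_pos (by omega)]
      · rw [del_t, if_pos h, sig_t, if_neg (by omega), if_pos rfl, map_zero]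
      · rw [sig_t, if_neg (by omega), if_neg (by omega)]
        rcases lt_trichotomy k i with hki | rfl | hki
        · rw [del_t, if_pos hki, sig_t, if_neg (by omega), if_neg (by omega), del_t,
            if_pos (by omega)]
        · rw [del_t, if_neg (by omega), if_pos rfl, del_t, if_neg (by omega), if_pos rfl,
            sig_cop_gt h]
        · rw [del_t, if_neg (by omega), if_neg (by omega), sig_t, if_neg (by omega),
            if_neg (by omega), del_t, if_neg (by omega), if_neg (by omega)]
          rw [show k + 1 - 1 = k - 1 + 1 by omega]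
    · intro n; simp
    · intro l n; simp
  exact DFunLike.congr_fun this f

lemma sig_del_lt {p i : ℕ} (h : i < p) (f : R) : sig (p+1) (del i f) = del i (sig p f) := by
  have : (sig (p+1)).comp (del i) = (del i).comp (sig p) := by
    apply alg_ext
    · intro k n
      simp only [AlgHom.comp_apply]
      rcases lt_trichotomy k i with hk | rfl | hk
      · rw [del_t, if_pos hk, sig_t, if_pos (by omega), sig_t, if_pos (by omega), del_t, if_pos hk]
      · rw [del_t, if_neg (by omega), if_pos rfl, sig_t, if_pos h, sig_cop_lt (by omega), del_t,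
          if_neg (by omega), if_pos rfl]
      · rw [del_t, if_neg (by omega), if_neg (by omega)]
        rcases lt_trichotomy k p with hkp | rfl | hkp
        · rw [sig_t, if_pos (by omega), sig_t, if_pos hkp, del_t, if_neg (by omega),
            if_neg (by omega)]
        · rw [sig_t, if_neg (by omega), if_pos rfl, sig_t, if_neg (by omega), if_pos rfl, map_zero]
        · rw [sig_t, if_neg (by omega), if_neg (by omega), sig_t, if_neg (by omega),
            if_neg (by omega), del_t, if_neg (by omega), if_neg (by omega)]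
          rw [show k + 1 - 1 = k - 1 + 1 by omega]
    · intro n; simp
    · intro l n; simp
  exact DFunLike.congr_fun this f

lemma sig_om_gt (e : ℕ → ℕ) (b : Bool) {p s : ℕ} (h : p < s) (f : R) :
    sig p (om e b s f) = om e b (s-1) (sig p f) := by
  have : (sig p).comp (om e b s) = (om e b (s-1)).comp (sig p) := by
    apply alg_ext
    · intro k n
      simp only [AlgHom.comp_apply]
      rcases lt_trichotomy k p with hk | rfl | hk
      · rw [om_t, if_pos (by omega), sig_t, if_pos hk, om_t, if_pos (by omega)]
      · rw [om_t, if_pos h, sig_t, if_neg (by omega), if_pos rfl, map_zero]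
      · rw [sig_t, if_neg (by omega), if_neg (by omega), om_t, om_t]
        by_cases hks : k < s
        · rw [if_pos hks, sig_t, if_neg (by omega), if_neg (by omega), if_pos (by omega)]
        · rw [if_neg hks, sig_t, if_neg (by omega), if_neg (by omega), if_neg (by omega)]
          rw [show k + 1 - 1 = k - 1 + 1 by omega]
    · intro n
      simp only [AlgHom.comp_apply, sig_v]
      cases b
      · simp [om_v_false]
      · rw [om_v_true, om_v_true,
          hom_cx (sig p) (s' := s-1) (fun a c => sig_E_gt h a c) (fun j => sig_v p j)]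
    · intro l n
      simp only [AlgHom.comp_apply, sig_x]
      rw [om_x, om_x, hom_cx (sig p) (s' := s-1) (fun a c => sig_E_gt h a c) (fun j => sig_x p l j)]
  exact DFunLike.congr_fun this f

lemma sig_om_eq (e : ℕ → ℕ) (b : Bool) (p : ℕ) (f : R) :
    sig p (om e b p f) = f := by
  have : (sig p).comp (om e b p) = AlgHom.id _ _ := by
    apply alg_ext
    · intro k n
      simp only [AlgHom.comp_apply, AlgHom.id_apply]
      by_cases hk : k < p
      · rw [om_t, if_pos hk, sig_t, if_pos hk]
      · rw [om_t, if_neg hk, sig_t, if_neg (by omega), if_neg (by omega), Nat.add_sub_cancel]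
    · intro n
      simp only [AlgHom.comp_apply, AlgHom.id_apply]
      cases b
      · simp [om_v_false]
      · rw [om_v_true, sig_cx_eq _ _ _ (fun i => sig_v p i)]
    · intro l n
      simp only [AlgHom.comp_apply, AlgHom.id_apply]
      rw [om_x, sig_cx_eq _ _ _ (fun i => sig_x p l i)]
  exact DFunLike.congr_fun this f

lemma sig_phi (p : ℕ) (f : R) : sig (p+1) (phi f) = phi (sig p f) := by
  have : (sig (p+1)).comp phi = phi.comp (sig p) := by
    apply alg_ext
    · intro k n
      simp only [AlgHom.comp_apply, phi_t]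
      rcases lt_trichotomy k p with hk | rfl | hk
      · rw [sig_t, if_pos (by omega), sig_t, if_pos hk, phi_t]
      · rw [sig_t, if_neg (by omega), if_pos rfl, sig_t, if_neg (by omega), if_pos rfl, map_zero]
      · rw [sig_t, if_neg (by omega), if_neg (by omega), sig_t, if_neg (by omega),
          if_neg (by omega), phi_t]
        rw [show k + 1 - 1 = k - 1 + 1 by omega]
    · intro n; simp
    · intro l n; simp
  exact DFunLike.congr_fun this f

/-! ### `tau` -/

lemma tau_del {p i : ℕ} (h : p < i) (f : R) : tau p (del i f) = del i (tau p f) := by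
  have : (tau p).comp (del i) = (del i).comp (tau p) := by
    apply alg_ext
    · intro k n
      simp only [AlgHom.comp_apply, tau_t]
      rw [del_t]
      split_ifs
      · simp
      · simp [cop, tau_xi, tau_E]
      · simp
    · intro n
      simp only [AlgHom.comp_apply, del_v]
      rw [tau_v, hom_cx (del i) (s' := p) (fun a c => del_E_lt h a c) (fun j => del_v i j)]
    · intro l n; simp
  exact DFunLike.congr_fun this f

lemma tau_om (e : ℕ → ℕ) {p s : ℕ} (h : p < s) (f : R) :
    tau p (om e false s f) = om e false s (tau p f) := by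
  have : (tau p).comp (om e false s) = (om e false s).comp (tau p) := by
    apply alg_ext
    · intro k n
      simp only [AlgHom.comp_apply, tau_t]
      rw [om_t]
      split_ifs <;> simp
    · intro n
      simp only [AlgHom.comp_apply, om_v_false]
      rw [tau_v, hom_cx (om e false s) (s' := p) (fun a c => om_E_lt e false h a c)
        (fun j => om_v_false e s j)]
    · intro l n
      simp only [AlgHom.comp_apply, tau_x]
      rw [om_x, hom_cx (tau p) (s' := s) (fun a c => tau_E p s a c) (fun j => tau_x p l j)]
  exact DFunLike.congr_fun this f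

lemma tau_om_eq (e : ℕ → ℕ) (p : ℕ) (f : R) :
    tau p (om e false p f) = om e true p f := by
  have : (tau p).comp (om e false p) = om e true p := by
    apply alg_ext
    · intro k n
      simp only [AlgHom.comp_apply, om_t]
      split_ifs <;> simp
    · intro n
      simp only [AlgHom.comp_apply, om_v_false, om_v_true, tau_v]
    · intro l n
      simp only [AlgHom.comp_apply]
      rw [om_x, om_x, hom_cx (tau p) (s' := p) (fun a c => tau_E p p a c) (fun j => tau_x p l j)]
  exact DFunLike.congr_fun this f

end Pool.Agent.Lib.SqZ
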