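import Pool.Agent.Lib.MP_9c8c11_gt.Grade

set_option autoImplicit false

open MvPolynomial Finset

noncomputable section

namespace Pool.Agent.Lib.SqZ

/-- the cobar differential `C^s → C^{s+1}` -/
def dd (e : ℕ → ℕ) (b : Bool) (s : ℕ) : R →ₗ[ZMod 2] R :=
  phi.toLinearMap + ∑ i ∈ range s, (del i).toLinearMap + (om e b s).toLinearMap

/-- the part of the differential acting on positions `≥ p` -/
def DD (e : ℕ → ℕ) (p s : ℕ) : R →ₗ[ZMod 2] R :=
  ∑ i ∈ Ico p s, (del i).toLinearMap + (om e false s).toLinearMap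

lemma dd_apply (e : ℕ → ℕ) (b : Bool) (s : ℕ) (f : R) :
    dd e b s f = phi f + ∑ i ∈ range s, del i f + om e b s f := by
  simp [dd]

lemma DD_apply (e : ℕ → ℕ) (p s : ℕ) (f : R) :
    DD e p s f = ∑ i ∈ Ico p s, del i f + om e false s f := by
  simp [DD]

lemma DD_self (e : ℕ → ℕ) (p : ℕ) (f : R) : DD e p p f = om e false p f := by
  simp [DD_apply]

/-- coface `i` at level `s` -/
def cf (e : ℕ → ℕ) (b : Bool) (s i : ℕ) : R →ₐ[ZMod 2] R := if i < s then del i else om e b s

lemma cf_lt (e : ℕ → ℕ) (b : Bool) {s i : ℕ} (h : i < s) (f : R) : cf e b s i f = del i f := by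
  simp [cf, h]

lemma cf_self (e : ℕ → ℕ) (b : Bool) (s : ℕ) (f : R) : cf e b s s f = om e b s f := by
  simp [cf]

lemma cf_cf (e : ℕ → ℕ) (b : Bool) {s i j : ℕ} (h : i ≤ j) (hj : j ≤ s) (f : R) :
    cf e b (s+1) (j+1) (cf e b s i f) = cf e b (s+1) i (cf e b s j f) := by
  rcases Nat.lt_or_ge j s with hjs | hjs
  · rw [cf_lt e b (show j+1 < s+1 by omega), cf_lt e b (show i < s by omega),
      cf_lt e b (show i < s+1 by omega), cf_lt e b hjs, del_del h]
  · obtain rfl : j = s := by omega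
    rw [cf_self, cf_self, cf_lt e b (show i < j+1 by omega)]
    rcases Nat.lt_or_ge i j with hij | hij
    · rw [cf_lt e b hij, om_del e b hij]
    · obtain rfl : i = j := by omega
      rw [cf_self, om_om]

lemma cf_phi_zero (e : ℕ → ℕ) (b : Bool) (s : ℕ) (f : R) :
    cf e b (s+1) 0 (phi f) = phi (phi f) := by
  rw [cf_lt e b (by omega), del_phi_zero]

lemma cf_phi (e : ℕ → ℕ) (b : Bool) {s i : ℕ} (h : i ≤ s) (f : R) :
    cf e b (s+1) (i+1) (phi f) = phi (cf e b s i f) := by
  rcases Nat.lt_or_ge i s with his | his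
  · rw [cf_lt e b (show i+1 < s+1 by omega), cf_lt e b his, del_phi]
  · obtain rfl : i = s := by omega
    rw [cf_self, cf_self, om_phi]

lemma dd_cf (e : ℕ → ℕ) (b : Bool) (s : ℕ) (f : R) :
    dd e b s f = phi f + ∑ i ∈ range (s+1), cf e b s i f := by
  rw [dd_apply, Finset.sum_range_succ, cf_self, add_assoc]
  congr 2
  refine Finset.sum_congr rfl fun i hi => ?_
  rw [cf_lt e b (mem_range.mp hi)]

lemma DD_cf (e : ℕ → ℕ) {p s : ℕ} (h : p ≤ s) (f : R) :
    DD e p s f = ∑ i ∈ Ico p (s+1), cf e false s i f := by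
  rw [DD_apply, Finset.sum_Ico_succ_top h, cf_self]
  congr 1
  refine Finset.sum_congr rfl fun i hi => ?_
  rw [cf_lt e false (mem_Ico.mp hi).2]

lemma double_sum_zero (p n : ℕ) (g : ℕ → ℕ → R)
    (h : ∀ i j, p ≤ i → i ≤ j → j < n → g (j+1) i = g i j) :
    ∑ j ∈ Ico p (n+1), ∑ i ∈ Ico p n, g j i = 0 := by
  rcases Nat.lt_or_ge n p with hnp | hpn
  · rw [Finset.Ico_eq_empty_of_le (show n ≤ p by omega)]; simp
  · induction n, hpn using Nat.le_induction with
    | base => simp
    | succ n hpn ih =>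
      have ih' := ih (fun i j h1 h2 h3 => h i j h1 h2 (by omega))
      rw [Finset.sum_Ico_succ_top (show p ≤ n+1 by omega)]
      have h1 : ∑ j ∈ Ico p (n+1), ∑ i ∈ Ico p (n+1), g j i =
          ∑ j ∈ Ico p (n+1), ∑ i ∈ Ico p n, g j i + ∑ j ∈ Ico p (n+1), g j n := by
        rw [← Finset.sum_add_distrib]
        refine Finset.sum_congr rfl fun j _ => ?_
        rw [Finset.sum_Ico_succ_top hpn]
      rw [h1, ih', zero_add]
      have h2 : ∑ i ∈ Ico p (n+1), g (n+1) i = ∑ j ∈ Ico p (n+1), g j n := by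
        refine Finset.sum_congr rfl fun i hi => ?_
        rw [mem_Ico] at hi
        exact h i n hi.1 (by omega) (by omega)
      rw [h2]
      exact add_self' _

lemma DD_DD (e : ℕ → ℕ) {p s : ℕ} (h : p ≤ s) (f : R) : DD e p (s+1) (DD e p s f) = 0 := by
  rw [DD_cf e (show p ≤ s+1 by omega), DD_cf e h]
  simp only [map_sum]
  exact double_sum_zero p (s+1) (fun j i => cf e false (s+1) j (cf e false s i f))
    (fun i j _ h2 h3 => cf_cf e false h2 (by omega) f)

lemma dd_dd (e : ℕ → ℕ) (b : Bool) (s : ℕ) (f : R) : dd e b (s+1) (dd e b s f) = 0 := by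
  have h1 : ∑ j ∈ range (s+1+1), ∑ i ∈ range (s+1), cf e b (s+1) j (cf e b s i f) = 0 := by
    have := double_sum_zero 0 (s+1) (fun j i => cf e b (s+1) j (cf e b s i f))
      (fun i j _ h2 h3 => cf_cf e b h2 (by omega) f)
    simpa only [Finset.range_eq_Ico] using this
  have h2 : ∑ j ∈ range (s+1+1), cf e b (s+1) j (phi f) =
      phi (phi f) + ∑ j ∈ range (s+1), phi (cf e b s j f) := by
    rw [Finset.sum_range_succ', cf_phi_zero, add_comm]
    congr 1
    refine Finset.sum_congr rfl fun i hi => ?_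
    rw [mem_range] at hi
    exact cf_phi e b (by omega) f
  rw [dd_cf e b (s+1), dd_cf e b s]
  simp only [map_add, map_sum, Finset.sum_add_distrib]
  rw [h1, h2, add_zero]
  exact add_self' _

lemma sig_DD (e : ℕ → ℕ) {p s : ℕ} (h : p ≤ s) (f : R) :
    sig p (DD e p (s+1) f) = f + DD e p s (sig p f) := by
  rw [DD_apply, DD_apply, map_add, map_sum]
  rw [Finset.sum_eq_sum_Ico_succ_bot (show p < s+1 by omega), sig_del_eq,
    sig_om_gt e false (show p < s+1 by omega), Nat.add_sub_cancel, add_assoc]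
  have h1 : ∑ x ∈ Ico (p+1) (s+1), sig p (del x f) = ∑ i ∈ Ico p s, del i (sig p f) := by
    rw [Finset.sum_Ico_eq_sum_range, Finset.sum_Ico_eq_sum_range]
    rw [show s + 1 - (p+1) = s - p by omega]
    refine Finset.sum_congr rfl fun i hi => ?_
    rw [sig_del_gt (show p < p + 1 + i by omega), show p + 1 + i - 1 = p + i by omega]
  rw [h1]

lemma sig_DD_self (e : ℕ → ℕ) (p : ℕ) (f : R) : sig p (DD e p p f) = f := by
  rw [DD_self, sig_om_eq]

lemma dt_DD (e : ℕ → ℕ) {p s : ℕ} (h : p < s) (f : R) :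
    dt p (DD e p s f) = DD e p s (dt p f) := by
  rw [DD_apply, DD_apply, map_add, map_sum, dt_om_gt e h]
  have h1 : ∑ x ∈ Ico p s, dt p (del x f) = ∑ i ∈ Ico p s, del i (dt p f) := by
    refine Finset.sum_congr rfl fun i hi => ?_
    rw [dt_del_ge (mem_Ico.mp hi).1]
  rw [h1]

lemma dt_DD_self (e : ℕ → ℕ) (he : ∀ l, e l ≠ 0) (p : ℕ) (f : R) :
    dt p (DD e p p f) = 0 := by
  rw [DD_self, dt_om_eq e he]

lemma DD_bot (e : ℕ → ℕ) {p s : ℕ} (h : p < s) (f : R) :
    DD e p s f = del p f + DD e (p+1) s f := by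
  rw [DD_apply, DD_apply, Finset.sum_eq_sum_Ico_succ_bot h, add_assoc]

/-- the iterated residue `κ` -/
def kap (p : ℕ) : ℕ → (R →ₗ[ZMod 2] R)
  | 0 => LinearMap.id
  | q+1 => (kap p q).comp ((sig p).toLinearMap.comp (dt p).toLinearMap)

@[simp] lemma kap_zero (p : ℕ) (f : R) : kap p 0 f = f := rfl
lemma kap_succ (p q : ℕ) (f : R) : kap p (q+1) f = kap p q (sig p (dt p f)) := rfl

lemma kap_DD (e : ℕ → ℕ) (he : ∀ l, e l ≠ 0) (p : ℕ) : ∀ (m : ℕ) (g : R),
    kap p (m+1) (DD e p (p+m) g) = 0 := by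
  intro m
  induction m with
  | zero =>
    intro g
    rw [kap_succ, add_zero, dt_DD_self e he, map_zero, map_zero]
  | succ m ih =>
    intro g
    rw [kap_succ, dt_DD e (show p < p + (m+1) by omega), show p + (m+1) = p + m + 1 by omega,
      sig_DD e (show p ≤ p+m by omega), map_add, ih, add_zero, kap_succ, dt_dt, map_zero, map_zero]

lemma kap_phi (p : ℕ) : ∀ (q : ℕ) (f : R), kap (p+1) q (phi f) = phi (kap p q f) := by
  intro q
  induction q with
  | zero => intro f; rfl
  | succ q ih =>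
    intro f
    rw [kap_succ, kap_succ, dt_phi, sig_phi, ih]

lemma kap_del {p i : ℕ} (h : i < p) : ∀ (q : ℕ) (f : R),
    kap (p+1) q (del i f) = del i (kap p q f) := by
  intro q
  induction q with
  | zero => intro f; rfl
  | succ q ih =>
    intro f
    rw [kap_succ, kap_succ, dt_del_lt h, sig_del_lt h, ih]

lemma tau_DD (e : ℕ → ℕ) {p r s : ℕ} (hr : p < r) (hs : p < s) (f : R) :
    tau p (DD e r s f) = DD e r s (tau p f) := by
  rw [DD_apply, DD_apply, map_add, map_sum, tau_om e hs]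
  have h1 : ∑ x ∈ Ico r s, tau p (del x f) = ∑ i ∈ Ico r s, del i (tau p f) := by
    refine Finset.sum_congr rfl fun i hi => ?_
    rw [tau_del (lt_of_lt_of_le hr (mem_Ico.mp hi).1)]
  rw [h1]

/-- (K2) -/
lemma kap_tau (e : ℕ → ℕ) (he : ∀ l, e l ≠ 0) (p : ℕ) : ∀ (q : ℕ) (z : R), dt p z = 0 →
    DD e p (p+q+1) z = 0 → kap (p+1) q (tau p z) = om e true p (kap p q (sig p z)) := by
  intro q
  induction q with
  | zero =>
    intro z _ hz
    have h1 := sig_DD e (show p ≤ p + 0 by omega) z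
    rw [hz, map_zero, add_zero, DD_self] at h1
    have h2 : z = om e false p (sig p z) := eq_of_add_eq_zero' h1.symm
    rw [kap_zero, kap_zero]
    conv_lhs => rw [h2]
    rw [tau_om_eq]
  | succ q ih =>
    intro z hz1 hz
    have h1 := sig_DD e (show p ≤ p + (q+1) by omega) z
    rw [hz, map_zero] at h1
    have h2 : z = DD e p (p+(q+1)) (sig p z) := eq_of_add_eq_zero' h1.symm
    set y := sig p z with hy
    have h3 : dt p (dt p y) = 0 := dt_dt p y
    have h4 : DD e p (p+q+1) (dt p y) = 0 := by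
      rw [← dt_DD e (show p < p+q+1 by omega), show p + q + 1 = p + (q+1) by omega, ← h2, hz1]
    have h5 := ih (dt p y) h3 h4
    rw [kap_succ p q y, ← h5, kap_succ, h2, DD_bot e (show p < p + (q+1) by omega), map_add,
      map_add, map_add, sig_dt_tau_del, map_add,
      tau_DD e (show p < p + 1 by omega) (show p < p + (q+1) by omega)]
    have h6 := kap_DD e he (p+1) q (tau p y)
    rw [kap_succ, show p + 1 + q = p + (q+1) by omega] at h6
    rw [h6, add_zero]

end Pool.Agent.Lib.SqZ
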