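import Pool.Agent.Lib.MP_9c8c11_gt.Fs

set_option autoImplicit false

open MvPolynomial Finset

noncomputable section

namespace Pool.Agent.Lib.SqZ

open Classical in
/-- contracting homotopy attached to the pair of variables `α, β` -/
def hh (α β : Idx) : R →ₗ[ZMod 2] R := mlin (fun m =>
  if Even (m α) ∧ 1 ≤ m β then monomial (m + Finsupp.single α 1 - Finsupp.single β 1) 1 else 0)

open Classical in
/-- projection onto monomials with `α`-exponent even and `β`-exponent zero -/
def pp (α β : Idx) : R →ₗ[ZMod 2] R := mlin (fun m =>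
  if Even (m α) ∧ m β = 0 then monomial m 1 else 0)

/-- data of a Koszul / de Rham derivation -/
structure IsDR (a : ℕ → Idx) (D : Derivation (ZMod 2) R R) : Prop where
  inj : Function.Injective a
  ne : ∀ n m, a n ≠ Idx.v m
  h1 : ∀ n, D (X (a n)) = X (Idx.v n)
  h2 : ∀ k, (∀ n, k ≠ a n) → D (X k) = 0

variable {a : ℕ → Idx} {D : Derivation (ZMod 2) R R}

lemma IsDR.dd (H : IsDR a D) (f : R) : D (D f) = 0 := by
  apply der_der_zero
  intro k
  by_cases h : ∃ n, k = a n
  · obtain ⟨n, rfl⟩ := h
    rw [H.h1]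
    exact H.h2 _ (fun m h => H.ne m n h.symm)
  · push Not at h
    rw [H.h2 k h, map_zero]

lemma IsDR.monomial (H : IsDR a D) (m : Idx →₀ ℕ) (N : ℕ) (hN : ∀ n, N ≤ n → m (a n) = 0) :
    D (monomial m 1) = ∑ n ∈ range N, (m (a n) : ZMod 2) •
      monomial (m - Finsupp.single (a n) 1 + Finsupp.single (Idx.v n) 1) 1 := by
  classical
  have hD : D = mkDerivation (ZMod 2) (fun i => D (X i)) := by
    apply derivation_ext
    intro i
    rw [mkDerivation_X]
  have h0 : D (MvPolynomial.monomial m 1) = ∑ i ∈ m.support,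
      MvPolynomial.monomial (m - Finsupp.single i 1) (m i : ZMod 2) * D (X i) := by
    conv_lhs => rw [hD]
    rw [mkDerivation_monomial, one_smul]
    rfl
  rw [h0]
  have h3 : ∑ i ∈ m.support, MvPolynomial.monomial (m - Finsupp.single i 1) (m i : ZMod 2) * D (X i)
      = ∑ i ∈ m.support ∪ (range N).image a,
        MvPolynomial.monomial (m - Finsupp.single i 1) (m i : ZMod 2) * D (X i) := by
    apply Finset.sum_subset Finset.subset_union_left
    intro i _ hi
    rw [Finsupp.notMem_support_iff] at hi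
    rw [hi]; simp
  have h4 : ∑ i ∈ (range N).image a,
        MvPolynomial.monomial (m - Finsupp.single i 1) (m i : ZMod 2) * D (X i)
      = ∑ i ∈ m.support ∪ (range N).image a,
        MvPolynomial.monomial (m - Finsupp.single i 1) (m i : ZMod 2) * D (X i) := by
    apply Finset.sum_subset Finset.subset_union_right
    intro i _ hi
    by_cases h : ∃ n, i = a n
    · obtain ⟨n, rfl⟩ := h
      have hn : N ≤ n := by
        by_contra hlt
        exact hi (Finset.mem_image.mpr ⟨n, Finset.mem_range.mpr (by omega), rfl⟩)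
      rw [hN n hn]; simp
    · push Not at h
      rw [H.h2 i h, mul_zero]
  rw [h3, ← h4, Finset.sum_image (fun x _ y _ h => H.inj h)]
  refine Finset.sum_congr rfl fun n _ => ?_
  rw [H.h1, X, monomial_mul, mul_one, smul_monomial, smul_eq_mul, mul_one]

lemma exists_bound (a : ℕ → Idx) (ha : Function.Injective a) (m : Idx →₀ ℕ) :
    ∃ N, ∀ n, N ≤ n → m (a n) = 0 := by
  classical
  have hfin : {n | m (a n) ≠ 0}.Finite := by
    apply Set.Finite.of_finite_image (f := a)
    · apply (m.support.finite_toSet).subset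
      rintro _ ⟨n, hn, rfl⟩
      simpa using hn
    · exact ha.injOn
  obtain ⟨N, hN⟩ := hfin.bddAbove
  refine ⟨N+1, fun n hn => ?_⟩
  by_contra h
  have := hN h
  omega

lemma IsDR.homotopy (H : IsDR a D) (n0 : ℕ) (f : R) :
    D (hh (a n0) (Idx.v n0) f) + hh (a n0) (Idx.v n0) (D f) + pp (a n0) (Idx.v n0) f = f := by
  classical
  suffices h : (D.toLinearMap ∘ₗ hh (a n0) (Idx.v n0)) + (hh (a n0) (Idx.v n0) ∘ₗ D.toLinearMap)
      + pp (a n0) (Idx.v n0) = LinearMap.id by
    exact LinearMap.congr_fun h f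
  apply lin_ext
  intro m
  simp only [LinearMap.add_apply, LinearMap.comp_apply, LinearMap.id_apply]
  show D (hh (a n0) (Idx.v n0) (MvPolynomial.monomial m 1)) +
    hh (a n0) (Idx.v n0) (D (MvPolynomial.monomial m 1)) +
    pp (a n0) (Idx.v n0) (MvPolynomial.monomial m 1) = MvPolynomial.monomial m 1
  obtain ⟨N0, hN0⟩ := exists_bound a H.inj m
  set N := max N0 (n0+1) with hNdef
  have hN : ∀ n, N ≤ n → m (a n) = 0 := fun n hn => hN0 n (le_trans (le_max_left _ _) hn)
  have hn0 : n0 < N := lt_of_lt_of_le (Nat.lt_succ_self _) (le_max_right _ _)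
  have hne : ∀ n m, a n ≠ Idx.v m := H.ne
  have hne' : ∀ n m, Idx.v m ≠ a n := fun n m h => H.ne n m h.symm
  have hinj : ∀ n m, a n = a m ↔ n = m := fun n m => H.inj.eq_iff
  -- first term
  have hA : hh (a n0) (Idx.v n0) (D (MvPolynomial.monomial m 1)) = ∑ n ∈ range N,
      (m (a n) : ZMod 2) • (if Even ((m - Finsupp.single (a n) 1 + Finsupp.single (Idx.v n) 1 : Idx →₀ ℕ) (a n0)) ∧
        1 ≤ (m - Finsupp.single (a n) 1 + Finsupp.single (Idx.v n) 1 : Idx →₀ ℕ) (Idx.v n0) then
        MvPolynomial.monomial (m - Finsupp.single (a n) 1 + Finsupp.single (Idx.v n) 1 +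
          Finsupp.single (a n0) 1 - Finsupp.single (Idx.v n0) 1) (1 : ZMod 2) else 0) := by
    rw [H.monomial m N hN, map_sum]
    refine Finset.sum_congr rfl fun n _ => ?_
    rw [map_smul, hh, mlin_monomial]
  have hB : D (hh (a n0) (Idx.v n0) (MvPolynomial.monomial m 1)) = ∑ n ∈ range N,
      (if Even (m (a n0)) ∧ 1 ≤ m (Idx.v n0) then
        (((m + Finsupp.single (a n0) 1 - Finsupp.single (Idx.v n0) 1 : Idx →₀ ℕ) (a n) : ℕ) : ZMod 2) •
        MvPolynomial.monomial (m + Finsupp.single (a n0) 1 - Finsupp.single (Idx.v n0) 1 -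
          Finsupp.single (a n) 1 + Finsupp.single (Idx.v n) 1) (1 : ZMod 2) else 0) := by
    rw [hh, mlin_monomial]
    by_cases hc : Even (m (a n0)) ∧ 1 ≤ m (Idx.v n0)
    · simp only [if_pos hc]
      apply H.monomial
      intro n hn
      have h1 : n ≠ n0 := by omega
      simp only [Finsupp.tsub_apply, Finsupp.add_apply, hN n hn, Finsupp.single_apply, hinj, hne']
      simp [Ne.symm h1]
    · simp only [if_neg hc, map_zero, Finset.sum_const_zero]
  have hC : pp (a n0) (Idx.v n0) (MvPolynomial.monomial m 1) =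
      if Even (m (a n0)) ∧ m (Idx.v n0) = 0 then MvPolynomial.monomial m 1 else 0 := by
    rw [pp, mlin_monomial]
  have key : ∀ n ∈ range N,
      (if Even (m (a n0)) ∧ 1 ≤ m (Idx.v n0) then
        (((m + Finsupp.single (a n0) 1 - Finsupp.single (Idx.v n0) 1 : Idx →₀ ℕ) (a n) : ℕ) : ZMod 2) •
        MvPolynomial.monomial (m + Finsupp.single (a n0) 1 - Finsupp.single (Idx.v n0) 1 -
          Finsupp.single (a n) 1 + Finsupp.single (Idx.v n) 1) (1 : ZMod 2) else 0) +
      (m (a n) : ZMod 2) • (if Even ((m - Finsupp.single (a n) 1 + Finsupp.single (Idx.v n) 1 : Idx →₀ ℕ) (a n0)) ∧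
        1 ≤ (m - Finsupp.single (a n) 1 + Finsupp.single (Idx.v n) 1 : Idx →₀ ℕ) (Idx.v n0) then
        MvPolynomial.monomial (m - Finsupp.single (a n) 1 + Finsupp.single (Idx.v n) 1 +
          Finsupp.single (a n0) 1 - Finsupp.single (Idx.v n0) 1) (1 : ZMod 2) else 0)
      = if n = n0 then (if Even (m (a n0)) ∧ m (Idx.v n0) = 0 then 0
          else MvPolynomial.monomial m (1 : ZMod 2)) else 0 := by
    intro n _
    by_cases hn : n = n0
    · subst hn
      rw [if_pos rfl]
      have e1 : (m - Finsupp.single (a n) 1 + Finsupp.single (Idx.v n) 1 : Idx →₀ ℕ) (a n) = m (a n) - 1 := by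
        simp [hne']
      have e2 : (m - Finsupp.single (a n) 1 + Finsupp.single (Idx.v n) 1 : Idx →₀ ℕ) (Idx.v n) = m (Idx.v n) + 1 := by
        simp [hne]
      have e3 : (m + Finsupp.single (a n) 1 - Finsupp.single (Idx.v n) 1 : Idx →₀ ℕ) (a n) =
          m (a n) + 1 := by
        simp [hne']
      rw [e1, e2, e3]
      by_cases hev : Even (m (a n))
      · have hz : ((m (a n) : ℕ) : ZMod 2) = 0 := (ZMod.natCast_eq_zero_iff_even).mpr hev
        rw [hz, zero_smul, add_zero]
        by_cases hv : m (Idx.v n) = 0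
        · rw [if_neg (by omega), if_pos ⟨hev, hv⟩]
        · rw [if_pos ⟨hev, by omega⟩, if_neg (by tauto), Nat.cast_add, hz, Nat.cast_one, zero_add,
            one_smul]
          have hm : m + Finsupp.single (a n) 1 - Finsupp.single (Idx.v n) 1 -
              Finsupp.single (a n) 1 + Finsupp.single (Idx.v n) 1 = m := by
            ext i
            by_cases hi1 : i = a n
            · subst hi1; simp [hne']
            · by_cases hi2 : i = Idx.v n
              · subst hi2; simp [hne]; omega
              · simp [Ne.symm hi1, Ne.symm hi2]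
          rw [hm]
      · have ho : Odd (m (a n)) := Nat.not_even_iff_odd.mp hev
        have hz : ((m (a n) : ℕ) : ZMod 2) = 1 := (ZMod.natCast_eq_one_iff_odd).mpr ho
        obtain ⟨k, hk⟩ := ho
        rw [if_neg (fun h => hev h.1), zero_add, hz, one_smul,
          if_pos ⟨⟨k, by omega⟩, by omega⟩, if_neg (fun h => hev h.1)]
        have hm : m - Finsupp.single (a n) 1 + Finsupp.single (Idx.v n) 1 +
            Finsupp.single (a n) 1 - Finsupp.single (Idx.v n) 1 = m := by
          ext i
          by_cases hi1 : i = a n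
          · subst hi1; simp [hne']; omega
          · by_cases hi2 : i = Idx.v n
            · subst hi2; simp [hne]
            · simp [Ne.symm hi1, Ne.symm hi2]
        rw [hm]
    · rw [if_neg hn]
      have hn' : n0 ≠ n := Ne.symm hn
      have e1 : (m - Finsupp.single (a n) 1 + Finsupp.single (Idx.v n) 1 : Idx →₀ ℕ) (a n0) = m (a n0) := by
        simp [hne', hinj, hn]
      have e2 : (m - Finsupp.single (a n) 1 + Finsupp.single (Idx.v n) 1 : Idx →₀ ℕ) (Idx.v n0) = m (Idx.v n0) := by
        simp [hne, hn]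
      have e3 : (m + Finsupp.single (a n0) 1 - Finsupp.single (Idx.v n0) 1 : Idx →₀ ℕ) (a n) =
          m (a n) := by
        simp [hne', hinj, hn']
      rw [e1, e2, e3]
      by_cases hc : Even (m (a n0)) ∧ 1 ≤ m (Idx.v n0)
      · rw [if_pos hc, if_pos hc]
        by_cases hz : m (a n) = 0
        · rw [hz]; simp
        · have : m + Finsupp.single (a n0) 1 - Finsupp.single (Idx.v n0) 1 -
            Finsupp.single (a n) 1 + Finsupp.single (Idx.v n) 1 =
            m - Finsupp.single (a n) 1 + Finsupp.single (Idx.v n) 1 +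
            Finsupp.single (a n0) 1 - Finsupp.single (Idx.v n0) 1 := by
            ext i
            have h1 := hc.2
            by_cases hi1 : i = a n
            · subst hi1; simp [hne', hinj, hn']
            · by_cases hi2 : i = Idx.v n
              · subst hi2; simp [hne, hn]
              · by_cases hi3 : i = a n0
                · subst hi3; simp [hne', hinj, hn]
                · by_cases hi4 : i = Idx.v n0
                  · subst hi4; simp [hne, hn]
                  · simp [Ne.symm hi1, Ne.symm hi2, Ne.symm hi3, Ne.symm hi4]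
          rw [this]
          exact add_self' _
      · rw [if_neg hc, if_neg hc]; simp
  rw [hA, hB, hC, ← Finset.sum_add_distrib, Finset.sum_congr rfl key, Finset.sum_ite_eq',
    if_pos (Finset.mem_range.mpr hn0)]
  split_ifs <;> simp

lemma hh_mem {T : Idx → ℕ} {α β : Idx} (hα : T α = 1) (hβ : T β = 1) {f : R} (hf : f ∈ Fs T) :
    hh α β f ∈ Fs T := by
  classical
  apply lin_induction (Q := fun f => hh α β f ∈ Fs T) f
  · rw [map_zero]; exact Subalgebra.zero_mem _
  · intro f g hf hg; rw [map_add]; exact Subalgebra.add_mem _ hf hg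
  · intro m hm
    rw [hh, mlin_monomial]
    split_ifs with hc
    · apply monomial_mem_Fs
      intro i
      by_cases h1 : i = α
      · rw [h1, hα]; exact one_dvd _
      · by_cases h2 : i = β
        · rw [h2, hβ]; exact one_dvd _
        · have := hf m hm i
          simpa [Ne.symm h1, Ne.symm h2] using this
    · exact Subalgebra.zero_mem _

lemma coeff_pp (α β : Idx) (f : R) (m : Idx →₀ ℕ) [Decidable (Even (m α) ∧ m β = 0)] :
    coeff m (pp α β f) = if Even (m α) ∧ m β = 0 then coeff m f else 0 := by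
  classical
  apply lin_induction (Q := fun f => coeff m (pp α β f) =
    if Even (m α) ∧ m β = 0 then coeff m f else 0) f
  · simp
  · intro f g hf hg
    rw [map_add, coeff_add, coeff_add, hf, hg]
    split_ifs <;> simp
  · intro m' _
    rw [pp, mlin_monomial]
    by_cases h : m' = m
    · subst h
      by_cases hc : Even (m' α) ∧ m' β = 0
      · simp [hc]
      · rw [if_neg hc, if_neg hc, coeff_zero]
    · split_ifs <;> simp [coeff_monomial, h]

lemma pp_support {α β : Idx} {f : R} {m : Idx →₀ ℕ} (hm : m ∈ (pp α β f).support) :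
    m ∈ f.support ∧ Even (m α) ∧ m β = 0 := by
  classical
  rw [mem_support_iff, coeff_pp] at hm
  by_cases hc : Even (m α) ∧ m β = 0
  · rw [if_pos hc] at hm
    exact ⟨mem_support_iff.mpr hm, hc⟩
  · rw [if_neg hc] at hm; exact absurd rfl hm

theorem IsDR.exact (H : IsDR a D) {T : Idx → ℕ} (hTa : ∀ n, T (a n) = 1)
    (hTv : ∀ n, T (.v n) = 1) {f : R} (hf : f ∈ Fs T) (hD : D f = 0)
    (hpos : ∀ m ∈ f.support, ∃ n, m (.v n) ≠ 0) : ∃ g ∈ Fs T, D g = f := by
  classical
  have step : ∀ N : ℕ, ∃ g ∈ Fs T, ∃ r : R, f = D g + r ∧ D r = 0 ∧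
      (∀ m ∈ r.support, m ∈ f.support ∧ ∀ n < N, m (.v n) = 0) := by
    intro N
    induction N with
    | zero =>
      exact ⟨0, Subalgebra.zero_mem _, f, by simp, hD, fun m hm => ⟨hm, by simp⟩⟩
    | succ N ih =>
      obtain ⟨g, hg, r, hfr, hr, hs⟩ := ih
      have hrT : r ∈ Fs T := fun m hm => hf m (hs m hm).1
      have h1 := H.homotopy N r
      rw [hr, map_zero, add_zero] at h1
      refine ⟨g + hh (a N) (.v N) r, Subalgebra.add_mem _ hg (hh_mem (hTa N) (hTv N) hrT),
        pp (a N) (.v N) r, ?_, ?_, ?_⟩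
      · rw [map_add, add_assoc, h1]; exact hfr
      · have h2 := congrArg D h1
        rw [map_add, H.dd, zero_add, hr] at h2
        exact h2
      · intro m hm
        obtain ⟨h3, h4, h5⟩ := pp_support hm
        refine ⟨(hs m h3).1, fun n hn => ?_⟩
        rcases Nat.lt_succ_iff_lt_or_eq.mp hn with h | h
        · exact (hs m h3).2 n h
        · rw [h]; exact h5
  -- a bound on the `v`-indices occurring in `f`
  have hb : ∃ N, ∀ m ∈ f.support, ∀ n, N ≤ n → m (.v n) = 0 := by
    have : ∀ m : Idx →₀ ℕ, ∃ N, ∀ n, N ≤ n → m (.v n) = 0 := fun m =>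
      exists_bound (fun n => .v n) (fun x y h => by simpa using h) m
    choose B hB using this
    refine ⟨f.support.sup B, fun m hm n hn => hB m n ((Finset.le_sup hm).trans hn)⟩
  obtain ⟨N, hN⟩ := hb
  obtain ⟨g, hg, r, hfr, hr, hs⟩ := step N
  have hr0 : r = 0 := by
    rw [← support_eq_empty]
    by_contra hne
    obtain ⟨m, hm⟩ := Finset.nonempty_iff_ne_empty.mpr hne
    obtain ⟨h1, h2⟩ := hs m hm
    obtain ⟨n, hn⟩ := hpos m h1
    rcases Nat.lt_or_ge n N with h | h
    · exact hn (h2 n h)
    · exact hn (hN m h1 n h)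
  exact ⟨g, hg, by rw [hfr, hr0, add_zero]⟩

theorem IsDR.even (H : IsDR a D) {f : R} (hD : D f = 0)
    (hv : ∀ m ∈ f.support, ∀ n, m (.v n) = 0) : ∀ m ∈ f.support, ∀ n, Even (m (a n)) := by
  classical
  intro m hm n
  have h0 : hh (a n) (.v n) f = 0 := by
    rw [eq_sum_monomial f, map_sum]
    apply Finset.sum_eq_zero
    intro m' hm'
    rw [hh, mlin_monomial, if_neg]
    rw [hv m' hm' n]; simp
  have h1 := H.homotopy n f
  rw [hD, h0, map_zero, map_zero, zero_add, zero_add] at h1
  rw [← h1] at hm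
  exact (pp_support hm).2.1

lemma isDR_dt (p : ℕ) : IsDR (fun n => .t p n) (dt p) where
  inj := fun x y h => by simpa using h
  ne := fun n m h => by simp at h
  h1 := fun n => by rw [dt_t, if_pos rfl]
  h2 := by
    rintro (⟨i, n⟩ | n | ⟨l, n⟩) h
    · rw [dt_t, if_neg]
      rintro rfl
      exact h n rfl
    · simp
    · simp

lemma isDR_dx (l : ℕ) : IsDR (fun n => .x l n) (dx l) where
  inj := fun x y h => by simpa using h
  ne := fun n m h => by simp at h
  h1 := fun n => by rw [dx_x, if_pos rfl]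
  h2 := by
    rintro (⟨i, n⟩ | n | ⟨l', n⟩) h
    · simp
    · simp
    · rw [dx_x, if_neg]
      rintro rfl
      exact h n rfl

end Pool.Agent.Lib.SqZ
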