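import Pool.Agent.Lib.MP_9c8c11_gt.Main

set_option autoImplicit false

open MvPolynomial Finset

noncomputable section

namespace Pool.Agent.Lib.SqZ

abbrev e1 : ℕ → ℕ := fun _ => 1

lemma e1_ne : ∀ l, e1 l ≠ 0 := fun _ => one_ne_zero

/-- pure polynomials: only `t_{i,n}` with `i < s` -/
def T0 (s : ℕ) : Idx → ℕ
  | .t i _ => if i < s then 1 else 0
  | .v _ => 0
  | .x _ _ => 0

lemma pure_of_Gm {e : ℕ → ℕ} {s : ℕ} {w : ℤ} {f : R} (hf : f ∈ Gm e 0 s (w, 0, 0)) :
    f ∈ Fs (T0 s) := by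
  intro m hm i
  rcases i with (⟨k, n⟩ | n | ⟨l, n⟩)
  · have := hf.1 m hm (.t k n)
    simp only [Tp] at this
    rw [if_neg (by omega)] at this
    exact this
  · rw [Hg_zero_v hf.2 m hm n]; exact dvd_zero _
  · have := weight_label e m l n
    rw [Hg.support (show Hg e f (w, 0, 0) from hf.2) hm] at this
    simp at this
    rw [this]; exact dvd_zero _

lemma T0_le {s : ℕ} {f : R} (hf : f ∈ Fs (T0 s)) : f ∈ F 0 s := by
  apply Fs_mono _ hf
  rintro (⟨k, n⟩ | n | ⟨l, n⟩)
  · simp only [T0, Tp]; split_ifs <;> omega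
  · simp [T0, Tp]
  · simp [T0, Tp]

lemma Psi_pure {s : ℕ} (c : ℕ → ℕ) : ∀ f ∈ Fs (T0 s), Psi c f = f ^ 2 := by
  apply Fs_induction
  · rintro (⟨k, n⟩ | n | ⟨l, n⟩)
    · simp only [T0]
      split_ifs
      · rw [pow_one, Psi_t]
      · simp
    · simp [T0]
    · simp [T0]
  · simp
  · simp
  · intro f g hf hg; rw [map_add, hf, hg, add_pow_two']
  · intro f g _ _ hf hg; rw [map_mul, hf, hg, mul_pow]

/-- one step of the descent -/
theorem descent (s : ℕ) : ∃ r : ℕ, ∀ k ≥ r, ∀ (w : ℤ) (g y : R),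
    g ∈ Gm e1 0 (s+1) (2^k * w, 0, 0) → y ∈ Gm e1 0 s (2^(k+1) * w, 0, 0) →
    dd e1 false s y = g ^ 2 → ∃ y' ∈ Gm e1 0 s (2^k * w, 0, 0), dd e1 false s y' = g := by
  have h1 : ∀ p ∈ Finset.range s, HGood e1 p (s - p) 0 0 := by
    intro p hp
    rw [Finset.mem_range] at hp
    exact HGood_child e1_ne (by positivity) (Or.inr (by omega)) (main_claim p)
  have h2 := (Filter.eventually_all_finset (Finset.range s)).mpr h1
  rw [Filter.eventually_atTop] at h2
  obtain ⟨r, hr⟩ := h2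
  refine ⟨r, fun k hk w g y hg hy hd => ?_⟩
  have hgP : Psi (fun _ => 0) g = g ^ 2 := Psi_pure _ g (pure_of_Gm hg)
  -- `g ^ 2` lies in the deepest filtration
  have hg2 : g ^ 2 ∈ F (s+1) (s+1) := by
    rw [← hgP]
    apply Fs_map (Psi (fun _ => 0)) _ (pure_of_Gm hg)
    rintro (⟨j, n⟩ | n | ⟨l, n⟩)
    · rw [Psi_t]
      simp only [T0]
      split_ifs with h
      · rw [pow_one]; exact t_sq_mem' h
      · rw [pow_zero]; exact Subalgebra.one_mem _
    · simp only [T0, pow_zero]; exact Subalgebra.one_mem _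
    · simp only [T0, pow_zero]; exact Subalgebra.one_mem _
  obtain ⟨h, hh, hyh⟩ := MLs e1_ne hy s le_rfl (by rw [hd]; exact hg2) (by
    intro p hp
    apply hr (k+1) (by omega) p (Finset.mem_range.mpr hp)
    rw [sub_zero]
    exact dvd_mul_right _ _)
  have hd2 : dd e1 false s (y + h) = g ^ 2 := by rw [map_add, hd, Bd_dd hh, add_zero]
  -- `y + h` is a square
  have hT2 : y + h ∈ Fs (T2 s (fun _ => 0)) := by
    intro m hm i
    have hpure := pure_of_Gm (Gm_mono (Nat.zero_le _) le_rfl le_rfl hyh)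
    rcases i with (⟨j, n⟩ | n | ⟨l, n⟩)
    · have h3 := hyh.1 m hm (.t j n)
      simp only [Tp] at h3
      simp only [T2]
      by_cases hj : j < s
      · rw [if_pos hj] at h3 ⊢; exact h3
      · rw [if_neg hj, if_neg hj] at h3
        rw [if_neg hj]; exact h3
    · simp only [T2]
      rw [Hg_zero_v hyh.2 m hm n]
    · simp [T2]
  obtain ⟨f', hf', hff⟩ := Psi_surj (y + h) hT2
  have hkind : ∀ l : ℕ, (fun _ : ℕ => 0) l + 1 = e1 l + (fun _ : ℕ => 0) l := fun l => rfl
  set f'' := weightedHomogeneousComponent (wt (fun _ => 0)) ((2^k * w, 0, 0) : Gd) f' with hf''def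
  have hPf : Psi (fun _ => 0) f'' = y + h := by
    have h5 := comp_proj_gen (Psi (fun _ => 0)).toLinearMap (Adb (fun _ => 0)) (Adb_injective _)
      (Psi_monomial hkind) ((2^k * w, 0, 0) : Gd) f'
    rw [Adb_apply, map_zero, mul_zero, ← mul_assoc, ← pow_succ'] at h5
    have h4 : weightedHomogeneousComponent (wt e1) ((2^(k+1) * w, 0, 0) : Gd)
        ((Psi (fun _ => 0)).toLinearMap f') = y + h := by
      show weightedHomogeneousComponent (wt e1) ((2^(k+1) * w, 0, 0) : Gd)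
        (Psi (fun _ => 0) f') = y + h
      rw [hff]; exact hyh.2.weightedHomogeneousComponent_same
    rw [h4] at h5
    exact h5
  have hfG : f'' ∈ Gm (fun _ => 0) 0 s (2^k * w, 0, 0) :=
    ⟨T1_le (comp_mem_Fs hf' _), Hg_comp _ _ _⟩
  have hfG' : f'' ∈ Gm e1 0 s (2^k * w, 0, 0) := by
    refine ⟨hfG.1, Hg_congr ?_ hfG.2⟩
    intro l hl
    simp at hl
  refine ⟨f'', hfG', ?_⟩
  have h6 : dd (fun _ => 0) false s f'' = g := by
    have h7 : Psi (fun _ => 0) (dd (fun _ => 0) false s f'' + g) = 0 := by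
      rw [map_add, Psi_dd hkind, hPf, hd2, hgP]; exact add_self' _
    exact eq_of_add_eq_zero' (Psi_injective (fun _ => Nat.zero_le _) h7)
  rw [← h6]
  exact (dd_congr (by intro l hl; simp at hl) false s hfG.2).symm

/-- iterated descent for homogeneous elements -/
theorem descent_iter (s : ℕ) : ∃ r : ℕ, ∀ (i : ℕ) (w : ℤ) (g : R),
    g ∈ Gm e1 0 (s+1) (w, 0, 0) →
    (∃ y ∈ Gm e1 0 s (2^(r+i) * w, 0, 0), dd e1 false s y = g ^ (2^(r+i))) →
    ∃ y ∈ Gm e1 0 s (2^r * w, 0, 0), dd e1 false s y = g ^ (2^r) := by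
  obtain ⟨r, hr⟩ := descent s
  refine ⟨r, fun i => ?_⟩
  induction i with
  | zero => intro w g _ h; exact h
  | succ i ih =>
    intro w g hg ⟨y, hy, hyd⟩
    apply ih w g hg
    have hG : g ^ (2^(r+i)) ∈ Gm e1 0 (s+1) (2^(r+i) * w, 0, 0) := by
      refine ⟨Subalgebra.pow_mem _ hg.1 _, Hg_cast (hg.2.pow _) ?_⟩
      ext <;> simp
    exact hr (r+i) (by omega) w _ y hG hy (by
      rw [← pow_mul, ← pow_succ]; exact hyd)

lemma sum_comp (e : ℕ → ℕ) (f : R) :
    ∑ M ∈ f.support.image (fun m => Finsupp.weight (wt e) m),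
      weightedHomogeneousComponent (wt e) M f = f := by
  classical
  ext m
  rw [coeff_sum]
  simp only [coeff_weightedHomogeneousComponent]
  rw [Finset.sum_ite_eq]
  split_ifs with h
  · rfl
  · symm
    rw [← notMem_support_iff]
    intro hm
    exact h (Finset.mem_image.mpr ⟨m, hm, rfl⟩)

lemma comp_dd (e : ℕ → ℕ) (b : Bool) (s : ℕ) (M : Gd) (f : R) :
    dd e b s (weightedHomogeneousComponent (wt e) M f) =
      weightedHomogeneousComponent (wt e) M (dd e b s f) :=
  comp_proj_gen (dd e b s) id Function.injective_id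
    (fun m => Hg_dd (isWeightedHomogeneous_monomial _ _ _ rfl)) M f

/-- components of a `2^N`-th power -/
lemma comp_pow (e : ℕ → ℕ) (N : ℕ) (w : ℤ) {f : R} :
    weightedHomogeneousComponent (wt e) ((2^N * w, 0, 0) : Gd) (f ^ (2^N)) =
      (weightedHomogeneousComponent (wt e) ((w, 0, 0) : Gd) f) ^ (2^N) := by
  classical
  conv_lhs => rw [← sum_comp e f, frob_sum, map_sum]
  have hterm : ∀ M ∈ f.support.image (fun m => Finsupp.weight (wt e) m),
      weightedHomogeneousComponent (wt e) ((2^N * w, 0, 0) : Gd)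
        ((weightedHomogeneousComponent (wt e) M f) ^ (2^N)) =
      if M = (w, 0, 0) then (weightedHomogeneousComponent (wt e) ((w, 0, 0) : Gd) f) ^ (2^N)
        else 0 := by
    intro M _
    have h1 : Hg e ((weightedHomogeneousComponent (wt e) M f) ^ (2^N)) ((2^N) • M) :=
      (Hg_comp e M f).pow _
    split_ifs with h
    · subst h
      have h2 : ((2^N) • ((w, 0, 0) : Gd)) = (2^N * w, 0, 0) := by ext <;> simp
      rw [h2] at h1
      exact h1.weightedHomogeneousComponent_same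
    · apply h1.weightedHomogeneousComponent_ne
      intro h3
      apply h
      rcases M with ⟨a, b, c⟩
      rw [Prod.smul_mk, Prod.smul_mk, Prod.mk.injEq, Prod.mk.injEq] at h3
      obtain ⟨h4, h5, h6⟩ := h3
      have hpos : (0:ℤ) < 2^N := by positivity
      rw [Prod.mk.injEq, Prod.mk.injEq]
      refine ⟨?_, ?_, ?_⟩
      · rw [nsmul_eq_mul, Nat.cast_pow, Nat.cast_ofNat] at h4
        exact mul_left_cancel₀ hpos.ne' h4.symm
      · rw [smul_eq_mul] at h5
        rcases mul_eq_zero.mp h5.symm with h | h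
        · exact absurd h (by positivity)
        · exact h
      · ext l
        have := DFunLike.congr_fun h6 l
        simp only [Finsupp.coe_zero, Pi.zero_apply, Finsupp.smul_apply, smul_eq_mul] at this
        rcases mul_eq_zero.mp this.symm with h | h
        · exact absurd h (by positivity)
        · simpa using h
  rw [Finset.sum_congr rfl hterm, Finset.sum_ite_eq']
  split_ifs with h
  · rfl
  · symm
    have h0 : weightedHomogeneousComponent (wt e) ((w, 0, 0) : Gd) f = 0 := by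
      rw [weightedHomogeneousComponent_eq_zero']
      intro m hm hM
      exact h (Finset.mem_image.mpr ⟨m, hm, hM⟩)
    rw [h0, zero_pow (by positivity)]

lemma comp_pure {s : ℕ} {f : R} (hf : f ∈ Fs (T0 s)) (w : ℤ) :
    weightedHomogeneousComponent (wt e1) ((w, 0, 0) : Gd) f ∈ Gm e1 0 s (w, 0, 0) :=
  ⟨T0_le (comp_mem_Fs hf _), Hg_comp _ _ _⟩

lemma sum_comp_pure {s : ℕ} {f : R} (hf : f ∈ Fs (T0 s)) : ∃ W : Finset ℤ,
    ∑ w ∈ W, weightedHomogeneousComponent (wt e1) ((w, 0, 0) : Gd) f = f := by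
  classical
  refine ⟨(f.support.image (fun m => Finsupp.weight (wt e1) m)).image (fun M : Gd => M.1), ?_⟩
  have hform : ∀ M ∈ f.support.image (fun m' => Finsupp.weight (wt e1) m'), M = (M.1, 0, 0) := by
    intro M hM
    obtain ⟨m, hm, rfl⟩ := Finset.mem_image.mp hM
    have h1 : ∀ i ∈ m.support, (wt e1 i).2 = 0 := by
      intro i hi
      have h2 := hf m hm i
      rcases i with (⟨k, n⟩ | n | ⟨l, n⟩)
      · rfl
      · simp only [T0, zero_dvd_iff] at h2
        exact absurd h2 (Finsupp.mem_support_iff.mp hi)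
      · simp only [T0, zero_dvd_iff] at h2
        exact absurd h2 (Finsupp.mem_support_iff.mp hi)
    have h3 : (Finsupp.weight (wt e1) m).2 = 0 := by
      rw [Finsupp.weight_apply, Finsupp.sum, Prod.snd_sum]
      apply Finset.sum_eq_zero
      intro i hi
      rw [Prod.smul_snd, h1 i hi, smul_zero]
    exact Prod.ext rfl (by rw [h3]; rfl)
  rw [Finset.sum_image]
  · conv_rhs => rw [← sum_comp e1 f]
    refine Finset.sum_congr rfl fun M hM => ?_
    rw [← hform M hM]
  · intro M hM M' hM' h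
    have h' : M.1 = M'.1 := h
    rw [hform M (Finset.mem_coe.mp hM), hform M' (Finset.mem_coe.mp hM'), h']

/-- the result inside the big ring -/
theorem big_result (s : ℕ) : ∃ r : ℕ, ∀ x ∈ Fs (T0 (s+1)), ∀ i : ℕ,
    (∃ y ∈ Fs (T0 s), dd e1 false s y = x ^ (2^(r+i))) →
    ∃ y ∈ Fs (T0 s), dd e1 false s y = x ^ (2^r) := by
  classical
  obtain ⟨r, hr⟩ := descent_iter s
  refine ⟨r, fun x hx i ⟨y, hy, hyd⟩ => ?_⟩
  obtain ⟨W, hW⟩ := sum_comp_pure hx
  have hw : ∀ w : ℤ, ∃ z ∈ Fs (T0 s), dd e1 false s z =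
      (weightedHomogeneousComponent (wt e1) ((w, 0, 0) : Gd) x) ^ (2^r) := by
    intro w
    obtain ⟨z, hz, hzd⟩ := hr i w _ (comp_pure hx w)
      ⟨weightedHomogeneousComponent (wt e1) ((2^(r+i) * w, 0, 0) : Gd) y, comp_pure hy _, by
        rw [comp_dd, hyd, comp_pow]⟩
    exact ⟨z, pure_of_Gm hz, hzd⟩
  choose z hz hzd using hw
  refine ⟨∑ w ∈ W, z w, Subalgebra.sum_mem _ fun w _ => hz w, ?_⟩
  rw [map_sum]
  conv_rhs => rw [← hW, frob_sum]
  exact Finset.sum_congr rfl fun w _ => hzd w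

/-! ### comparison with the frozen cobar complex -/

/-- inclusion of `C^s` in the big ring -/
def rho (s : ℕ) : MvPolynomial (Fin s × ℕ) (ZMod 2) →ₐ[ZMod 2] R :=
  rename (fun p : Fin s × ℕ => Idx.t p.1 p.2)

lemma rho_X (s : ℕ) (p : Fin s × ℕ) : rho s (X p) = X (.t p.1 p.2) := by
  simp [rho]

lemma rho_injective (s : ℕ) : Function.Injective (rho s) := by
  apply rename_injective
  rintro ⟨i, n⟩ ⟨j, m⟩ h
  simp only [Idx.t.injEq] at h
  rw [Prod.mk.injEq]
  exact ⟨Fin.ext h.1, h.2⟩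

lemma rho_mem (s : ℕ) (f : MvPolynomial (Fin s × ℕ) (ZMod 2)) : rho s f ∈ Fs (T0 s) := by
  induction f using MvPolynomial.induction_on with
  | C a =>
    rw [← algebraMap_eq, AlgHom.commutes]
    exact Subalgebra.algebraMap_mem _ _
  | add f g hf hg => rw [map_add]; exact Subalgebra.add_mem _ hf hg
  | mul_X f p hf =>
    rw [map_mul, rho_X]
    exact Subalgebra.mul_mem _ hf (X_mem _ (by simp [T0]))

lemma rho_surj (s : ℕ) : ∀ f ∈ Fs (T0 s), ∃ g, rho s g = f := by
  apply Fs_induction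
  · rintro (⟨k, n⟩ | n | ⟨l, n⟩)
    · simp only [T0]
      split_ifs with h
      · exact ⟨X (⟨k, h⟩, n), by rw [rho_X, pow_one]⟩
      · exact ⟨1, by simp⟩
    · exact ⟨1, by simp [T0]⟩
    · exact ⟨1, by simp [T0]⟩
  · exact ⟨0, map_zero _⟩
  · exact ⟨1, map_one _⟩
  · rintro f g ⟨f', rfl⟩ ⟨g', rfl⟩
    exact ⟨f' + g', map_add _ _ _⟩
  · rintro f g _ _ ⟨f', rfl⟩ ⟨g', rfl⟩
    exact ⟨f' * g', map_mul _ _ _⟩

/-- the substitution used in the frozen statement -/
def fz (s : ℕ) (j : ℕ) (p : Fin s × ℕ) : MvPolynomial (Fin (s + 1) × ℕ) (ZMod 2) :=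
  if (p.1 : ℕ) + 1 < j then
    (MvPolynomial.X (p.1.castSucc, p.2) : MvPolynomial (Fin (s + 1) × ℕ) (ZMod 2))
  else if j < (p.1 : ℕ) + 1 then
    (MvPolynomial.X (p.1.succ, p.2) : MvPolynomial (Fin (s + 1) × ℕ) (ZMod 2))
  else
    ∑ i ∈ Finset.range (p.2 + 2),
      (if i = p.2 + 1 then (1 : MvPolynomial (Fin (s + 1) × ℕ) (ZMod 2))
        else MvPolynomial.X (p.1.castSucc, p.2 - i)) ^ (2 ^ i) *
      (if i = 0 then (1 : MvPolynomial (Fin (s + 1) × ℕ) (ZMod 2))
        else MvPolynomial.X (p.1.succ, i - 1))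

lemma rho_cop (s : ℕ) (p : Fin s × ℕ) :
    rho (s+1) (∑ i ∈ Finset.range (p.2 + 2),
      (if i = p.2 + 1 then (1 : MvPolynomial (Fin (s + 1) × ℕ) (ZMod 2))
        else MvPolynomial.X (p.1.castSucc, p.2 - i)) ^ (2 ^ i) *
      (if i = 0 then (1 : MvPolynomial (Fin (s + 1) × ℕ) (ZMod 2))
        else MvPolynomial.X (p.1.succ, i - 1))) = cop p.1 (p.2+1) := by
  rw [map_sum, cop]
  refine Finset.sum_congr rfl fun i hi => ?_
  rw [Finset.mem_range] at hi
  rw [map_mul, map_pow, E]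
  congr 1
  · congr 1
    split_ifs with h
    · rw [map_one, h, Nat.sub_self, xi_zero]
    · rw [rho_X, show p.2 + 1 - i = (p.2 - i) + 1 by omega, xi_succ]
      rfl
  · split_ifs with h
    · rw [map_one, h, xi_zero]
    · obtain ⟨k, rfl⟩ := Nat.exists_eq_succ_of_ne_zero h
      rw [rho_X, Nat.succ_eq_add_one, xi_succ, Nat.add_sub_cancel]
      simp

lemma rho_fz_zero (s : ℕ) (f : MvPolynomial (Fin s × ℕ) (ZMod 2)) :
    rho (s+1) (aeval (fz s 0) f) = phi (rho s f) := by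
  have : (rho (s+1)).comp (aeval (fz s 0)) = phi.comp (rho s) := by
    apply MvPolynomial.algHom_ext
    intro p
    simp only [AlgHom.comp_apply, aeval_X, rho_X, phi_t]
    unfold fz
    rw [if_neg (by omega), if_pos (by omega), rho_X]
    simp
  exact DFunLike.congr_fun this f

lemma rho_fz_mid (s : ℕ) {k : ℕ} (f : MvPolynomial (Fin s × ℕ) (ZMod 2)) :
    rho (s+1) (aeval (fz s (k+1)) f) = del k (rho s f) := by
  have : (rho (s+1)).comp (aeval (fz s (k+1))) = (del k).comp (rho s) := by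
    apply MvPolynomial.algHom_ext
    intro p
    simp only [AlgHom.comp_apply, aeval_X, rho_X]
    rw [del_t]
    unfold fz
    rcases lt_trichotomy (p.1 : ℕ) k with h | h | h
    · rw [if_pos (by omega), if_pos h, rho_X]
      simp
    · rw [if_neg (by omega), if_neg (by omega), if_neg (by omega), if_pos h, rho_cop, h]
    · rw [if_neg (by omega), if_pos (by omega), if_neg (by omega), if_neg (by omega), rho_X]
      simp
  exact DFunLike.congr_fun this f

lemma rho_fz_last (s : ℕ) (f : MvPolynomial (Fin s × ℕ) (ZMod 2)) :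
    rho (s+1) (aeval (fz s (s+1)) f) = om e1 false s (rho s f) := by
  have : (rho (s+1)).comp (aeval (fz s (s+1))) = (om e1 false s).comp (rho s) := by
    apply MvPolynomial.algHom_ext
    intro p
    simp only [AlgHom.comp_apply, aeval_X, rho_X]
    have := p.1.isLt
    rw [om_t, if_pos this]
    unfold fz
    rw [if_pos (by omega), rho_X]
    simp
  exact DFunLike.congr_fun this f

lemma rho_d (s : ℕ) (f : MvPolynomial (Fin s × ℕ) (ZMod 2)) :
    rho (s+1) (∑ j : Fin (s + 2), aeval (fz s j) f) = dd e1 false s (rho s f) := by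
  rw [Fin.sum_univ_castSucc, Fin.sum_univ_succ, map_add, map_add, dd_apply, map_sum]
  have h1 : rho (s+1) (aeval (fz s ((Fin.castSucc (0 : Fin (s+1)) : Fin (s+2)) : ℕ)) f) =
      phi (rho s f) := by
    rw [Fin.val_castSucc, Fin.val_zero]; exact rho_fz_zero s f
  have h2 : rho (s+1) (aeval (fz s ((Fin.last (s+1) : Fin (s+2)) : ℕ)) f) =
      om e1 false s (rho s f) := by
    rw [Fin.val_last]; exact rho_fz_last s f
  have h3 : ∑ i : Fin s, rho (s+1) (aeval (fz s ((Fin.castSucc (Fin.succ i) : Fin (s+2)) : ℕ)) f) =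
      ∑ i ∈ range s, del i (rho s f) := by
    rw [Finset.sum_range]
    refine Finset.sum_congr rfl fun i _ => ?_
    rw [Fin.val_castSucc, Fin.val_succ]
    exact rho_fz_mid s f
  rw [h1, h2, h3]

/-- final form -/
theorem final_result (d : (s : ℕ) → MvPolynomial (Fin s × ℕ) (ZMod 2) →
      MvPolynomial (Fin (s + 1) × ℕ) (ZMod 2))
    (hd : ∀ (s : ℕ) (x : MvPolynomial (Fin s × ℕ) (ZMod 2)),
        d s x = ∑ j : Fin (s + 2), aeval (fz s j) x) (s : ℕ) :
    ∃ r : ℕ, ∀ x : MvPolynomial (Fin (s + 1) × ℕ) (ZMod 2), ∀ i : ℕ,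
      (∃ y : MvPolynomial (Fin s × ℕ) (ZMod 2), d s y = x ^ (2 ^ (r + i))) →
      ∃ y : MvPolynomial (Fin s × ℕ) (ZMod 2), d s y = x ^ (2 ^ r) := by
  obtain ⟨r, hr⟩ := big_result s
  refine ⟨r, fun x i ⟨y, hy⟩ => ?_⟩
  obtain ⟨z, hz, hzd⟩ := hr (rho (s+1) x) (rho_mem _ _) i ⟨rho s y, rho_mem _ _, by
    rw [← rho_d, ← hd, hy, map_pow]⟩
  obtain ⟨z', rfl⟩ := rho_surj s z hz
  refine ⟨z', ?_⟩
  apply rho_injective (s+1)
  rw [hd, rho_d, hzd, map_pow]

end Pool.Agent.Lib.SqZ
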