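import Pool.Agent.Lib.MP_9c8c11_gt.Defs

set_option autoImplicit false

open MvPolynomial Finset

noncomputable section

namespace Pool.Agent.Lib.SqZ

/-- linear map prescribed on monomials -/
def mlin (g : (Idx →₀ ℕ) → R) : R →ₗ[ZMod 2] R :=
  (basisMonomials Idx (ZMod 2)).constr (ZMod 2) g

lemma mlin_monomial (g : (Idx →₀ ℕ) → R) (m : Idx →₀ ℕ) : mlin g (monomial m 1) = g m := by
  have h : (monomial m 1 : R) = basisMonomials Idx (ZMod 2) m := by
    rw [coe_basisMonomials]
  unfold mlin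
  rw [h, Module.Basis.constr_basis]

lemma zmod2_cases (c : ZMod 2) : c = 0 ∨ c = 1 := by
  revert c; decide

lemma eq_sum_monomial (f : R) : f = ∑ m ∈ f.support, monomial m 1 := by
  conv_lhs => rw [f.as_sum]
  refine Finset.sum_congr rfl fun m hm => ?_
  rw [mem_support_iff] at hm
  rcases zmod2_cases (coeff m f) with h | h
  · exact absurd h hm
  · rw [h]

/-- linear induction over the support -/
lemma lin_induction {Q : R → Prop} (f : R) (h0 : Q 0) (hadd : ∀ f g, Q f → Q g → Q (f + g))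
    (hm : ∀ m ∈ f.support, Q (monomial m 1)) : Q f := by
  rw [eq_sum_monomial f]
  exact Finset.sum_induction _ Q hadd h0 hm

lemma lin_ext {A B : R →ₗ[ZMod 2] R} (h : ∀ m, A (monomial m 1) = B (monomial m 1)) : A = B := by
  apply LinearMap.ext
  intro f
  apply lin_induction (Q := fun f => A f = B f) f
  · simp
  · intro f g hf hg; rw [map_add, map_add, hf, hg]
  · intro m _; exact h m

/-! ### the subalgebras `Fs T` -/

/-- polynomials all of whose exponents satisfy `T i ∣ m i` -/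
def Fs (T : Idx → ℕ) : Subalgebra (ZMod 2) R where
  carrier := {f | ∀ m ∈ f.support, ∀ i, T i ∣ m i}
  mul_mem' := by
    intro f g hf hg m hm i
    have := support_mul f g hm
    rw [Finset.mem_add] at this
    obtain ⟨a, ha, b, hb, rfl⟩ := this
    exact dvd_add (hf a ha i) (hg b hb i)
  add_mem' := by
    intro f g hf hg m hm i
    have := support_add hm
    rw [Finset.mem_union] at this
    rcases this with h | h
    · exact hf m h i
    · exact hg m h i
  algebraMap_mem' := by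
    intro r m hm i
    rw [algebraMap_eq, mem_support_iff, coeff_C] at hm
    have : m = 0 := by
      by_contra h
      rw [if_neg (Ne.symm h)] at hm
      exact hm rfl
    simp [this]

lemma mem_Fs {T : Idx → ℕ} {f : R} : f ∈ Fs T ↔ ∀ m ∈ f.support, ∀ i, T i ∣ m i := Iff.rfl

lemma monomial_mem_Fs {T : Idx → ℕ} {m : Idx →₀ ℕ} (c : ZMod 2) (h : ∀ i, T i ∣ m i) :
    monomial m c ∈ Fs T := by
  intro m' hm' i
  have := support_monomial_subset hm'
  rw [Finset.mem_singleton] at this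
  rw [this]; exact h i

lemma Fs_mono {T T' : Idx → ℕ} (h : ∀ i, T' i ∣ T i) {f : R} (hf : f ∈ Fs T) : f ∈ Fs T' :=
  fun m hm i => (h i).trans (hf m hm i)

lemma X_pow_mem {T : Idx → ℕ} (i : Idx) {k : ℕ} (h : T i ∣ k) : (X i : R) ^ k ∈ Fs T := by
  classical
  rw [X_pow_eq_monomial]
  apply monomial_mem_Fs
  intro j
  rw [Finsupp.single_apply]
  split_ifs with hij
  · rw [← hij]; exact h
  · exact dvd_zero _

lemma X_mem {T : Idx → ℕ} (i : Idx) (h : T i = 1) : (X i : R) ∈ Fs T := by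
  rw [← pow_one (X i : R)]
  exact X_pow_mem i (by rw [h])

lemma Fs_induction {T : Idx → ℕ} {Q : R → Prop} (hX : ∀ i, Q (X i ^ T i)) (h0 : Q 0) (h1 : Q 1)
    (hadd : ∀ f g, Q f → Q g → Q (f + g))
    (hmul : ∀ f g, f ∈ Fs T → g ∈ Fs T → Q f → Q g → Q (f * g)) :
    ∀ f ∈ Fs T, Q f := by
  intro f hf
  apply lin_induction f h0 hadd
  intro m hm
  have hm' := hf m hm
  suffices h : (monomial m (1 : ZMod 2) : R) ∈ Fs T ∧ Q (monomial m 1) from h.2
  rw [monomial_eq, C_1, one_mul]
  unfold Finsupp.prod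
  apply Finset.prod_induction _ (fun f => f ∈ Fs T ∧ Q f)
  · intro a b ha hb
    exact ⟨Subalgebra.mul_mem _ ha.1 hb.1, hmul _ _ ha.1 hb.1 ha.2 hb.2⟩
  · exact ⟨Subalgebra.one_mem _, h1⟩
  · intro i _
    obtain ⟨k, hk⟩ := hm' i
    show (X i : R) ^ (m i) ∈ Fs T ∧ Q (X i ^ (m i))
    rw [hk, pow_mul]
    have hbase : (X i : R) ^ T i ∈ Fs T ∧ Q (X i ^ T i) := ⟨X_pow_mem i dvd_rfl, hX i⟩
    induction k with
    | zero => rw [pow_zero]; exact ⟨Subalgebra.one_mem (Fs T), h1⟩
    | succ k ih =>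
      have : ((X i : R) ^ T i) ^ k ∈ Fs T ∧ Q (((X i : R) ^ T i) ^ k) := by
        clear hk ih
        induction k with
        | zero => rw [pow_zero]; exact ⟨Subalgebra.one_mem (Fs T), h1⟩
        | succ k ih =>
          rw [pow_succ]
          exact ⟨Subalgebra.mul_mem _ ih.1 hbase.1, hmul _ _ ih.1 hbase.1 ih.2 hbase.2⟩
      rw [pow_succ]
      exact ⟨Subalgebra.mul_mem _ this.1 hbase.1, hmul _ _ this.1 hbase.1 this.2 hbase.2⟩

lemma Fs_map {T T' : Idx → ℕ} (O : R →ₐ[ZMod 2] R) (h : ∀ i, O (X i) ^ T i ∈ Fs T') {f : R}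
    (hf : f ∈ Fs T) : O f ∈ Fs T' := by
  revert f
  apply Fs_induction
  · intro i; rw [map_pow]; exact h i
  · rw [map_zero]; exact Subalgebra.zero_mem _
  · rw [map_one]; exact Subalgebra.one_mem _
  · intro f g hf hg; rw [map_add]; exact Subalgebra.add_mem _ hf hg
  · intro f g _ _ hf hg; rw [map_mul]; exact Subalgebra.mul_mem _ hf hg

/-- additive maps which satisfy a twisted Leibniz rule -/
lemma Fs_twisted {T T' : Idx → ℕ} (O : R → R) (A : R →ₐ[ZMod 2] R) (h0 : O 0 = 0) (h1 : O 1 = 0)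
    (hadd : ∀ f g, O (f + g) = O f + O g) (hmul : ∀ f g, O (f * g) = O f * A g + A f * O g)
    (hA : ∀ i, A (X i) ^ T i ∈ Fs T') (hO : ∀ i, O (X i ^ T i) ∈ Fs T') {f : R}
    (hf : f ∈ Fs T) : O f ∈ Fs T' := by
  revert f
  apply Fs_induction
  · exact hO
  · rw [h0]; exact Subalgebra.zero_mem _
  · rw [h1]; exact Subalgebra.zero_mem _
  · intro f g hf hg; rw [hadd]; exact Subalgebra.add_mem _ hf hg
  · intro f g hf' hg' hf hg
    rw [hmul]
    exact Subalgebra.add_mem _ (Subalgebra.mul_mem _ hf (Fs_map A hA hg'))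
      (Subalgebra.mul_mem _ (Fs_map A hA hf') hg)

lemma der_one (D : Derivation (ZMod 2) R R) : D 1 = 0 := D.map_one_eq_zero

lemma der_sq (D : Derivation (ZMod 2) R R) (f : R) : D (f ^ 2) = 0 := by
  rw [pow_two, D.leibniz, ← two_smul R (f • D f)]
  have : (2 : R) = 0 := CharTwo.two_eq_zero
  rw [this, zero_smul]

lemma der_pow_two_pow (D : Derivation (ZMod 2) R R) (f : R) {k : ℕ} (hk : k ≠ 0) :
    D (f ^ (2 ^ k)) = 0 := by
  obtain ⟨j, rfl⟩ := Nat.exists_eq_succ_of_ne_zero hk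
  rw [pow_succ, pow_mul]
  exact der_sq D _

lemma Fs_der {T T' : Idx → ℕ} (D : Derivation (ZMod 2) R R) (hle : ∀ i, T' i ∣ T i)
    (hD : ∀ i, D (X i ^ T i) ∈ Fs T') {f : R} (hf : f ∈ Fs T) : D f ∈ Fs T' := by
  apply Fs_twisted (T := T) (fun f => D f) (AlgHom.id _ _) (map_zero D) (der_one D)
    (fun f g => map_add D f g) (fun f g => by simp [D.leibniz]; ring) ?_ hD hf
  intro i
  exact Fs_mono hle (X_pow_mem i dvd_rfl)

/-- equality of two twisted derivations -/
lemma twisted_ext {O O' : R → R} (A : R →ₐ[ZMod 2] R) (h0 : O 0 = O' 0) (h1 : O 1 = O' 1)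
    (hadd : ∀ f g, O (f + g) = O f + O g) (hadd' : ∀ f g, O' (f + g) = O' f + O' g)
    (hmul : ∀ f g, O (f * g) = O f * A g + A f * O g)
    (hmul' : ∀ f g, O' (f * g) = O' f * A g + A f * O' g)
    (hX : ∀ i, O (X i) = O' (X i)) (f : R) : O f = O' f := by
  have key : ∀ f ∈ Fs (fun _ => 1), O f = O' f := by
    apply Fs_induction
    · intro i; rw [pow_one]; exact hX i
    · exact h0
    · exact h1
    · intro f g hf hg; rw [hadd, hadd', hf, hg]
    · intro f g _ _ hf hg; rw [hmul, hmul', hf, hg]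
  exact key f (fun m _ i => one_dvd _)

/-- `A ∘ D ∘ B = A' ∘ D' ∘ B'` for derivations `D`, `D'` and algebra maps, once it holds on
variables and `A ∘ B = A' ∘ B'`. -/
lemma der_comm (D D' : Derivation (ZMod 2) R R) (A B A' B' : R →ₐ[ZMod 2] R)
    (hAB : ∀ f, A (B f) = A' (B' f)) (hX : ∀ i, A (D (B (X i))) = A' (D' (B' (X i)))) (f : R) :
    A (D (B f)) = A' (D' (B' f)) := by
  apply twisted_ext (O := fun f => A (D (B f))) (O' := fun f => A' (D' (B' f))) (A.comp B)
  · simp
  · simp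
  · intro f g; simp
  · intro f g; simp
  · intro f g
    simp only [map_mul, D.leibniz, map_add, smul_eq_mul, AlgHom.comp_apply]; ring
  · intro f g
    simp only [map_mul, D'.leibniz, map_add, smul_eq_mul, AlgHom.comp_apply, hAB]; ring
  · exact hX

lemma der_zero_of (D : Derivation (ZMod 2) R R) (B : R →ₐ[ZMod 2] R)
    (hX : ∀ i, D (B (X i)) = 0) (f : R) : D (B f) = 0 := by
  have := der_comm D 0 (AlgHom.id _ _) B (AlgHom.id _ _) B (fun f => rfl) (by
    intro i; simp [hX]) f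
  simpa using this

/-- the square of a derivation killing `D (X i)` is zero -/
lemma der_der_zero (D : Derivation (ZMod 2) R R) (hX : ∀ i, D (D (X i)) = 0) (f : R) :
    D (D f) = 0 := by
  have key : ∀ f ∈ Fs (fun _ => 1), D (D f) = 0 := by
    apply Fs_induction
    · intro i; rw [pow_one]; exact hX i
    · simp
    · simp
    · intro f g hf hg; rw [map_add, map_add, hf, hg, add_zero]
    · intro f g _ _ hf hg
      rw [D.leibniz, map_add, smul_eq_mul, smul_eq_mul, D.leibniz, D.leibniz, hf, hg]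
      simp only [smul_eq_mul, mul_zero, zero_add]
      rw [mul_comm (D g)]
      exact add_self' _
  exact key f (fun m _ i => one_dvd _)

/-! ### the derivations -/

/-- `∂_p : t_{p,n} ↦ v_n` -/
def dt (p : ℕ) : Derivation (ZMod 2) R R := mkDerivation (ZMod 2) (fun k => match k with
  | .t j n => if j = p then X (.v n) else 0
  | _ => 0)

lemma dt_t (p j n : ℕ) : dt p (X (.t j n)) = if j = p then X (.v n) else 0 := by
  simp [dt, mkDerivation_X]
@[simp] lemma dt_v (p n : ℕ) : dt p (X (.v n)) = 0 := by simp [dt, mkDerivation_X]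
@[simp] lemma dt_x (p l n : ℕ) : dt p (X (.x l n)) = 0 := by simp [dt, mkDerivation_X]

/-- `D_l : x_{l,n} ↦ v_n` -/
def dx (l : ℕ) : Derivation (ZMod 2) R R := mkDerivation (ZMod 2) (fun k => match k with
  | .x j n => if j = l then X (.v n) else 0
  | _ => 0)

@[simp] lemma dx_t (l j n : ℕ) : dx l (X (.t j n)) = 0 := by simp [dx, mkDerivation_X]
@[simp] lemma dx_v (l n : ℕ) : dx l (X (.v n)) = 0 := by simp [dx, mkDerivation_X]
lemma dx_x (l j n : ℕ) : dx l (X (.x j n)) = if j = l then X (.v n) else 0 := by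
  simp [dx, mkDerivation_X]

lemma dt_dt (p : ℕ) (f : R) : dt p (dt p f) = 0 := by
  apply der_der_zero
  rintro (⟨i, n⟩ | n | ⟨l, n⟩)
  · rw [dt_t]; split_ifs <;> simp
  · simp
  · simp

lemma dx_dx (l : ℕ) (f : R) : dx l (dx l f) = 0 := by
  apply der_der_zero
  rintro (⟨i, n⟩ | n | ⟨l', n⟩)
  · simp
  · simp
  · rw [dx_x]; split_ifs <;> simp

lemma dt_xi_ne {p j : ℕ} (h : j ≠ p) (m : ℕ) : dt p (xi j m) = 0 := by
  cases m
  · simp [xi]
  · rw [xi_succ, dt_t, if_neg h]

lemma dt_xi_eq_succ (p m : ℕ) : dt p (xi p (m+1)) = X (.v m) := by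
  rw [xi_succ, dt_t, if_pos rfl]

lemma dt_E_ne {p j : ℕ} (h : j ≠ p) (a b : ℕ) : dt p (E j a b) = 0 := by
  rw [E, Derivation.leibniz_pow, dt_xi_ne h]; simp

lemma dt_E_eq (p : ℕ) {a b : ℕ} (h : a ≠ 0) : dt p (E p a b) = 0 := by
  rw [E]; exact der_pow_two_pow _ _ h

lemma dt_pow_zero (p : ℕ) (f : R) {k : ℕ} (hk : k ≠ 0) : dt p (f ^ (2 ^ k)) = 0 :=
  der_pow_two_pow _ _ hk

lemma dt_cx_ne {p s : ℕ} (h : s ≠ p) (k : ℕ) (Y : ℕ → R) (hY : ∀ i, dt p (Y i) = 0) (n : ℕ) :
    dt p (cx s k Y n) = 0 := by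
  unfold cx
  rw [map_sum]
  apply Finset.sum_eq_zero
  intro i _
  rw [Derivation.leibniz, hY, Derivation.leibniz_pow, dt_E_ne h]
  simp

lemma dt_cx_eq (p : ℕ) {k : ℕ} (hk : k ≠ 0) (Y : ℕ → R) (hY : ∀ i, dt p (Y i) = 0) (n : ℕ) :
    dt p (cx p k Y n) = 0 := by
  unfold cx
  rw [map_sum]
  apply Finset.sum_eq_zero
  intro i _
  rw [Derivation.leibniz, hY, dt_pow_zero p _ hk]
  simp

lemma dt_cop_ne {p j : ℕ} (h : j ≠ p) (h' : j + 1 ≠ p) (m : ℕ) : dt p (cop j m) = 0 := by
  unfold cop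
  rw [map_sum]
  apply Finset.sum_eq_zero
  intro i _
  rw [Derivation.leibniz, dt_xi_ne h', dt_E_ne h]
  simp

/-- `∂_p` of the coproduct at `p` -/
lemma dt_cop_eq (p m : ℕ) : dt p (cop p (m+1)) = X (.v m) := by
  unfold cop
  rw [map_sum, Finset.sum_range_succ', Finset.sum_eq_zero]
  · rw [Derivation.leibniz, xi_zero, der_one, E_zero, dt_xi_eq_succ]
    simp
  · intro i _
    rw [Derivation.leibniz, dt_xi_ne (by omega), dt_E_eq p (by omega)]
    simp

/-- `∂_{p+1}` of the coproduct at `p` -/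
lemma dt_succ_cop (p m : ℕ) : dt (p+1) (cop p (m+1)) =
    ∑ i ∈ range (m+1), E p (i+1) (m+1) * X (.v i) := by
  unfold cop
  rw [map_sum, Finset.sum_range_succ']
  rw [Derivation.leibniz, xi_zero, der_one, E_zero, dt_xi_ne (by omega)]
  simp only [smul_zero, add_zero]
  refine Finset.sum_congr rfl fun i _ => ?_
  rw [Derivation.leibniz, dt_xi_eq_succ, dt_E_ne (by omega)]
  simp

lemma dt_succ_cop' (p m : ℕ) : dt (p+1) (cop p (m+1)) = cx p 1 (fun i => X (.v i)) m := by
  rw [dt_succ_cop, cx_eq]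

/-! commutation of `dt` -/

lemma dt_del_ge {p i : ℕ} (h : p ≤ i) (f : R) : dt p (del i f) = del i (dt p f) := by
  apply der_comm (dt p) (dt p) (AlgHom.id _ _) (del i) (del i) (AlgHom.id _ _) (fun f => rfl)
  simp only [AlgHom.id_apply]
  rintro (⟨k, n⟩ | n | ⟨l, n⟩)
  · rcases lt_trichotomy k i with hk | rfl | hk
    · rw [del_t, if_pos hk, dt_t]
      split_ifs <;> simp
    · rw [del_t, if_neg (by omega), if_pos rfl, dt_t]
      rcases Nat.lt_or_ge p k with hpk | hpk
      · rw [dt_cop_ne (by omega) (by omega), if_neg (by omega), map_zero]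
      · obtain rfl : k = p := by omega
        rw [dt_cop_eq, if_pos rfl, del_v]
    · rw [del_t, if_neg (by omega), if_neg (by omega), dt_t, if_neg (by omega), dt_t,
        if_neg (by omega), map_zero]
  · simp
  · simp

lemma dt_del_lt {p i : ℕ} (h : i < p) (f : R) : dt (p+1) (del i f) = del i (dt p f) := by
  apply der_comm (dt (p+1)) (dt p) (AlgHom.id _ _) (del i) (del i) (AlgHom.id _ _) (fun f => rfl)
  simp only [AlgHom.id_apply]
  rintro (⟨k, n⟩ | n | ⟨l, n⟩)
  · rcases lt_trichotomy k i with hk | rfl | hk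
    · rw [del_t, if_pos hk, dt_t, if_neg (by omega), dt_t, if_neg (by omega), map_zero]
    · rw [del_t, if_neg (by omega), if_pos rfl, dt_t, if_neg (by omega), map_zero,
        dt_cop_ne (by omega) (by omega)]
    · rw [del_t, if_neg (by omega), if_neg (by omega), dt_t, dt_t]
      by_cases hkp : k = p
      · rw [if_pos (by omega), if_pos hkp, del_v]
      · rw [if_neg (by omega), if_neg hkp, map_zero]
  · simp
  · simp

lemma dt_phi (p : ℕ) (f : R) : dt (p+1) (phi f) = phi (dt p f) := by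
  apply der_comm (dt (p+1)) (dt p) (AlgHom.id _ _) phi phi (AlgHom.id _ _) (fun f => rfl)
  simp only [AlgHom.id_apply]
  rintro (⟨k, n⟩ | n | ⟨l, n⟩)
  · rw [phi_t, dt_t, dt_t]
    by_cases hkp : k = p
    · rw [if_pos (by omega), if_pos hkp, phi_v]
    · rw [if_neg (by omega), if_neg hkp, map_zero]
  · simp
  · simp

lemma dt_om_gt (e : ℕ → ℕ) {p s : ℕ} (h : p < s) (f : R) :
    dt p (om e false s f) = om e false s (dt p f) := by
  apply der_comm (dt p) (dt p) (AlgHom.id _ _) (om e false s) (om e false s) (AlgHom.id _ _)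
    (fun f => rfl)
  simp only [AlgHom.id_apply]
  rintro (⟨k, n⟩ | n | ⟨l, n⟩)
  · rw [om_t]
    by_cases hks : k < s
    · rw [if_pos hks, dt_t]
      split_ifs <;> simp [om_v_false]
    · rw [if_neg hks, dt_t, if_neg (by omega), dt_t, if_neg (by omega), map_zero]
  · simp [om_v_false]
  · rw [om_x, dt_cx_ne (by omega) _ _ (fun i => dt_x p l i), dt_x, map_zero]

lemma dt_om_eq (e : ℕ → ℕ) (he : ∀ l, e l ≠ 0) (b : Bool) (p : ℕ) (f : R) :
    dt p (om e b p f) = 0 := by
  apply der_zero_of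
  rintro (⟨k, n⟩ | n | ⟨l, n⟩)
  · rw [om_t]
    by_cases hks : k < p
    · rw [if_pos hks, dt_t, if_neg (by omega)]
    · rw [if_neg hks, dt_t, if_neg (by omega)]
  · cases b
    · simp [om_v_false]
    · rw [om_v_true, dt_cx_eq p (by omega) _ (fun i => dt_v p i)]
  · rw [om_x, dt_cx_eq p (he l) _ (fun i => dt_x p l i)]

/-- the key compatibility used for `κ` -/
lemma sig_dt_tau_del (p : ℕ) (f : R) :
    sig (p+1) (dt (p+1) (tau p (del p f))) = tau p (dt p f) := by
  apply der_comm (dt (p+1)) (dt p) (sig (p+1)) ((tau p).comp (del p)) (tau p) (AlgHom.id _ _)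
  · have : ((sig (p+1)).comp ((tau p).comp (del p))) = tau p := by
      apply alg_ext
      · intro k n
        simp only [AlgHom.comp_apply]
        rcases lt_trichotomy k p with hk | rfl | hk
        · rw [del_t, if_pos hk, tau_t, sig_t, if_pos (by omega)]
        · rw [del_t, if_neg (by omega), if_pos rfl]
          have : tau k (cop k (n+1)) = cop k (n+1) := by simp [cop, tau_xi, tau_E]
          rw [this, sig_cop_succ, xi_succ, tau_t]
        · rw [del_t, if_neg (by omega), if_neg (by omega), tau_t, tau_t, sig_t, if_neg (by omega),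
            if_neg (by omega), Nat.add_sub_cancel]
      · intro n
        simp only [AlgHom.comp_apply, del_v]
        rw [tau_v, hom_cx (sig (p+1)) (s' := p) (fun a c => sig_E_lt (by omega) a c)
          (fun j => sig_v _ j)]
      · intro l n; simp
    intro f
    exact DFunLike.congr_fun this f
  · simp only [AlgHom.comp_apply, AlgHom.id_apply]
    rintro (⟨k, n⟩ | n | ⟨l, n⟩)
    · rcases lt_trichotomy k p with hk | rfl | hk
      · rw [del_t, if_pos hk, tau_t, dt_t, if_neg (by omega), map_zero, dt_t, if_neg (by omega),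
          map_zero]
      · rw [del_t, if_neg (by omega), if_pos rfl]
        have : tau k (cop k (n+1)) = cop k (n+1) := by simp [cop, tau_xi, tau_E]
        rw [this, dt_succ_cop', dt_t, if_pos rfl, tau_v,
          hom_cx (sig (k+1)) (s' := k) (fun a c => sig_E_lt (by omega) a c) (fun j => sig_v _ j)]
      · rw [del_t, if_neg (by omega), if_neg (by omega), tau_t, dt_t, if_neg (by omega), map_zero,
          dt_t, if_neg (by omega), map_zero]
    · rw [del_v, tau_v, dt_cx_ne (by omega) _ _ (fun i => dt_v _ i)]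
      simp
    · simp

/-! commutation of `dx` -/

lemma dx_phi (l : ℕ) (f : R) : dx l (phi f) = phi (dx l f) := by
  apply der_comm (dx l) (dx l) (AlgHom.id _ _) phi phi (AlgHom.id _ _) (fun f => rfl)
  simp only [AlgHom.id_apply]
  rintro (⟨k, n⟩ | n | ⟨l', n⟩)
  · simp
  · simp
  · rw [phi_x, dx_x]; split_ifs <;> simp

lemma dx_xi (l j m : ℕ) : dx l (xi j m) = 0 := by
  cases m <;> simp [xi]

lemma dx_E (l j a b : ℕ) : dx l (E j a b) = 0 := by
  rw [E, Derivation.leibniz_pow, dx_xi]; simp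

lemma dx_cop (l j m : ℕ) : dx l (cop j m) = 0 := by
  unfold cop
  rw [map_sum]
  apply Finset.sum_eq_zero
  intro i _
  rw [Derivation.leibniz, dx_xi, dx_E]; simp

lemma dx_del (l i : ℕ) (f : R) : dx l (del i f) = del i (dx l f) := by
  apply der_comm (dx l) (dx l) (AlgHom.id _ _) (del i) (del i) (AlgHom.id _ _) (fun f => rfl)
  simp only [AlgHom.id_apply]
  rintro (⟨k, n⟩ | n | ⟨l', n⟩)
  · rw [del_t]; split_ifs <;> simp [dx_cop]
  · simp
  · rw [del_x, dx_x]; split_ifs <;> simp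

lemma dx_cx (l s k : ℕ) (Y : ℕ → R) (n : ℕ) :
    dx l (cx s k Y n) = cx s k (fun i => dx l (Y i)) n := by
  unfold cx
  rw [map_sum]
  refine Finset.sum_congr rfl fun i _ => ?_
  rw [Derivation.leibniz, Derivation.leibniz_pow, dx_E]; simp

lemma dx_om (e : ℕ → ℕ) (l : ℕ) (hl : e l = 1) (s : ℕ) (f : R) :
    dx l (om e true s f) = om e true s (dx l f) := by
  apply der_comm (dx l) (dx l) (AlgHom.id _ _) (om e true s) (om e true s) (AlgHom.id _ _)
    (fun f => rfl)
  simp only [AlgHom.id_apply]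
  rintro (⟨k, n⟩ | n | ⟨l', n⟩)
  · rw [om_t]; split_ifs <;> simp
  · rw [om_v_true, dx_cx]; simp [cx]
  · rw [om_x, dx_cx, dx_x]
    by_cases h : l' = l
    · rw [if_pos h, om_v_true, h, hl]
      simp only [dx_x, if_true]
    · rw [if_neg h, map_zero]
      simp [dx_x, h, cx]

end Pool.Agent.Lib.SqZ
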