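import Pool.Agent.Lib.MP_9c8c11_gt.Exact

set_option autoImplicit false

open MvPolynomial Finset

noncomputable section

namespace Pool.Agent.Lib.SqZ

/-- degrees: (internal weight, `v`-degree, label degrees) -/
abbrev Gd := ℤ × ℕ × (ℕ →₀ ℕ)

def wt (e : ℕ → ℕ) : Idx → Gd
  | .t _ n => (2^(n+1)-1, 0, 0)
  | .v n => (2^(n+1)-1, 1, 0)
  | .x l n => (2^(n+e l), 0, Finsupp.single l 1)

/-- homogeneous polynomials -/
abbrev Hg (e : ℕ → ℕ) (f : R) (M : Gd) : Prop := IsWeightedHomogeneous (wt e) f M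

lemma Hg_X (e : ℕ → ℕ) (i : Idx) : Hg e (X i) (wt e i) := isWeightedHomogeneous_X _ _ _

lemma Hg_X' (e : ℕ → ℕ) (i : Idx) {M : Gd} (h : wt e i = M) : Hg e (X i) M := by
  rw [← h]; exact Hg_X e i

lemma Hg_cast {e : ℕ → ℕ} {f : R} {M M' : Gd} (h : Hg e f M) (hM : M = M') : Hg e f M' := by
  rw [← hM]; exact h

lemma Hg.support {e : ℕ → ℕ} {f : R} {M : Gd} (h : Hg e f M) {m : Idx →₀ ℕ}
    (hm : m ∈ f.support) : Finsupp.weight (wt e) m = M := h (mem_support_iff.mp hm)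

lemma Hg_of_support {e : ℕ → ℕ} {f : R} {M : Gd}
    (h : ∀ m ∈ f.support, Finsupp.weight (wt e) m = M) : Hg e f M :=
  fun _ hm => h _ (mem_support_iff.mpr hm)

/-- generic homogeneity of algebra maps, with a change of grading `A` -/
lemma Hg_map_gen (O : R →ₐ[ZMod 2] R) {e e' : ℕ → ℕ} (A : Gd →+ Gd)
    (hO : ∀ i, Hg e' (O (X i)) (A (wt e i))) {f : R} {M : Gd} (hf : Hg e f M) :
    Hg e' (O f) (A M) := by
  rw [eq_sum_monomial f, map_sum]
  apply IsWeightedHomogeneous.sum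
  intro m hm
  have hw := hf.support hm
  rw [monomial_eq, C_1, one_mul]
  unfold Finsupp.prod
  rw [map_prod]
  have : A M = ∑ i ∈ m.support, m i • A (wt e i) := by
    rw [← hw, Finsupp.weight_apply, Finsupp.sum, map_sum]
    refine Finset.sum_congr rfl fun i _ => ?_
    rw [map_nsmul]
  rw [this]
  apply IsWeightedHomogeneous.prod
  intro i _
  rw [map_pow]
  exact (hO i).pow _

lemma Hg_map (O : R →ₐ[ZMod 2] R) {e e' : ℕ → ℕ}
    (hO : ∀ i, Hg e' (O (X i)) (wt e i)) {f : R} {M : Gd} (hf : Hg e f M) :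
    Hg e' (O f) M :=
  Hg_map_gen O (AddMonoidHom.id _) hO hf

/-- `O` shifts degrees by `B - A` -/
def Shift (e e' : ℕ → ℕ) (O : R → R) (A B : Gd) : Prop :=
  ∀ m : Idx →₀ ℕ, ∀ m' ∈ (O (monomial m 1)).support,
    Finsupp.weight (wt e') m' + A = Finsupp.weight (wt e) m + B

lemma Shift.hg {e e' : ℕ → ℕ} {O : R →ₗ[ZMod 2] R} {A B : Gd} (h : Shift e e' O A B) {f : R}
    {M M' : Gd} (hf : Hg e f M) (hM : M' + A = M + B) : Hg e' (O f) M' := by
  rw [eq_sum_monomial f, map_sum]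
  apply IsWeightedHomogeneous.sum
  intro m hm
  apply Hg_of_support
  intro m' hm'
  have h1 := h m m' hm'
  rw [hf.support hm, ← hM] at h1
  exact add_right_cancel h1

lemma Shift.of_hg {e e' : ℕ → ℕ} {O : R → R} {A B : Gd}
    (h : ∀ m : Idx →₀ ℕ, O (monomial m 1) = 0 ∨ ∃ M', Hg e' (O (monomial m 1)) M' ∧
      M' + A = Finsupp.weight (wt e) m + B) : Shift e e' O A B := by
  intro m m' hm'
  rcases h m with h | ⟨M', h, hM⟩
  · rw [h] at hm'; simp at hm'
  · rw [h.support hm', hM]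

lemma Shift.comp_proj {e e' : ℕ → ℕ} {O : R →ₗ[ZMod 2] R} {A B : Gd} (h : Shift e e' O A B)
    {M M' : Gd} (hM : M' + A = M + B) (f : R) :
    O (weightedHomogeneousComponent (wt e) M f) = weightedHomogeneousComponent (wt e') M' (O f) := by
  classical
  apply lin_induction (Q := fun f => O (weightedHomogeneousComponent (wt e) M f) =
    weightedHomogeneousComponent (wt e') M' (O f)) f
  · simp
  · intro f g hf hg; simp only [map_add, hf, hg]
  · intro m _
    by_cases hm : Finsupp.weight (wt e) m = M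
    · have h1 : Hg e (monomial m (1 : ZMod 2)) M := isWeightedHomogeneous_monomial _ _ _ hm
      rw [h1.weightedHomogeneousComponent_same]
      have h2 : Hg e' (O (monomial m 1)) M' := h.hg h1 hM
      rw [h2.weightedHomogeneousComponent_same]
    · have h1 : Hg e (monomial m (1 : ZMod 2)) (Finsupp.weight (wt e) m) :=
        isWeightedHomogeneous_monomial _ _ _ rfl
      rw [h1.weightedHomogeneousComponent_ne _ (Ne.symm hm), map_zero]
      symm
      rw [weightedHomogeneousComponent_eq_zero']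
      intro m' hm' hM'
      apply hm
      have h2 := h m m' hm'
      rw [hM', hM] at h2
      exact (add_right_cancel h2).symm

lemma comp_mem_Fs {e : ℕ → ℕ} {T : Idx → ℕ} {f : R} (hf : f ∈ Fs T) (M : Gd) :
    weightedHomogeneousComponent (wt e) M f ∈ Fs T := by
  classical
  intro m hm
  rw [support_weightedHomogeneousComponent, Finset.mem_filter] at hm
  exact hf m hm.1

lemma Hg_comp (e : ℕ → ℕ) (M : Gd) (f : R) : Hg e (weightedHomogeneousComponent (wt e) M f) M :=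
  weightedHomogeneousComponent_isWeightedHomogeneous (R := ZMod 2) (w := wt e) M f

/-- homogeneous lift of a preimage -/
lemma Shift.lift {e e' : ℕ → ℕ} {O : R →ₗ[ZMod 2] R} {A B : Gd} (h : Shift e e' O A B)
    {M M' : Gd} (hM : M' + A = M + B) {T : Idx → ℕ} {f g : R} (hf : Hg e' f M') (hg : g ∈ Fs T)
    (hO : O g = f) : ∃ g' ∈ Fs T, Hg e g' M ∧ O g' = f :=
  ⟨weightedHomogeneousComponent (wt e) M g, comp_mem_Fs hg M, Hg_comp e M g, by
    rw [h.comp_proj hM, hO, hf.weightedHomogeneousComponent_same]⟩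

lemma Shift_algHom {e e' : ℕ → ℕ} (O : R →ₐ[ZMod 2] R) (hO : ∀ i, Hg e' (O (X i)) (wt e i)) :
    Shift e e' O 0 0 := by
  apply Shift.of_hg
  intro m
  exact Or.inr ⟨_, Hg_map O hO (isWeightedHomogeneous_monomial _ _ _ rfl), rfl⟩

lemma Shift_der {e : ℕ → ℕ} (D : Derivation (ZMod 2) R R) {A B : Gd}
    (hD : ∀ i, D (X i) = 0 ∨ ∃ M', Hg e (D (X i)) M' ∧ M' + A = wt e i + B) :
    Shift e e D A B := by
  classical
  intro m m' hm'
  have hD' : D = mkDerivation (ZMod 2) (fun i => D (X i)) := by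
    apply derivation_ext
    intro i
    rw [mkDerivation_X]
  have h0 : D (MvPolynomial.monomial m 1) = ∑ i ∈ m.support,
      MvPolynomial.monomial (m - Finsupp.single i 1) (m i : ZMod 2) * D (X i) := by
    conv_lhs => rw [hD']
    rw [mkDerivation_monomial, one_smul]
    rfl
  rw [h0] at hm'
  have h1 := support_sum hm'
  rw [Finset.mem_biUnion] at h1
  obtain ⟨i, hi, him⟩ := h1
  rcases hD i with h | ⟨M', h, hM⟩
  · rw [h, mul_zero] at him; simp at him
  · have h2 : Hg e (MvPolynomial.monomial (m - Finsupp.single i 1) (m i : ZMod 2) * D (X i))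
        (Finsupp.weight (wt e) (m - Finsupp.single i 1) + M') :=
      (isWeightedHomogeneous_monomial _ _ _ rfl).mul h
    rw [h2.support him, add_assoc, hM, ← add_assoc]
    congr 1
    have h3 : m = (m - Finsupp.single i 1) + Finsupp.single i 1 := by
      rw [tsub_add_cancel_of_le]
      rw [Finsupp.single_le_iff]
      exact Nat.one_le_iff_ne_zero.mpr (Finsupp.mem_support_iff.mp hi)
    conv_rhs => rw [h3]
    rw [map_add, Finsupp.weight_single, one_smul]

/-! ### homogeneity of the basic expressions -/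

lemma Hg_one (e : ℕ → ℕ) : Hg e 1 0 := isWeightedHomogeneous_one _ _

lemma Hg_xi (e : ℕ → ℕ) (i m : ℕ) : Hg e (xi i m) (2^m-1, 0, 0) := by
  cases m with
  | zero => rw [xi_zero]; exact Hg_cast (Hg_one e) (by simp; rfl)
  | succ m => rw [xi_succ]; exact Hg_X _ _

lemma Hg_E (e : ℕ → ℕ) (i : ℕ) {a b : ℕ} (h : a ≤ b) : Hg e (E i a b) (2^b-2^a, 0, 0) := by
  have := (Hg_xi e i (b-a)).pow (2^a)
  refine Hg_cast this ?_
  ext
  · simp only [Prod.smul_fst, nsmul_eq_mul, Nat.cast_pow, Nat.cast_ofNat]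
    rw [mul_sub, ← pow_add, Nat.add_sub_cancel' h, mul_one]
  · simp
  · simp

lemma Hg_cop (e : ℕ → ℕ) (i m : ℕ) : Hg e (cop i m) (2^m-1, 0, 0) := by
  apply IsWeightedHomogeneous.sum
  intro l hl
  rw [mem_range] at hl
  refine Hg_cast ((Hg_E e i (show l ≤ m by omega)).mul (Hg_xi e (i+1) l)) ?_
  ext <;> simp

lemma Hg_cx (e : ℕ → ℕ) (s k : ℕ) (Y : ℕ → R) (n : ℕ) (M : ℕ → Gd)
    (hY : ∀ i, Hg e (Y i) (M i))
    (hM : ∀ i ≤ n, ((2 ^ k * (2^n-2^i) : ℤ), (0 : ℕ), (0 : ℕ →₀ ℕ)) + M i = M n) :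
    Hg e (cx s k Y n) (M n) := by
  apply IsWeightedHomogeneous.sum
  intro i hi
  rw [mem_range] at hi
  have hi' : i ≤ n := by omega
  refine Hg_cast (((Hg_E e s hi').pow (2^k)).mul (hY i)) ?_
  rw [← hM i hi']
  congr 1

lemma Hg_cx_v (e : ℕ → ℕ) (s n : ℕ) :
    Hg e (cx s 1 (fun i => X (.v i)) n) (wt e (.v n)) := by
  apply Hg_cx e s 1 _ n (fun i => wt e (.v i)) (fun i => Hg_X e _)
  intro i hi
  ext
  · simp only [wt, Prod.fst_add]; ring
  · simp [wt]
  · simp [wt]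

lemma Hg_cx_x (e : ℕ → ℕ) (s l n : ℕ) :
    Hg e (cx s (e l) (fun i => X (.x l i)) n) (wt e (.x l n)) := by
  apply Hg_cx e s (e l) _ n (fun i => wt e (.x l i)) (fun i => Hg_X e _)
  intro i hi
  ext
  · simp only [wt, Prod.fst_add]; ring
  · simp [wt]
  · simp [wt]

lemma wt_t (e : ℕ → ℕ) (i j n : ℕ) : wt e (.t i n) = wt e (.t j n) := rfl

lemma hg_phi (e : ℕ → ℕ) : ∀ i, Hg e (phi (X i)) (wt e i) := by
  rintro (⟨k, n⟩ | n | ⟨l, n⟩)
  · rw [phi_t]; exact Hg_X _ _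
  · rw [phi_v]; exact Hg_X _ _
  · rw [phi_x]; exact Hg_X _ _

lemma hg_del (e : ℕ → ℕ) (j : ℕ) : ∀ i, Hg e (del j (X i)) (wt e i) := by
  rintro (⟨k, n⟩ | n | ⟨l, n⟩)
  · rw [del_t]
    split_ifs
    · exact Hg_X _ _
    · exact Hg_cop e j (n+1)
    · exact Hg_X _ _
  · rw [del_v]; exact Hg_X _ _
  · rw [del_x]; exact Hg_X _ _

lemma hg_om (e : ℕ → ℕ) (b : Bool) (s : ℕ) : ∀ i, Hg e (om e b s (X i)) (wt e i) := by
  rintro (⟨k, n⟩ | n | ⟨l, n⟩)
  · rw [om_t]
    split_ifs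
    · exact Hg_X _ _
    · exact Hg_X _ _
  · cases b
    · rw [om_v_false]; exact Hg_X _ _
    · rw [om_v_true]; exact Hg_cx_v e s n
  · rw [om_x]; exact Hg_cx_x e s l n

lemma hg_sig (e : ℕ → ℕ) (p : ℕ) : ∀ i, Hg e (sig p (X i)) (wt e i) := by
  rintro (⟨k, n⟩ | n | ⟨l, n⟩)
  · rw [sig_t]
    split_ifs
    · exact Hg_X _ _
    · exact isWeightedHomogeneous_zero _ _ _
    · exact Hg_X _ _
  · rw [sig_v]; exact Hg_X _ _
  · rw [sig_x]; exact Hg_X _ _

lemma shift_dt (e : ℕ → ℕ) (p : ℕ) : Shift e e (dt p) 0 (0, 1, 0) := by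
  apply Shift_der
  rintro (⟨k, n⟩ | n | ⟨l, n⟩)
  · rw [dt_t]
    split_ifs
    · right
      refine ⟨_, Hg_X _ _, ?_⟩
      simp [wt]
    · left; rfl
  · left; simp
  · left; simp

lemma shift_dx (e : ℕ → ℕ) (l : ℕ) (hl : e l = 1) :
    Shift e e (dx l) (1, 0, Finsupp.single l 1) (0, 1, 0) := by
  apply Shift_der
  rintro (⟨k, n⟩ | n | ⟨l', n⟩)
  · left; simp
  · left; simp
  · rw [dx_x]
    split_ifs with h
    · right
      refine ⟨_, Hg_X _ _, ?_⟩
      simp [wt, h, hl]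
    · left; rfl

/-! ### the pieces `G p s` -/

def Tp (p s : ℕ) : Idx → ℕ
  | .t i _ => if i < p then 2 else if i < s then 1 else 0
  | .v _ => 1
  | .x _ _ => 1

abbrev F (p s : ℕ) : Subalgebra (ZMod 2) R := Fs (Tp p s)

lemma F_mono {p s p' s' : ℕ} (hp : p' ≤ p) (hs : s ≤ s') (hps : p ≤ s) {f : R} (hf : f ∈ F p s) :
    f ∈ F p' s' := by
  apply Fs_mono _ hf
  rintro (⟨k, n⟩ | n | ⟨l, n⟩)
  · simp only [Tp]
    split_ifs <;> omega
  · simp [Tp]
  · simp [Tp]

lemma t_mem {p s j n : ℕ} (h1 : p ≤ j) (h2 : j < s) : (X (.t j n) : R) ∈ F p s := by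
  apply X_mem; simp only [Tp]; rw [if_neg (by omega), if_pos h2]

lemma t_sq_mem {p s j n : ℕ} (h : j < s) : (X (.t j n) : R) ^ 2 ∈ F p s := by
  apply X_pow_mem; simp only [Tp]; split_ifs <;> simp

lemma t_sq_mem' {p s j n : ℕ} (h : j < p) : (X (.t j n) : R) ^ 2 ∈ F p s := by
  apply X_pow_mem; simp only [Tp]; rw [if_pos h]

lemma v_mem {p s n : ℕ} : (X (.v n) : R) ∈ F p s := X_mem _ rfl
lemma x_mem {p s l n : ℕ} : (X (.x l n) : R) ∈ F p s := X_mem _ rfl

lemma xi_mem {p s j : ℕ} (m : ℕ) (h1 : p ≤ j) (h2 : j < s) : xi j m ∈ F p s := by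
  cases m with
  | zero => exact Subalgebra.one_mem _
  | succ m => exact t_mem h1 h2

lemma xi_sq_mem {p s j : ℕ} (m : ℕ) (h : j < p) : xi j m ^ 2 ∈ F p s := by
  cases m with
  | zero => rw [xi_zero, one_pow]; exact Subalgebra.one_mem _
  | succ m => exact t_sq_mem' h

lemma E_mem {p s j : ℕ} (a b : ℕ) (h1 : p ≤ j) (h2 : j < s) : E j a b ∈ F p s :=
  Subalgebra.pow_mem _ (xi_mem _ h1 h2) _

lemma E_sq_mem {p s j : ℕ} (a b : ℕ) (h : j < p) : E j a b ^ 2 ∈ F p s := by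
  rw [E, ← pow_mul, mul_comm, pow_mul]
  exact Subalgebra.pow_mem _ (xi_sq_mem _ h) _

lemma E_pow_mem {p s j : ℕ} (a b : ℕ) {k : ℕ} (hk : k ≠ 0) (h : j < p) :
    E j a b ^ (2 ^ k) ∈ F p s := by
  obtain ⟨k, rfl⟩ := Nat.exists_eq_succ_of_ne_zero hk
  rw [Nat.succ_eq_add_one, pow_succ, mul_comm, pow_mul]
  exact Subalgebra.pow_mem _ (E_sq_mem _ _ h) _

lemma cop_mem {p s i : ℕ} (m : ℕ) (h1 : p ≤ i) (h2 : i + 1 < s) : cop i m ∈ F p s :=
  Subalgebra.sum_mem _ fun l _ => Subalgebra.mul_mem _ (E_mem _ _ h1 (by omega))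
    (xi_mem _ (by omega) h2)

lemma cop_sq_mem {p s i : ℕ} (m : ℕ) (h : i + 1 < p) : cop i m ^ 2 ∈ F p s := by
  unfold cop
  have := frob_sum (range (m+1)) (fun l => E i l m * xi (i+1) l) 1
  rw [pow_one] at this
  rw [this]
  refine Subalgebra.sum_mem _ fun l _ => ?_
  rw [mul_pow]
  exact Subalgebra.mul_mem _ (E_sq_mem _ _ (by omega)) (xi_sq_mem _ h)

lemma cx_mem {p s j k n : ℕ} (Y : ℕ → R) (hY : ∀ i, Y i ∈ F p s) (h1 : p ≤ j) (h2 : j < s) :
    cx j k Y n ∈ F p s :=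
  Subalgebra.sum_mem _ fun i _ => Subalgebra.mul_mem _
    (Subalgebra.pow_mem _ (E_mem _ _ h1 h2) _) (hY i)

lemma cx_mem' {p s j k n : ℕ} (Y : ℕ → R) (hY : ∀ i, Y i ∈ F p s) (hk : k ≠ 0) (h : j < p) :
    cx j k Y n ∈ F p s :=
  Subalgebra.sum_mem _ fun i _ => Subalgebra.mul_mem _ (E_pow_mem _ _ hk h) (hY i)

lemma phi_F {p s : ℕ} {f : R} (hf : f ∈ F p s) : phi f ∈ F (p+1) (s+1) := by
  apply Fs_map phi _ hf
  rintro (⟨k, n⟩ | n | ⟨l, n⟩)
  · rw [phi_t]
    apply X_pow_mem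
    simp only [Tp]
    split_ifs <;> omega
  · rw [phi_v]; exact Subalgebra.pow_mem _ v_mem _
  · rw [phi_x]; exact Subalgebra.pow_mem _ x_mem _

lemma del_F_lt {p s i : ℕ} (h : i < p) {f : R} (hf : f ∈ F p s) : del i f ∈ F (p+1) (s+1) := by
  apply Fs_map (del i) _ hf
  rintro (⟨k, n⟩ | n | ⟨l, n⟩)
  · rw [del_t]
    split_ifs with h1 h2
    · simp only [Tp]
      rw [if_pos (by omega)]
      exact t_sq_mem' (by omega)
    · subst h2
      simp only [Tp]
      rw [if_pos h]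
      exact cop_sq_mem _ (by omega)
    · apply X_pow_mem
      simp only [Tp]
      split_ifs <;> omega
  · rw [del_v]; exact Subalgebra.pow_mem _ v_mem _
  · rw [del_x]; exact Subalgebra.pow_mem _ x_mem _

lemma del_F_ge {p s i : ℕ} (h : p ≤ i) (h' : i < s) {f : R} (hf : f ∈ F p s) :
    del i f ∈ F p (s+1) := by
  apply Fs_map (del i) _ hf
  rintro (⟨k, n⟩ | n | ⟨l, n⟩)
  · rw [del_t]
    split_ifs with h1 h2
    · apply X_pow_mem
      simp only [Tp]
      split_ifs <;> omega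
    · subst h2
      exact Subalgebra.pow_mem _ (cop_mem _ h (by omega)) _
    · apply X_pow_mem
      simp only [Tp]
      split_ifs <;> omega
  · rw [del_v]; exact Subalgebra.pow_mem _ v_mem _
  · rw [del_x]; exact Subalgebra.pow_mem _ x_mem _

lemma om_F (e : ℕ → ℕ) (b : Bool) {p s : ℕ} (h : p ≤ s) {f : R} (hf : f ∈ F p s) :
    om e b s f ∈ F p (s+1) := by
  apply Fs_map (om e b s) _ hf
  rintro (⟨k, n⟩ | n | ⟨l, n⟩)
  · rw [om_t]
    split_ifs with h1
    · apply X_pow_mem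
      simp only [Tp]
      split_ifs <;> omega
    · apply X_pow_mem
      simp only [Tp]
      split_ifs <;> omega
  · cases b
    · rw [om_v_false]; exact Subalgebra.pow_mem _ v_mem _
    · rw [om_v_true]
      exact Subalgebra.pow_mem _ (cx_mem _ (fun i => v_mem) h (by omega)) _
  · rw [om_x]
    exact Subalgebra.pow_mem _ (cx_mem _ (fun i => x_mem) h (by omega)) _

lemma om_F_eq (e : ℕ → ℕ) (he : ∀ l, e l ≠ 0) (b : Bool) {p : ℕ} {f : R} (hf : f ∈ F p p) :
    om e b p f ∈ F (p+1) (p+1) := by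
  apply Fs_map (om e b p) _ hf
  rintro (⟨k, n⟩ | n | ⟨l, n⟩)
  · rw [om_t]
    split_ifs with h1
    · apply X_pow_mem
      simp only [Tp]
      split_ifs <;> omega
    · apply X_pow_mem
      simp only [Tp]
      split_ifs <;> omega
  · cases b
    · rw [om_v_false]; exact Subalgebra.pow_mem _ v_mem _
    · rw [om_v_true]
      exact Subalgebra.pow_mem _ (cx_mem' _ (fun i => v_mem) (by omega) (by omega)) _
  · rw [om_x]
    exact Subalgebra.pow_mem _ (cx_mem' _ (fun i => x_mem) (he l) (by omega)) _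

lemma sig_F {p s : ℕ} (h : p ≤ s) {f : R} (hf : f ∈ F p (s+1)) : sig p f ∈ F p s := by
  apply Fs_map (sig p) _ hf
  rintro (⟨k, n⟩ | n | ⟨l, n⟩)
  · rw [sig_t]
    split_ifs with h1 h2
    · apply X_pow_mem
      simp only [Tp]
      split_ifs <;> omega
    · subst h2
      simp only [Tp]
      rw [if_neg (by omega), if_pos (by omega), pow_one]
      exact Subalgebra.zero_mem _
    · apply X_pow_mem
      simp only [Tp]
      split_ifs <;> omega
  · rw [sig_v]; exact Subalgebra.pow_mem _ v_mem _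
  · rw [sig_x]; exact Subalgebra.pow_mem _ x_mem _

lemma dt_F {p s j : ℕ} {f : R} (hf : f ∈ F p s) : dt j f ∈ F p s := by
  apply Fs_der (dt j) (fun i => dvd_rfl) _ hf
  rintro (⟨k, n⟩ | n | ⟨l, n⟩)
  · simp only [Tp]
    split_ifs
    · rw [der_sq]; exact Subalgebra.zero_mem _
    · rw [pow_one, dt_t]
      split_ifs
      · exact v_mem
      · exact Subalgebra.zero_mem _
    · rw [pow_zero, der_one]; exact Subalgebra.zero_mem _
  · simp only [Tp, pow_one, dt_v]; exact Subalgebra.zero_mem _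
  · simp only [Tp, pow_one, dt_x]; exact Subalgebra.zero_mem _

lemma dx_F {p s l : ℕ} {f : R} (hf : f ∈ F p s) : dx l f ∈ F p s := by
  apply Fs_der (dx l) (fun i => dvd_rfl) _ hf
  rintro (⟨k, n⟩ | n | ⟨l', n⟩)
  · simp only [Derivation.leibniz_pow, dx_t, smul_zero]
    exact Subalgebra.zero_mem _
  · simp only [Tp, pow_one, dx_v]; exact Subalgebra.zero_mem _
  · simp only [Tp, pow_one, dx_x]
    split_ifs
    · exact v_mem
    · exact Subalgebra.zero_mem _

/-! ### degree information from homogeneity -/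

lemma weight_snd (e : ℕ → ℕ) (m : Idx →₀ ℕ) (n : ℕ) :
    m (.v n) ≤ (Finsupp.weight (wt e) m).2.1 := by
  classical
  rw [Finsupp.weight_apply, Finsupp.sum]
  by_cases h : Idx.v n ∈ m.support
  · rw [Prod.snd_sum, Prod.fst_sum]
    have := Finset.single_le_sum (f := fun i => (m i • wt e i).2.1)
      (fun i _ => Nat.zero_le _) h
    refine le_trans ?_ this
    simp [wt]
  · rw [Finsupp.notMem_support_iff.mp h]; exact Nat.zero_le _

lemma weight_snd_pos (e : ℕ → ℕ) (m : Idx →₀ ℕ) (h : (Finsupp.weight (wt e) m).2.1 ≠ 0) :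
    ∃ n, m (.v n) ≠ 0 := by
  classical
  by_contra hcon
  push Not at hcon
  apply h
  rw [Finsupp.weight_apply, Finsupp.sum, Prod.snd_sum, Prod.fst_sum]
  apply Finset.sum_eq_zero
  rintro (⟨k, n⟩ | n | ⟨l, n⟩) _
  · simp [wt]
  · simp [hcon]
  · simp [wt]

lemma weight_label (e : ℕ → ℕ) (m : Idx →₀ ℕ) (l n : ℕ) :
    m (.x l n) ≤ (Finsupp.weight (wt e) m).2.2 l := by
  classical
  rw [Finsupp.weight_apply, Finsupp.sum]
  by_cases h : Idx.x l n ∈ m.support
  · rw [Prod.snd_sum, Prod.snd_sum, Finsupp.finsetSum_apply]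
    have := Finset.single_le_sum (f := fun i => (m i • wt e i).2.2 l)
      (fun i _ => Nat.zero_le _) h
    refine le_trans ?_ this
    simp [wt]
  · rw [Finsupp.notMem_support_iff.mp h]; exact Nat.zero_le _

end Pool.Agent.Lib.SqZ
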