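import Pool.Agent.Lib.MP_9c8c11_gt.Diff

set_option autoImplicit false

open MvPolynomial Finset

noncomputable section

namespace Pool.Agent.Lib.SqZ

/-- homogeneous pieces of `F p s` -/
def Gm (e : ℕ → ℕ) (p s : ℕ) (M : Gd) : Submodule (ZMod 2) R :=
  Subalgebra.toSubmodule (F p s) ⊓ weightedHomogeneousSubmodule (ZMod 2) (wt e) M

lemma mem_Gm {e : ℕ → ℕ} {p s : ℕ} {M : Gd} {f : R} : f ∈ Gm e p s M ↔ f ∈ F p s ∧ Hg e f M := by
  rfl

lemma Gm_mono {e : ℕ → ℕ} {p s p' s' : ℕ} {M : Gd} (hp : p' ≤ p) (hs : s ≤ s') (hps : p ≤ s)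
    {f : R} (hf : f ∈ Gm e p s M) : f ∈ Gm e p' s' M :=
  ⟨F_mono hp hs hps hf.1, hf.2⟩

lemma phi_G {e : ℕ → ℕ} {p s : ℕ} {M : Gd} {f : R} (hf : f ∈ Gm e p s M) :
    phi f ∈ Gm e (p+1) (s+1) M := ⟨phi_F hf.1, Hg_map phi (hg_phi e) hf.2⟩

lemma del_G_lt {e : ℕ → ℕ} {p s i : ℕ} (h : i < p) {M : Gd} {f : R} (hf : f ∈ Gm e p s M) :
    del i f ∈ Gm e (p+1) (s+1) M := ⟨del_F_lt h hf.1, Hg_map (del i) (hg_del e i) hf.2⟩

lemma del_G_ge {e : ℕ → ℕ} {p s i : ℕ} (h : p ≤ i) (h' : i < s) {M : Gd} {f : R}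
    (hf : f ∈ Gm e p s M) : del i f ∈ Gm e p (s+1) M :=
  ⟨del_F_ge h h' hf.1, Hg_map (del i) (hg_del e i) hf.2⟩

lemma om_G {e : ℕ → ℕ} (b : Bool) {p s : ℕ} (h : p ≤ s) {M : Gd} {f : R}
    (hf : f ∈ Gm e p s M) : om e b s f ∈ Gm e p (s+1) M :=
  ⟨om_F e b h hf.1, Hg_map (om e b s) (hg_om e b s) hf.2⟩

lemma om_G_eq {e : ℕ → ℕ} (he : ∀ l, e l ≠ 0) (b : Bool) {p : ℕ} {M : Gd} {f : R}
    (hf : f ∈ Gm e p p M) : om e b p f ∈ Gm e (p+1) (p+1) M :=
  ⟨om_F_eq e he b hf.1, Hg_map (om e b p) (hg_om e b p) hf.2⟩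

lemma sig_G {e : ℕ → ℕ} {p s : ℕ} (h : p ≤ s) {M : Gd} {f : R} (hf : f ∈ Gm e p (s+1) M) :
    sig p f ∈ Gm e p s M := ⟨sig_F h hf.1, Hg_map (sig p) (hg_sig e p) hf.2⟩

lemma dt_G {e : ℕ → ℕ} {p s j : ℕ} {w : ℤ} {q : ℕ} {μ : ℕ →₀ ℕ} {f : R}
    (hf : f ∈ Gm e p s (w, q, μ)) : dt j f ∈ Gm e p s (w, q+1, μ) :=
  ⟨dt_F hf.1, (show Shift e e (dt j).toLinearMap 0 (0, 1, 0) from shift_dt e j).hg hf.2
    (by simp)⟩

lemma dx_G {e : ℕ → ℕ} {p s l : ℕ} (hl : e l = 1) {w : ℤ} {q : ℕ} {μ : ℕ →₀ ℕ} {f : R}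
    (hf : f ∈ Gm e p s (w + 1, q, μ + Finsupp.single l 1)) :
    dx l f ∈ Gm e p s (w, q+1, μ) :=
  ⟨dx_F hf.1, (show Shift e e (dx l).toLinearMap (1, 0, Finsupp.single l 1) (0, 1, 0) from
    shift_dx e l hl).hg hf.2 (by simp)⟩

lemma Hg_zero_v {e : ℕ → ℕ} {f : R} {w : ℤ} {μ : ℕ →₀ ℕ} (hf : Hg e f (w, 0, μ)) :
    ∀ m ∈ f.support, ∀ n, m (.v n) = 0 := by
  intro m hm n
  have h := weight_snd e m n
  rw [hf.support hm] at h
  exact Nat.le_zero.mp h

lemma Hg_succ_v {e : ℕ → ℕ} {f : R} {w : ℤ} {q : ℕ} {μ : ℕ →₀ ℕ} (hf : Hg e f (w, q+1, μ)) :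
    ∀ m ∈ f.support, ∃ n, m (.v n) ≠ 0 := by
  intro m hm
  apply weight_snd_pos e m
  rw [hf.support hm]
  exact Nat.succ_ne_zero q

/-- Koszul exactness -/
lemma lift_dt {e : ℕ → ℕ} {p s : ℕ} (h : p < s) {w : ℤ} {q : ℕ} {μ : ℕ →₀ ℕ} {f : R}
    (hf : f ∈ Gm e p s (w, q+1, μ)) (hD : dt p f = 0) :
    ∃ r ∈ Gm e p s (w, q, μ), dt p r = f := by
  obtain ⟨g, hg, hgf⟩ := (isDR_dt p).exact (T := Tp p s)
    (by intro n; simp only [Tp]; rw [if_neg (by omega), if_pos h])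
    (fun n => rfl) hf.1 hD (Hg_succ_v hf.2)
  obtain ⟨g', h1, h2, h3⟩ := (show Shift e e (dt p).toLinearMap 0 (0, 1, 0) from
    shift_dt e p).lift (M := (w, q, μ)) (M' := (w, q+1, μ)) (by simp) hf.2 hg hgf
  exact ⟨g', ⟨h1, h2⟩, h3⟩

lemma lift_dx {e : ℕ → ℕ} {p s l : ℕ} (hl : e l = 1) {w : ℤ} {q : ℕ} {μ : ℕ →₀ ℕ} {f : R}
    (hf : f ∈ Gm e p s (w, q+1, μ)) (hD : dx l f = 0) :
    ∃ r ∈ Gm e p s (w + 1, q, μ + Finsupp.single l 1), dx l r = f := by
  obtain ⟨g, hg, hgf⟩ := (isDR_dx l).exact (T := Tp p s)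
    (fun n => rfl) (fun n => rfl) hf.1 hD (Hg_succ_v hf.2)
  obtain ⟨g', h1, h2, h3⟩ := (show Shift e e (dx l).toLinearMap
    (1, 0, Finsupp.single l 1) (0, 1, 0) from
    shift_dx e l hl).lift (M := (w + 1, q, μ + Finsupp.single l 1)) (M' := (w, q+1, μ))
      (by simp) hf.2 hg hgf
  exact ⟨g', ⟨h1, h2⟩, h3⟩

/-- `v`-free elements killed by `∂_p` -/
lemma ker_dt {e : ℕ → ℕ} {p s : ℕ} (h : p < s) {w : ℤ} {μ : ℕ →₀ ℕ} {f : R}
    (hf : f ∈ Gm e p s (w, 0, μ)) (hD : dt p f = 0) : f ∈ Gm e (p+1) s (w, 0, μ) := by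
  refine ⟨?_, hf.2⟩
  have hev := (isDR_dt p).even hD (Hg_zero_v hf.2)
  intro m hm i
  rcases i with (⟨k, n⟩ | n | ⟨l, n⟩)
  · have h1 := hf.1 m hm (.t k n)
    by_cases hk : k = p
    · subst hk
      simp only [Tp]
      rw [if_pos (by omega)]
      exact (hev m hm n).two_dvd
    · simp only [Tp] at h1 ⊢
      by_cases hkp : k < p
      · rw [if_pos hkp] at h1
        rw [if_pos (by omega)]; exact h1
      · rw [if_neg hkp] at h1
        rw [if_neg (by omega)]; exact h1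
  · simp [Tp]
  · simp [Tp]

lemma dt_of_mem {p s j : ℕ} (h : j < p) {f : R} (hf : f ∈ F p s) : dt j f = 0 := by
  revert f
  apply Fs_induction
  · rintro (⟨k, n⟩ | n | ⟨l, n⟩)
    · simp only [Tp]
      split_ifs
      · exact der_sq _ _
      · rw [pow_one, dt_t, if_neg (by omega)]
      · rw [pow_zero, der_one]
    · simp [Tp]
    · simp [Tp]
  · simp
  · simp
  · intro f g hf hg; rw [map_add, hf, hg, add_zero]
  · intro f g _ _ hf hg; rw [Derivation.leibniz, hf, hg]; simp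

/-- an algebra endomorphism fixing all variables except the `v`'s fixes `v`-free elements -/
lemma fix_vfree (O O' : R →ₐ[ZMod 2] R) (ht : ∀ j n, O (X (.t j n)) = O' (X (.t j n)))
    (hx : ∀ l n, O (X (.x l n)) = O' (X (.x l n))) {f : R}
    (hf : ∀ m ∈ f.support, ∀ n, m (.v n) = 0) : O f = O' f := by
  have hf' : f ∈ Fs (fun i => match i with | .t _ _ => 1 | .v _ => 0 | .x _ _ => 1) := by
    intro m hm i
    rcases i with (⟨k, n⟩ | n | ⟨l, n⟩)
    · exact one_dvd _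
    · rw [hf m hm n]
    · exact one_dvd _
  revert hf'
  clear hf
  revert f
  apply Fs_induction
  · rintro (⟨k, n⟩ | n | ⟨l, n⟩)
    · simp only [pow_one]; exact ht k n
    · simp
    · simp only [pow_one]; exact hx l n
  · simp
  · simp
  · intro f g hf hg; rw [map_add, map_add, hf, hg]
  · intro f g _ _ hf hg; rw [map_mul, map_mul, hf, hg]

lemma tau_vfree {e : ℕ → ℕ} (p : ℕ) {f : R} {w : ℤ} {μ : ℕ →₀ ℕ} (hf : Hg e f (w, 0, μ)) :
    tau p f = f :=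
  fix_vfree (tau p) (AlgHom.id _ _) (by simp) (by simp) (Hg_zero_v hf)

lemma om_vfree {e : ℕ → ℕ} (s : ℕ) {f : R} {w : ℤ} {μ : ℕ →₀ ℕ} (hf : Hg e f (w, 0, μ)) :
    om e true s f = om e false s f :=
  fix_vfree _ _ (fun j n => by rw [om_t, om_t]) (fun l n => by rw [om_x, om_x]) (Hg_zero_v hf)

lemma dd_vfree {e : ℕ → ℕ} (s : ℕ) {f : R} {w : ℤ} {μ : ℕ →₀ ℕ} (hf : Hg e f (w, 0, μ)) :
    dd e true s f = dd e false s f := by
  rw [dd_apply, dd_apply, om_vfree s hf]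

lemma DD_G {e : ℕ → ℕ} {p s : ℕ} (h : p ≤ s) {M : Gd} {f : R} (hf : f ∈ Gm e p s M) :
    DD e p s f ∈ Gm e p (s+1) M := by
  rw [DD_apply]
  refine Submodule.add_mem _ (Submodule.sum_mem _ fun i hi => ?_) (om_G false h hf)
  rw [mem_Ico] at hi
  exact del_G_ge hi.1 hi.2 hf

/-- difference between the full differential and its part in positions `≥ p` -/
lemma dd_sub {e : ℕ → ℕ} {p s : ℕ} (h : p ≤ s) {M : Gd} {f : R} (hf : f ∈ Gm e p s M) :
    ∃ g ∈ Gm e (p+1) (s+1) M, dd e false s f = g + DD e p s f := by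
  refine ⟨phi f + ∑ i ∈ range p, del i f, ?_, ?_⟩
  · refine Submodule.add_mem _ (phi_G hf) (Submodule.sum_mem _ fun i hi => ?_)
    exact del_G_lt (mem_range.mp hi) hf
  · rw [dd_apply, DD_apply]
    have : ∑ i ∈ range s, del i f = ∑ i ∈ range p, del i f + ∑ i ∈ Ico p s, del i f := by
      rw [Finset.sum_range_add_sum_Ico _ h]
    rw [this]
    ring

lemma dd_G {e : ℕ → ℕ} {p s : ℕ} (h : p ≤ s) {M : Gd} {f : R} (hf : f ∈ Gm e p s M) :
    dd e false s f ∈ Gm e p (s+1) M := by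
  obtain ⟨g, hg, h2⟩ := dd_sub h hf
  rw [h2]
  exact Submodule.add_mem _ (Gm_mono (by omega) le_rfl (by omega) hg) (DD_G h hf)

lemma dd_G_eq {e : ℕ → ℕ} (he : ∀ l, e l ≠ 0) (b : Bool) {p : ℕ} {M : Gd} {f : R}
    (hf : f ∈ Gm e p p M) : dd e b p f ∈ Gm e (p+1) (p+1) M := by
  rw [dd_apply]
  refine Submodule.add_mem _ (Submodule.add_mem _ (phi_G hf) (Submodule.sum_mem _ fun i hi => ?_))
    (om_G_eq he b hf)
  exact del_G_lt (mem_range.mp hi) hf

lemma Hg_dd {e : ℕ → ℕ} {b : Bool} {s : ℕ} {M : Gd} {f : R} (hf : Hg e f M) :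
    Hg e (dd e b s f) M := by
  rw [dd_apply]
  refine ((Hg_map phi (hg_phi e) hf).add (IsWeightedHomogeneous.sum _ _ _ fun i _ => ?_)).add
    (Hg_map _ (hg_om e b s) hf)
  exact Hg_map _ (hg_del e i) hf

/-- (E') -/
lemma Eprime {e : ℕ → ℕ} (p : ℕ) (w : ℤ) (μ : ℕ →₀ ℕ) : ∀ (q q' : ℕ) (z : R),
    z ∈ Gm e p (p+q+2) (w, q', μ) → dt p z = 0 → DD e p (p+q+2) z = 0 →
    kap p (q+1) (sig p z) = 0 →
    ∃ y ∈ Gm e p (p+q+1) (w, q', μ), dt p y = 0 ∧ DD e p (p+q+1) y = z := by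
  intro q
  induction q with
  | zero =>
    intro q' z hz hz1 hz2 hz3
    have hu := sig_G (show p ≤ p+0+1 by omega) hz
    have h1 := sig_DD e (show p ≤ p + 0 + 1 by omega) z
    rw [show p + 0 + 1 + 1 = p + 0 + 2 by omega, hz2, map_zero] at h1
    have h2 : z = DD e p (p+0+1) (sig p z) := eq_of_add_eq_zero' h1.symm
    refine ⟨sig p z, hu, ?_, h2.symm⟩
    set u := sig p z with hudef
    have h4 : DD e p (p+0+1) (dt p u) = 0 := by
      rw [← dt_DD e (show p < p+0+1 by omega), ← h2, hz1]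
    have h5 := sig_DD e (show p ≤ p + 0 by omega) (dt p u)
    rw [h4, map_zero] at h5
    have h6 : sig p (dt p u) = 0 := hz3
    rw [h6, map_zero, add_zero] at h5
    exact h5.symm
  | succ q ih =>
    intro q' z hz hz1 hz2 hz3
    have hu := sig_G (show p ≤ p+(q+1)+1 by omega) hz
    have h1 := sig_DD e (show p ≤ p + (q+1) + 1 by omega) z
    rw [show p + (q+1) + 1 + 1 = p + (q+1) + 2 by omega, hz2, map_zero] at h1
    have h2 : z = DD e p (p+(q+1)+1) (sig p z) := eq_of_add_eq_zero' h1.symm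
    set u := sig p z with hudef
    have h4 : DD e p (p+(q+1)+1) (dt p u) = 0 := by
      rw [← dt_DD e (show p < p+(q+1)+1 by omega), ← h2, hz1]
    have hw : dt p u ∈ Gm e p (p+q+2) (w, q'+1, μ) := dt_G hu
    obtain ⟨y', hy', hy'1, hy'2⟩ := ih (q'+1) (dt p u) hw (dt_dt p u)
      (by rw [show p+q+2 = p+(q+1)+1 by omega]; exact h4) hz3
    obtain ⟨r, hr, hr1⟩ := lift_dt (show p < p+q+1 by omega) hy' hy'1
    refine ⟨u + DD e p (p+q+1) r, Submodule.add_mem _ hu (DD_G (by omega) hr), ?_, ?_⟩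
    · rw [map_add, dt_DD e (show p < p+q+1 by omega), hr1, hy'2]
      exact add_self' _
    · rw [map_add, ← h2, show p + (q+1) + 1 = p + q + 1 + 1 by omega,
        DD_DD e (show p ≤ p+q+1 by omega), add_zero]

/-- (S) -/
lemma Slift {e : ℕ → ℕ} (he : ∀ l, e l ≠ 0) (p : ℕ) (w : ℤ) (μ : ℕ →₀ ℕ) (q' : ℕ) (c : R) :
    ∀ (q : ℕ), c ∈ Gm e p p (w, q' + q, μ) →
    ∃ y ∈ Gm e p (p+q) (w, q', μ), kap p q y = c ∧ dt p (DD e p (p+q) y) = 0 := by
  intro q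
  induction q generalizing q' with
  | zero =>
    intro hc
    refine ⟨c, hc, rfl, dt_DD_self e he p c⟩
  | succ q ih =>
    intro hc
    obtain ⟨r, hr, hr1, hr2⟩ := ih (q'+1) (by rw [show q' + 1 + q = q' + (q+1) by omega]; exact hc)
    have hDr : DD e p (p+q) r ∈ Gm e p (p+q+1) (w, q'+1, μ) := DD_G (by omega) hr
    obtain ⟨y, hy, hy1⟩ := lift_dt (show p < p+q+1 by omega) hDr hr2
    refine ⟨y, hy, ?_, ?_⟩
    · rw [kap_succ, hy1]
      cases q with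
      | zero =>
        rw [add_zero, sig_DD_self]
        exact hr1
      | succ q =>
        rw [show p + (q+1) = p + q + 1 by omega, sig_DD e (show p ≤ p+q by omega), map_add,
          kap_DD e he, add_zero]
        exact hr1
    · rw [show p + (q+1) = p+q+1 by omega, dt_DD e (show p < p+q+1 by omega), hy1,
        DD_DD e (show p ≤ p+q by omega)]

lemma kap_G {e : ℕ → ℕ} {p : ℕ} {w : ℤ} {μ : ℕ →₀ ℕ} : ∀ (q q' : ℕ) {f : R},
    f ∈ Gm e p (p+q) (w, q', μ) → kap p q f ∈ Gm e p p (w, q' + q, μ) := by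
  intro q
  induction q with
  | zero => intro q' f hf; exact hf
  | succ q ih =>
    intro q' f hf
    rw [kap_succ, show q' + (q+1) = q' + 1 + q by omega]
    exact ih (q'+1) (sig_G (show p ≤ p+q by omega) (dt_G hf))

/-- (C) -/
lemma kap_dd {e : ℕ → ℕ} (he : ∀ l, e l ≠ 0) {p q : ℕ} {w : ℤ} {μ : ℕ →₀ ℕ} {f : R}
    (hf : f ∈ Gm e p (p+q) (w, 0, μ)) (hd : dd e false (p+q) f ∈ F (p+1) (p+q+1)) :
    kap (p+1) q (dd e false (p+q) f) = dd e true p (kap p q f) := by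
  set z := DD e p (p+q) f with hzdef
  have hdd : dd e false (p+q) f = phi f + ∑ i ∈ range p, del i f + z := by
    rw [dd_apply, hzdef, DD_apply]
    have : ∑ i ∈ range (p+q), del i f = ∑ i ∈ range p, del i f + ∑ i ∈ Ico p (p+q), del i f := by
      rw [Finset.sum_range_add_sum_Ico _ (by omega)]
    rw [this]
    ring
  have hz1 : dt p z = 0 := by
    obtain ⟨g, hg, h2⟩ := dd_sub (show p ≤ p+q by omega) hf
    have h3 : z = dd e false (p+q) f + g := by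
      rw [h2, add_comm g, add_assoc, add_self', add_zero]
    rw [h3, map_add, dt_of_mem (show p < p+1 by omega) hd,
      dt_of_mem (show p < p+1 by omega) hg.1, add_zero]
  have hz2 : DD e p (p+q+1) z = 0 := DD_DD e (by omega) f
  have hzv : Hg e z (w, 0, μ) := (DD_G (by omega) hf).2
  have h1 := kap_tau e he p q z hz1 hz2
  rw [tau_vfree p hzv] at h1
  have h4 : kap p q (sig p z) = kap p q f := by
    cases q with
    | zero => rw [hzdef, add_zero, sig_DD_self]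
    | succ q =>
      rw [hzdef, show p + (q+1) = p+q+1 by omega, sig_DD e (show p ≤ p+q by omega), map_add,
        kap_DD e he, add_zero]
  rw [h4] at h1
  rw [hdd, map_add, map_add, map_sum, h1, kap_phi, dd_apply]
  have h5 : ∑ x ∈ range p, kap (p+1) q (del x f) = ∑ i ∈ range p, del i (kap p q f) := by
    refine Finset.sum_congr rfl fun i hi => ?_
    rw [kap_del (mem_range.mp hi)]
  rw [h5]

/-- being a boundary of an element of `S` -/
def Bd (e : ℕ → ℕ) (b : Bool) (S : ℕ → Submodule (ZMod 2) R) : ℕ → R → Prop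
  | 0, g => g = 0
  | p+1, g => ∃ y ∈ S p, dd e b p y = g

lemma Bd_zero (e : ℕ → ℕ) (b : Bool) (S : ℕ → Submodule (ZMod 2) R) (p : ℕ) : Bd e b S p 0 := by
  cases p with
  | zero => rfl
  | succ p => exact ⟨0, Submodule.zero_mem _, map_zero _⟩

lemma Bd_add {e : ℕ → ℕ} {b : Bool} {S : ℕ → Submodule (ZMod 2) R} {p : ℕ} {f g : R}
    (hf : Bd e b S p f) (hg : Bd e b S p g) : Bd e b S p (f + g) := by
  cases p with
  | zero =>
    have h1 : f = 0 := hf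
    have h2 : g = 0 := hg
    rw [h1, h2, add_zero]; rfl
  | succ p =>
    obtain ⟨y, hy, h1⟩ := hf
    obtain ⟨z, hz, h2⟩ := hg
    exact ⟨y + z, Submodule.add_mem _ hy hz, by rw [map_add, h1, h2]⟩

lemma Bd_dd {e : ℕ → ℕ} {b : Bool} {S : ℕ → Submodule (ZMod 2) R} {p : ℕ} {f : R}
    (hf : Bd e b S p f) : dd e b p f = 0 := by
  cases p with
  | zero =>
    have h1 : f = 0 := hf
    rw [h1, map_zero]
  | succ p =>
    obtain ⟨y, hy, h1⟩ := hf
    rw [← h1, dd_dd]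

lemma Bd_mono {e : ℕ → ℕ} {b : Bool} {S S' : ℕ → Submodule (ZMod 2) R} (h : ∀ p, S p ≤ S' p)
    {p : ℕ} {f : R} (hf : Bd e b S p f) : Bd e b S' p f := by
  cases p with
  | zero => exact hf
  | succ p =>
    obtain ⟨y, hy, h1⟩ := hf
    exact ⟨y, h p hy, h1⟩

/-- the vanishing hypothesis for the `E_2`-term -/
def HVan (e : ℕ → ℕ) (p q : ℕ) (w : ℤ) (μ : ℕ →₀ ℕ) : Prop :=
  ∀ g ∈ Gm e p p (w, q, μ), dd e true p g = 0 →
    Bd e true (fun p => Gm e p p (w, q, μ)) p g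

/-- vanishing of the cohomology of the cobar complex with coefficients -/
def Van (e : ℕ → ℕ) (a : ℕ) (w : ℤ) (μ : ℕ →₀ ℕ) : Prop :=
  ∀ f ∈ Gm e 0 a (w, 0, μ), dd e false a f = 0 →
    Bd e false (fun a => Gm e 0 a (w, 0, μ)) a f

/-- (ML) -/
theorem ML {e : ℕ → ℕ} (he : ∀ l, e l ≠ 0) {p q : ℕ} {w : ℤ} {μ : ℕ →₀ ℕ} {f : R}
    (hf : f ∈ Gm e p (p+q+1) (w, 0, μ)) (hd : dd e false (p+q+1) f ∈ F (p+2) (p+q+2))
    (hV : HVan e p (q+1) w μ) :
    ∃ g ∈ Gm e 0 (p+q) (w, 0, μ), f + dd e false (p+q) g ∈ Gm e (p+1) (p+q+1) (w, 0, μ) := by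
  -- Step 1: reduce to `κ f = 0`
  have step1 : ∃ g ∈ Gm e 0 (p+q) (w, 0, μ), f + dd e false (p+q) g ∈ Gm e p (p+q+1) (w, 0, μ) ∧
      kap p (q+1) (f + dd e false (p+q) g) = 0 := by
    have hk : kap p (q+1) f ∈ Gm e p p (w, q+1, μ) := by
      have := kap_G (q+1) 0 hf
      rwa [zero_add] at this
    have hc := kap_dd he (p := p) (q := q+1) hf
      (F_mono (show p+1 ≤ p+2 by omega) le_rfl (by omega) hd)
    have hz : kap (p+1) (q+1) (dd e false (p+q+1) f) = 0 := by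
      rw [kap_succ, dt_of_mem (show p+1 < p+2 by omega) hd, map_zero, map_zero]
    rw [show p + (q+1) = p+q+1 from rfl, hz] at hc
    have hb := hV _ hk hc.symm
    cases p with
    | zero =>
      refine ⟨0, Submodule.zero_mem _, ?_, ?_⟩
      · rw [map_zero, add_zero]; exact hf
      · rw [map_zero, add_zero]; exact hb
    | succ p =>
      obtain ⟨c, hc', hcd⟩ := hb
      obtain ⟨y, hy, hy1, hy2⟩ := Slift he p w μ 0 c (q+1) (by rw [zero_add]; exact hc')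
      have hDy : DD e p (p+(q+1)) y ∈ Gm e (p+1) (p+(q+1)+1) (w, 0, μ) :=
        ker_dt (by omega) (DD_G (by omega) hy) hy2
      have hddy : dd e false (p+(q+1)) y ∈ Gm e (p+1) (p+(q+1)+1) (w, 0, μ) := by
        obtain ⟨g, hg, h2⟩ := dd_sub (show p ≤ p+(q+1) by omega) hy
        rw [h2]; exact Submodule.add_mem _ hg hDy
      have hkd := kap_dd he hy hddy.1
      rw [hy1, hcd] at hkd
      refine ⟨y, ?_, ?_, ?_⟩
      · rw [show p + 1 + q = p + (q+1) by omega]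
        exact Gm_mono (by omega) le_rfl (by omega) hy
      · rw [show p + 1 + q = p + (q+1) by omega]
        refine Submodule.add_mem _ ?_ hddy
        rw [show p + (q+1) + 1 = p + 1 + q + 1 by omega]; exact hf
      · rw [show p + 1 + q = p + (q+1) by omega, map_add, hkd]
        exact add_self' _
  obtain ⟨g1, hg1, hf1, hk1⟩ := step1
  set f1 := f + dd e false (p+q) g1 with hf1def
  have hdf1 : dd e false (p+q+1) f1 = dd e false (p+q+1) f := by
    rw [hf1def, map_add, dd_dd, add_zero]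
  -- Step 2
  set z := DD e p (p+q+1) f1 with hzdef
  have hz : z ∈ Gm e p (p+q+2) (w, 0, μ) := DD_G (by omega) hf1
  have hz1 : dt p z = 0 := by
    obtain ⟨g, hg, h2⟩ := dd_sub (show p ≤ p+q+1 by omega) hf1
    have h3 : z = dd e false (p+q+1) f1 + g := by
      rw [h2, add_comm g, add_assoc, add_self', add_zero]
    rw [h3, map_add, hdf1, dt_of_mem (show p < p+2 by omega) hd,
      dt_of_mem (show p < p+1 by omega) hg.1, add_zero]
  have hz2 : DD e p (p+q+2) z = 0 := DD_DD e (by omega) f1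
  have hz3 : kap p (q+1) (sig p z) = 0 := by
    rw [hzdef, sig_DD e (show p ≤ p+q by omega), map_add, kap_DD e he, hk1, add_zero]
  obtain ⟨y, hy, hy1, hy2⟩ := Eprime p w μ q 0 z hz hz1 hz2 hz3
  have h4 : DD e p (p+q+1) (f1 + y) = 0 := by
    rw [map_add, hy2, ← hzdef]; exact add_self' _
  have h5 := sig_DD e (show p ≤ p+q by omega) (f1 + y)
  rw [h4, map_zero] at h5
  have h6 : f1 + y = DD e p (p+q) (sig p (f1 + y)) := eq_of_add_eq_zero' h5.symm
  set g2 := sig p (f1 + y) with hg2def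
  have hg2 : g2 ∈ Gm e p (p+q) (w, 0, μ) :=
    sig_G (by omega) (Submodule.add_mem _ hf1 hy)
  have hy' : y ∈ Gm e (p+1) (p+q+1) (w, 0, μ) := ker_dt (by omega) hy hy1
  obtain ⟨g3, hg3, h7⟩ := dd_sub (show p ≤ p+q by omega) hg2
  refine ⟨g1 + g2, Submodule.add_mem _ hg1 (Gm_mono (by omega) le_rfl (by omega) hg2), ?_⟩
  have h8 : f + dd e false (p+q) (g1 + g2) = y + g3 := by
    rw [map_add, ← add_assoc, ← hf1def, h7, ← h6]
    have := add_self' f1
    calc f1 + (g3 + (f1 + y)) = (f1 + f1) + (y + g3) := by ring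
      _ = y + g3 := by rw [this, zero_add]
  rw [h8]
  exact Submodule.add_mem _ hy' hg3

/-- (ML*) -/
theorem MLs {e : ℕ → ℕ} (he : ∀ l, e l ≠ 0) {s : ℕ} {w : ℤ} {μ : ℕ →₀ ℕ} {f : R}
    (hf : f ∈ Gm e 0 s (w, 0, μ)) : ∀ (r : ℕ), r ≤ s →
    dd e false s f ∈ F (r+1) (s+1) → (∀ p < r, HVan e p (s-p) w μ) →
    ∃ h, Bd e false (fun a => Gm e 0 a (w, 0, μ)) s h ∧ f + h ∈ Gm e r s (w, 0, μ) := by
  intro r
  induction r with
  | zero =>
    intro _ _ _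
    exact ⟨0, Bd_zero _ _ _ _, by rw [add_zero]; exact hf⟩
  | succ r ih =>
    intro hr hd hV
    obtain ⟨h, hh, hfh⟩ := ih (by omega) (F_mono (by omega) le_rfl (by omega) hd)
      (fun p hp => hV p (by omega))
    obtain ⟨q, rfl⟩ := Nat.exists_eq_add_of_lt (show r < s by omega)
    have hd' : dd e false (r+q+1) (f+h) ∈ F (r+2) (r+q+2) := by
      rw [map_add, Bd_dd hh, add_zero]; exact hd
    have hV' := hV r (by omega)
    rw [show r + q + 1 - r = q + 1 by omega] at hV'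
    obtain ⟨g, hg, hg2⟩ := ML he hfh hd' hV'
    refine ⟨h + dd e false (r+q) g, Bd_add hh ⟨g, hg, rfl⟩, ?_⟩
    rw [← add_assoc]; exact hg2

end Pool.Agent.Lib.SqZ
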