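import Pool.Agent.Lib.MP_9c8c11_gt.Bad

set_option autoImplicit false

open MvPolynomial Finset

noncomputable section

namespace Pool.Agent.Lib.SqZ

/-! ### dependence on the kinds only through the labels which occur -/

lemma Hg_congr {e e' : ℕ → ℕ} {w : ℤ} {q : ℕ} {μ : ℕ →₀ ℕ} (h : ∀ l, μ l ≠ 0 → e l = e' l)
    {f : R} (hf : Hg e f (w, q, μ)) : Hg e' f (w, q, μ) := by
  apply Hg_of_support
  intro m hm
  have h1 := hf.support hm
  rw [← h1, Finsupp.weight_apply, Finsupp.weight_apply]
  unfold Finsupp.sum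
  refine Finset.sum_congr rfl fun i _ => ?_
  rcases i with (⟨k, n⟩ | n | ⟨l, n⟩)
  · rfl
  · rfl
  · by_cases hl : μ l = 0
    · have h2 := weight_label e m l n
      rw [h1, hl] at h2
      simp [Nat.le_zero.mp h2]
    · simp only [wt, h l hl]

lemma om_congr {e e' : ℕ → ℕ} {w : ℤ} {q : ℕ} {μ : ℕ →₀ ℕ} (h : ∀ l, μ l ≠ 0 → e l = e' l)
    (b : Bool) (s : ℕ) {f : R} (hf : Hg e f (w, q, μ)) : om e b s f = om e' b s f := by
  classical
  have h1 : f ∈ Fs (fun i => match i with
    | .t _ _ => 1 | .v _ => 1 | .x m _ => if μ m = 0 then 0 else 1) := by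
    intro m hm i
    rcases i with (⟨k, n⟩ | n | ⟨l', n⟩)
    · exact one_dvd _
    · exact one_dvd _
    · by_cases hl : μ l' = 0
      · have := weight_label e m l' n
        rw [hf.support hm, hl] at this
        simp [Nat.le_zero.mp this]
      · simp [hl]
  revert h1
  clear hf
  revert f
  apply Fs_induction
  · rintro (⟨k, n⟩ | n | ⟨m, n⟩)
    · simp [om_t]
    · cases b
      · simp [om_v_false]
      · simp [om_v_true]
    · by_cases hm : μ m = 0
      · simp [hm]
      · simp only [if_neg hm, pow_one]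
        rw [om_x, om_x, h m hm]
  · simp
  · simp
  · intro f g hf hg; rw [map_add, map_add, hf, hg]
  · intro f g _ _ hf hg; rw [map_mul, map_mul, hf, hg]

lemma dd_congr {e e' : ℕ → ℕ} {w : ℤ} {q : ℕ} {μ : ℕ →₀ ℕ} (h : ∀ l, μ l ≠ 0 → e l = e' l)
    (b : Bool) (s : ℕ) {f : R} (hf : Hg e f (w, q, μ)) : dd e b s f = dd e' b s f := by
  rw [dd_apply, dd_apply, om_congr h b s hf]

lemma Van_congr {e e' : ℕ → ℕ} {a : ℕ} {w : ℤ} {μ : ℕ →₀ ℕ} (h : ∀ l, μ l ≠ 0 → e l = e' l)
    (hV : Van e a w μ) : Van e' a w μ := by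
  intro f hf hd
  have h' : ∀ l, μ l ≠ 0 → e' l = e l := fun l hl => (h l hl).symm
  have hb := hV f ⟨hf.1, Hg_congr h' hf.2⟩ (by rw [← dd_congr h' false a hf.2]; exact hd)
  cases a with
  | zero => exact hb
  | succ a =>
    obtain ⟨y, hy, hyd⟩ := hb
    exact ⟨y, ⟨hy.1, Hg_congr h hy.2⟩, by rw [← dd_congr h false a hy.2]; exact hyd⟩

/-- vanishing of the `E_2`-terms implies vanishing of the abutment -/
theorem Van_of_HVan {e : ℕ → ℕ} (he : ∀ l, e l ≠ 0) {a : ℕ} {w : ℤ} {μ : ℕ →₀ ℕ}
    (H : ∀ p ≤ a, HVan e p (a - p) w μ) : Van e a w μ := by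
  intro f hf hd
  obtain ⟨h, hh, hfh⟩ := MLs he hf a le_rfl (by rw [hd]; exact Subalgebra.zero_mem _)
    (fun p hp => H p hp.le)
  have h1 := H a le_rfl
  rw [Nat.sub_self] at h1
  have h2 : dd e false a (f + h) = 0 := by rw [map_add, hd, Bd_dd hh, add_zero]
  have h3 := h1 (f + h) hfh (by rw [dd_vfree a hfh.2]; exact h2)
  have h4 : Bd e false (fun a => Gm e 0 a (w, 0, μ)) a (f + h) := by
    cases a with
    | zero => exact h3
    | succ a =>
      obtain ⟨y, hy, hyd⟩ := h3
      have hy' : y ∈ Gm e a a (w, 0, μ) := hy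
      exact ⟨y, Gm_mono (Nat.zero_le _) le_rfl le_rfl hy', by
        rw [← dd_vfree a hy'.2]; exact hyd⟩
  have h5 : f = (f + h) + h := by rw [add_assoc, add_self', add_zero]
  rw [h5]
  exact Bd_add h4 hh

/-! ### the uniform statements -/

/-- vanishing in all weights congruent to `c` modulo a large power of two -/
def Good (e : ℕ → ℕ) (a : ℕ) (μ : ℕ →₀ ℕ) (c : ℤ) : Prop :=
  ∀ᶠ N : ℕ in Filter.atTop, ∀ w : ℤ, (2:ℤ)^N ∣ w - c → Van e a w μ

def HGood (e : ℕ → ℕ) (p q : ℕ) (μ : ℕ →₀ ℕ) (c : ℤ) : Prop :=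
  ∀ᶠ N : ℕ in Filter.atTop, ∀ w : ℤ, (2:ℤ)^N ∣ w - c → HVan e p q w μ

/-- the lower bound `d` -/
def dval (e : ℕ → ℕ) (μ : ℕ →₀ ℕ) : ℕ := Finsupp.weight (fun l => 2 ^ (e l)) μ

lemma Good_congr {e e' : ℕ → ℕ} {a : ℕ} {μ : ℕ →₀ ℕ} {c : ℤ} (h : ∀ l, μ l ≠ 0 → e l = e' l)
    (hV : Good e a μ c) : Good e' a μ c := by
  filter_upwards [hV] with N hN w hw
  exact Van_congr h (hN w hw)

lemma HGood_of_Good {e : ℕ → ℕ} (he : ∀ l, e l ≠ 0) {p q : ℕ} {μ : ℕ →₀ ℕ} {c : ℤ}
    (h : ∀ c'', 2 * c'' = c + q → Good (econs 0 (fun l => e l - 1)) p (mcons q μ) c'') :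
    HGood e p q μ c := by
  rcases Int.even_or_odd (c + q) with ⟨c'', hc⟩ | ⟨c'', hc⟩
  · have h1 := h c'' (by omega)
    unfold Good at h1
    rw [Filter.eventually_atTop] at h1
    obtain ⟨N0, hN0⟩ := h1
    unfold HGood
    rw [Filter.eventually_atTop]
    refine ⟨N0 + 1, fun N hN w hw => ?_⟩
    apply HVan_of_Van he
    intro w'' hw''
    apply hN0 N0 le_rfl
    have h2 : (2:ℤ)^(N0+1) ∣ w - c := (pow_dvd_pow 2 hN).trans hw
    have h3 : w - c = 2 * (w'' - c'') := by omega
    rw [h3, pow_succ, mul_comm] at h2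
    exact (mul_dvd_mul_iff_left (by norm_num : (2:ℤ) ≠ 0)).mp h2
  · unfold HGood
    rw [Filter.eventually_atTop]
    refine ⟨1, fun N hN w hw => ?_⟩
    apply HVan_of_Van he
    intro w'' hw''
    exfalso
    have h2 : (2:ℤ) ∣ w - c := by
      have : (2:ℤ)^1 ∣ w - c := (pow_dvd_pow 2 hN).trans hw
      rwa [pow_one] at this
    omega

lemma weight_mcons (f : ℕ → ℕ) (q : ℕ) (μ : ℕ →₀ ℕ) :
    Finsupp.weight f (mcons q μ) = q * f 0 + Finsupp.weight (fun l => f (l+1)) μ := by
  unfold mcons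
  rw [map_add, Finsupp.weight_single, smul_eq_mul]
  congr 1
  rw [Finsupp.weight_apply, Finsupp.weight_apply, Finsupp.sum_mapDomain_index]
  · intro b; simp
  · intro b m1 m2; rw [add_smul]

lemma dval_child {e : ℕ → ℕ} (he : ∀ l, e l ≠ 0) (q : ℕ) (μ : ℕ →₀ ℕ) :
    2 * dval (econs 0 (fun l => e l - 1)) (mcons q μ) = 2 * q + dval e μ := by
  unfold dval
  rw [weight_mcons]
  simp only [econs_zero, econs_succ, pow_zero, mul_one]
  rw [mul_add]
  congr 1
  rw [Finsupp.weight_apply, Finsupp.weight_apply, Finsupp.sum, Finsupp.sum, Finset.mul_sum]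
  refine Finset.sum_congr rfl fun l _ => ?_
  rw [smul_eq_mul, smul_eq_mul]
  obtain ⟨k, hk⟩ := Nat.exists_eq_succ_of_ne_zero (he l)
  rw [hk, Nat.succ_eq_add_one, Nat.add_sub_cancel, pow_succ]
  ring

/-- the children with `q ≥ 1` (smaller cohomological degree) -/
lemma HGood_child {e : ℕ → ℕ} (he : ∀ l, e l ≠ 0) {p q : ℕ} {μ : ℕ →₀ ℕ} {c : ℤ}
    (hc : c ≤ dval e μ) (hq : c < dval e μ ∨ 1 ≤ q)
    (IH : ∀ (μ : ℕ →₀ ℕ) (e : ℕ → ℕ) (c : ℤ), c < dval e μ → Good e p μ c) :
    HGood e p q μ c := by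
  apply HGood_of_Good he
  intro c'' hc''
  apply IH
  have h1 := dval_child he q μ
  omega

lemma Good_of_ge_one {e : ℕ → ℕ} (he : ∀ l, e l ≠ 0) {a : ℕ} {μ : ℕ →₀ ℕ} {c : ℤ}
    (hc : c < dval e μ)
    (IHa : ∀ p < a, ∀ (μ : ℕ →₀ ℕ) (e : ℕ → ℕ) (c : ℤ), c < dval e μ → Good e p μ c)
    (h0 : ∀ c'', 2 * c'' = c → Good (econs 0 (fun l => e l - 1)) a (mcons 0 μ) c'') :
    Good e a μ c := by
  have h1 : ∀ p ∈ Finset.range (a+1), HGood e p (a - p) μ c := by
    intro p hp
    rw [Finset.mem_range] at hp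
    rcases Nat.lt_or_ge p a with h | h
    · exact HGood_child he hc.le (Or.inl hc) (IHa p h)
    · obtain rfl : p = a := by omega
      rw [Nat.sub_self]
      apply HGood_of_Good he
      intro c'' hc''
      exact h0 c'' (by simpa using hc'')
  have h2 := (Filter.eventually_all_finset (Finset.range (a+1))).mpr h1
  filter_upwards [h2] with N hN w hw
  apply Van_of_HVan he
  intro p hp
  exact hN p (Finset.mem_range.mpr (by omega)) w hw

lemma Good_raise {e : ℕ → ℕ} {l : ℕ} (hl : e l = 0) {a : ℕ} {μ : ℕ →₀ ℕ} {c : ℤ}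
    (h1 : Good (up e l) a (μ + Finsupp.single l 1) c) (h2 : Good e a μ (c - 1)) :
    Good e a (μ + Finsupp.single l 1) c := by
  filter_upwards [h1, h2] with N hN1 hN2 w hw
  apply raise hl (hN1 w hw)
  apply hN2
  rw [show w - 1 - (c - 1) = w - c by ring]
  exact hw

/-- raise the kinds of all labels in `S` to one -/
def upS (e : ℕ → ℕ) (S : Finset ℕ) : ℕ → ℕ := fun m => if m ∈ S then 1 else e m

lemma dval_add (e : ℕ → ℕ) (μ ν : ℕ →₀ ℕ) : dval e (μ + ν) = dval e μ + dval e ν := by
  simp [dval]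

lemma dval_single (e : ℕ → ℕ) (l k : ℕ) : dval e (Finsupp.single l k) = k * 2 ^ (e l) := by
  simp [dval, Finsupp.weight_single]

lemma weight_mono {f g : ℕ → ℕ} {μ : ℕ →₀ ℕ} (h : ∀ l, μ l ≠ 0 → f l ≤ g l) :
    Finsupp.weight f μ ≤ Finsupp.weight g μ := by
  rw [Finsupp.weight_apply, Finsupp.weight_apply]
  apply Finset.sum_le_sum
  intro l hl
  show μ l * f l ≤ μ l * g l
  exact Nat.mul_le_mul_left _ (h l (Finsupp.mem_support_iff.mp hl))

lemma weight_strict {f g : ℕ → ℕ} {μ : ℕ →₀ ℕ} (h : ∀ l, μ l ≠ 0 → f l ≤ g l)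
    {l : ℕ} (hl : μ l ≠ 0) (hfg : f l < g l) :
    Finsupp.weight f μ < Finsupp.weight g μ := by
  rw [Finsupp.weight_apply, Finsupp.weight_apply]
  apply Finset.sum_lt_sum
  · intro l hl
    show μ l * f l ≤ μ l * g l
    exact Nat.mul_le_mul_left _ (h l (Finsupp.mem_support_iff.mp hl))
  · refine ⟨l, Finsupp.mem_support_iff.mpr hl, ?_⟩
    show μ l * f l < μ l * g l
    exact Nat.mul_lt_mul_of_pos_left hfg (Nat.pos_of_ne_zero hl)

lemma split_single {μ : ℕ →₀ ℕ} {l : ℕ} (hl : μ l ≠ 0) :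
    μ = (μ - Finsupp.single l 1) + Finsupp.single l 1 := by
  rw [tsub_add_cancel_of_le]
  rw [Finsupp.single_le_iff]
  exact Nat.one_le_iff_ne_zero.mpr hl

abbrev size (μ : ℕ →₀ ℕ) : ℕ := Finsupp.weight (fun _ => 1) μ

lemma size_split {μ : ℕ →₀ ℕ} {l : ℕ} (hl : μ l ≠ 0) :
    size (μ - Finsupp.single l 1) + 1 = size μ := by
  conv_rhs => rw [split_single hl]
  rw [size, size, map_add, Finsupp.weight_single]; simp

/-- raise all labels in a set -/
lemma Good_raiseS {a : ℕ} {μ : ℕ →₀ ℕ} {c : ℤ}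
    (IHn : ∀ (μ' : ℕ →₀ ℕ) (e : ℕ → ℕ) (c : ℤ), size μ' < size μ → c < dval e μ' → Good e a μ' c)
    (e : ℕ → ℕ) (hc : c < dval e μ) :
    ∀ S : Finset ℕ, (∀ l ∈ S, μ l ≠ 0 ∧ e l = 0) → Good (upS e S) a μ c → Good e a μ c := by
  intro S
  induction S using Finset.induction_on with
  | empty =>
    intro _ h
    have : upS e ∅ = e := by funext m; simp [upS]
    rwa [this] at h
  | insert l S hlS ih =>
    intro hS h
    apply ih (fun m hm => hS m (Finset.mem_insert_of_mem hm))
    obtain ⟨hμl, hel⟩ := hS l (Finset.mem_insert_self _ _)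
    have h1 : upS e (insert l S) = up (upS e S) l := by
      funext m
      by_cases hm : m = l
      · subst hm; simp [upS]
      · rw [up_ne _ hm]; simp [upS, hm]
    rw [h1] at h
    have h2 : upS e S l = 0 := by simp [upS, hlS, hel]
    rw [split_single hμl] at h ⊢
    apply Good_raise h2 h
    apply IHn
    · have := size_split hμl; omega
    · have h3 : dval e μ ≤ dval (upS e S) μ := by
        apply weight_mono
        intro m hm
        apply Nat.pow_le_pow_right (by norm_num)
        unfold upS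
        split_ifs with hmS
        · rw [(hS m (Finset.mem_insert_of_mem hmS)).2]; omega
        · exact le_rfl
      have h4 : dval (upS e S) μ = dval (upS e S) (μ - Finsupp.single l 1) + 1 := by
        conv_lhs => rw [split_single hμl]
        rw [dval_add, dval_single, h2]; simp
      omega

lemma Good_half {e : ℕ → ℕ} {a : ℕ} {μ : ℕ →₀ ℕ} {c c'' : ℤ} (h : Good e a μ c'')
    (hc : 2 * c'' = c) :
    ∀ᶠ N : ℕ in Filter.atTop, ∀ w : ℤ, (2:ℤ)^N ∣ w - c → ∀ w'', 2 * w'' = w → Van e a w'' μ := by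
  unfold Good at h
  rw [Filter.eventually_atTop] at h ⊢
  obtain ⟨N0, hN0⟩ := h
  refine ⟨N0 + 1, fun N hN w hw w'' hw'' => ?_⟩
  apply hN0 N0 le_rfl
  have h2 : (2:ℤ)^(N0+1) ∣ w - c := (pow_dvd_pow 2 hN).trans hw
  have h3 : w - c = 2 * (w'' - c'') := by omega
  rw [h3, pow_succ, mul_comm] at h2
  exact (mul_dvd_mul_iff_left (by norm_num : (2:ℤ) ≠ 0)).mp h2

lemma size_cmul {c : ℕ → ℕ} {μ : ℕ →₀ ℕ} : size (cmul c μ) = Finsupp.weight (fun l => 2 ^ (c l)) μ := by
  rw [size, Finsupp.weight_apply, Finsupp.weight_apply, Finsupp.sum, Finsupp.sum]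
  have h1 : (cmul c μ).support = μ.support := by
    ext l
    simp
  rw [h1]
  refine Finset.sum_congr rfl fun l _ => ?_
  simp [mul_comm]

theorem main_claim : ∀ (a : ℕ) (μ : ℕ →₀ ℕ) (e : ℕ → ℕ) (c : ℤ), c < dval e μ → Good e a μ c := by
  intro a
  induction a using Nat.strong_induction_on with
  | _ a IHa =>
  suffices H : ∀ (n k z : ℕ) (μ : ℕ →₀ ℕ) (e : ℕ → ℕ) (c : ℤ), size μ = n →
      Finsupp.weight e μ = k → c.natAbs = z → c < dval e μ → Good e a μ c from
    fun μ e c hc => H _ _ _ μ e c rfl rfl rfl hc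
  intro n
  induction n using Nat.strong_induction_on with
  | _ n IHn =>
  intro k
  induction k using Nat.strong_induction_on with
  | _ k IHk =>
  intro z
  induction z using Nat.strong_induction_on with
  | _ z IHz =>
  intro μ e c hn hk hz hc
  have IHn' : ∀ (μ' : ℕ →₀ ℕ) (e : ℕ → ℕ) (c : ℤ), size μ' < size μ → c < dval e μ' →
      Good e a μ' c := fun μ' e c h1 h2 => IHn (size μ') (by omega) _ _ μ' e c rfl rfl rfl h2
  by_cases hbad : c = 0 ∧ ∀ l, μ l ≠ 0 → e l = 0
  · -- bad case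
    obtain ⟨hc0, he0⟩ := hbad
    subst hc0
    have hex : ∃ l, μ l ≠ 0 := by
      by_contra hcon
      push Not at hcon
      have h0 : μ = 0 := Finsupp.ext hcon
      rw [h0] at hc
      simp [dval] at hc
    obtain ⟨l, hl⟩ := hex
    apply Good_raiseS IHn' e hc (μ.support.erase l)
    · intro m hm
      rw [Finset.mem_erase, Finsupp.mem_support_iff] at hm
      exact ⟨hm.2, he0 m hm.2⟩
    apply Good_congr (e := fun m => if m = l then 0 else 1)
    · intro m hm
      unfold upS
      by_cases hml : m = l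
      · subst hml; simp [he0 m hm]
      · simp [hml, hm]
    set e' : ℕ → ℕ := fun m => if m = l then 0 else 1 with he'def
    have he'l : e' l = 0 := by simp [he'def]
    have he'ne : ∀ m, m ≠ l → e' m ≠ 0 := fun m hm => by simp [he'def, hm]
    have hup : up e' l = fun _ => 1 := by
      funext m
      by_cases hm : m = l
      · subst hm; simp
      · rw [up_ne _ hm]; simp [he'def, hm]
    have hone : ∀ m : ℕ, (fun _ : ℕ => 1) m ≠ 0 := fun m => one_ne_zero
    set μ' := μ - Finsupp.single l 1 with hμ'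
    have hsplit : μ = μ' + Finsupp.single l 1 := split_single hl
    have h1 : ∀ p ∈ Finset.range a, HGood (fun _ => 1) p (a - p) μ 0 := by
      intro p hp
      rw [Finset.mem_range] at hp
      exact HGood_child hone (by positivity) (Or.inr (by omega)) (IHa p hp)
    have h2 : ∀ p ∈ Finset.range a, HGood (fun _ => 1) p (a - p) μ' (-1) := by
      intro p hp
      rw [Finset.mem_range] at hp
      exact HGood_child hone (by omega) (Or.inr (by omega)) (IHa p hp)
    have h3 : ∀ p ∈ Finset.range a, HGood (fun _ => 1) p (a + 1 - p)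
        (μ - (a + 1 - p) • Finsupp.single l 1) (-((a + 1 - p : ℕ) : ℤ)) := by
      intro p hp
      rw [Finset.mem_range] at hp
      exact HGood_child hone (by omega) (Or.inr (by omega)) (IHa p hp)
    have h4 : ∀ᶠ N : ℕ in Filter.atTop, ∀ w : ℤ, (2:ℤ)^N ∣ w - 0 →
        ∀ w'' μ'', 2 * w'' = w → cmul (fun m => if m = l then 1 else 0) μ'' = μ →
        Van (fun m => if m = l then 1 else e' m - 1) a w'' μ'' := by
      by_cases hex : ∃ μ4, cmul (fun m => if m = l then 1 else 0) μ4 = μ
      · obtain ⟨μ4, hμ4⟩ := hex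
        have hμ4l : μ4 l ≠ 0 := by
          intro h0
          apply hl
          rw [← hμ4, cmul_apply, h0, mul_zero]
        have hg : Good (fun m => if m = l then 1 else e' m - 1) a μ4 0 := by
          apply IHn'
          · rw [← hμ4, size_cmul]
            apply weight_strict (fun m _ => Nat.one_le_two_pow) hμ4l
            simp
          · have : 0 < dval (fun m => if m = l then 1 else e' m - 1) μ4 := by
              rw [split_single hμ4l, dval_add, dval_single]
              positivity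
            exact_mod_cast this
        filter_upwards [Good_half hg (by norm_num : 2 * (0:ℤ) = 0)] with N hN w hw w'' μ'' hw'' hμ''
        have : μ'' = μ4 := cmul_injective _ (by rw [hμ'', hμ4])
        rw [this]
        exact hN w hw w'' hw''
      · apply Filter.Eventually.of_forall
        intro N w hw w'' μ'' hw'' hμ''
        exact absurd ⟨μ'', hμ''⟩ hex
    have h5 : Good e' a μ' (-1) := by
      apply IHn'
      · have := size_split hl
        rw [← hμ'] at this
        omega
      · omega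
    have h1' := (Filter.eventually_all_finset (Finset.range a)).mpr h1
    have h2' := (Filter.eventually_all_finset (Finset.range a)).mpr h2
    have h3' := (Filter.eventually_all_finset (Finset.range a)).mpr h3
    filter_upwards [h1', h2', h3', h4, h5] with N hN1 hN2 hN3 hN4 hN5 w hw
    rw [hsplit]
    apply bad he'l he'ne
    · intro p hp
      rw [hup, ← hsplit]
      exact hN1 p (Finset.mem_range.mpr hp) w hw
    · intro p hp
      rw [hup]
      exact hN2 p (Finset.mem_range.mpr (by omega)) (w-1) (by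
        rw [show w - 1 - -1 = w - 0 by ring]; exact hw)
    · intro p hp ν hν
      rw [hup]
      have hν' : ν = μ - (a + 1 - p) • Finsupp.single l 1 := by
        rw [hsplit, ← hν, add_tsub_cancel_right]
      rw [hν']
      exact hN3 p (Finset.mem_range.mpr hp) _ (by
        rw [show w - ((a + 1 - p : ℕ) : ℤ) - -((a + 1 - p : ℕ) : ℤ) = w - 0 by ring]; exact hw)
    · intro w'' μ'' hw'' hμ''
      rw [← hsplit] at hμ''
      exact hN4 w hw w'' μ'' hw'' hμ''
    · exact hN5 (w-1) (by rw [show w - 1 - -1 = w - 0 by ring]; exact hw)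
  · -- good case
    apply Good_raiseS IHn' e hc (μ.support.filter (fun l => e l = 0))
    · intro m hm
      rw [Finset.mem_filter, Finsupp.mem_support_iff] at hm
      exact hm
    apply Good_congr (e := fun m => max (e m) 1)
    · intro m hm
      unfold upS
      by_cases hml : e m = 0
      · simp [hml, hm]
      · simp [hml, hm]; omega
    set e' : ℕ → ℕ := fun m => max (e m) 1 with he'def
    have he' : ∀ m, e' m ≠ 0 := fun m => by simp [he'def]
    have hdv : dval e μ ≤ dval e' μ := by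
      apply weight_mono
      intro m _
      exact Nat.pow_le_pow_right (by norm_num) (le_max_left _ _)
    have hc' : c < dval e' μ := by omega
    apply Good_of_ge_one he' hc' IHa
    intro c'' hc''
    have hd'' : c'' < dval (econs 0 (fun l => e' l - 1)) (mcons 0 μ) := by
      have := dval_child he' 0 μ
      omega
    have hsz : size (mcons 0 μ) = n := by
      rw [size, weight_mcons, zero_mul, zero_add]; exact hn
    have hwt : Finsupp.weight (econs 0 (fun l => e' l - 1)) (mcons 0 μ) =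
        Finsupp.weight (fun l => e' l - 1) μ := by
      rw [weight_mcons, zero_mul, zero_add]
      rfl
    by_cases hall : ∀ l, μ l ≠ 0 → e l = 0
    · have hc0 : c ≠ 0 := fun h => hbad ⟨h, hall⟩
      have hk0 : k = 0 := by
        rw [← hk, Finsupp.weight_apply]
        apply Finset.sum_eq_zero
        intro l hl
        simp [hall l (Finsupp.mem_support_iff.mp hl)]
      have hk0' : Finsupp.weight (fun l => e' l - 1) μ = k := by
        rw [hk0, Finsupp.weight_apply]
        apply Finset.sum_eq_zero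
        intro l hl
        simp [he'def, hall l (Finsupp.mem_support_iff.mp hl)]
      exact IHz c''.natAbs (by omega) _ _ c'' hsz (by rw [hwt, hk0']) rfl hd''
    · push Not at hall
      obtain ⟨l, hl, hel⟩ := hall
      apply IHk (Finsupp.weight (fun l => e' l - 1) μ) _ c''.natAbs _ _ c'' hsz hwt rfl hd''
      rw [← hk]
      apply weight_strict _ hl
      · simp only [he'def]; omega
      · intro m _
        simp only [he'def]; omega

end Pool.Agent.Lib.SqZ
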