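import Pool.Agent.Lib.MP_9c8c11_gt.Untwist

set_option autoImplicit false

open MvPolynomial Finset

noncomputable section

namespace Pool.Agent.Lib.SqZ

/-- `π_l` : kill `x_{l,0}` and shift the other `x_{l,n}` down -/
def rp (l : ℕ) : R →ₐ[ZMod 2] R := aeval (fun k => match k with
  | .t j n => X (.t j n)
  | .v n => X (.v n)
  | .x m n => if m = l then (if n = 0 then 0 else X (.x l (n-1))) else X (.x m n))

/-- `ι_l` : shift the `x_{l,n}` up -/
def ri (l : ℕ) : R →ₐ[ZMod 2] R := aeval (fun k => match k with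
  | .t j n => X (.t j n)
  | .v n => X (.v n)
  | .x m n => if m = l then X (.x l (n+1)) else X (.x m n))

@[simp] lemma rp_t (l j n : ℕ) : rp l (X (.t j n)) = X (.t j n) := by simp [rp]
@[simp] lemma rp_v (l n : ℕ) : rp l (X (.v n)) = X (.v n) := by simp [rp]
lemma rp_x (l m n : ℕ) : rp l (X (.x m n)) =
    if m = l then (if n = 0 then 0 else X (.x l (n-1))) else X (.x m n) := by simp [rp]
lemma rp_x_ne {l m : ℕ} (h : m ≠ l) (n : ℕ) : rp l (X (.x m n)) = X (.x m n) := by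
  rw [rp_x, if_neg h]
lemma rp_x_zero (l : ℕ) : rp l (X (.x l 0)) = 0 := by
  rw [rp_x, if_pos rfl, if_pos rfl]
lemma rp_x_succ (l n : ℕ) : rp l (X (.x l (n+1))) = X (.x l n) := by
  rw [rp_x, if_pos rfl, if_neg (by omega), Nat.add_sub_cancel]

@[simp] lemma ri_t (l j n : ℕ) : ri l (X (.t j n)) = X (.t j n) := by simp [ri]
@[simp] lemma ri_v (l n : ℕ) : ri l (X (.v n)) = X (.v n) := by simp [ri]
lemma ri_x (l m n : ℕ) : ri l (X (.x m n)) =
    if m = l then X (.x l (n+1)) else X (.x m n) := by simp [ri]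
lemma ri_x_ne {l m : ℕ} (h : m ≠ l) (n : ℕ) : ri l (X (.x m n)) = X (.x m n) := by
  rw [ri_x, if_neg h]
lemma ri_x_eq (l n : ℕ) : ri l (X (.x l n)) = X (.x l (n+1)) := by
  rw [ri_x, if_pos rfl]

lemma rp_ri (l : ℕ) (f : R) : rp l (ri l f) = f := by
  have : (rp l).comp (ri l) = AlgHom.id _ _ := by
    apply alg_ext
    · intros; simp
    · intros; simp
    · intro m n
      simp only [AlgHom.comp_apply, AlgHom.id_apply]
      by_cases h : m = l
      · subst h; rw [ri_x_eq, rp_x_succ]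
      · rw [ri_x_ne h, rp_x_ne h]
  exact DFunLike.congr_fun this f

lemma rp_xi (l j m : ℕ) : rp l (xi j m) = xi j m := by cases m <;> simp [xi]
lemma rp_E (l j a b : ℕ) : rp l (E j a b) = E j a b := by simp [E, rp_xi]
lemma rp_cop (l j m : ℕ) : rp l (cop j m) = cop j m := by simp [cop, rp_E, rp_xi]

lemma rp_phi (l : ℕ) (f : R) : rp l (phi f) = phi (rp l f) := by
  have : (rp l).comp phi = phi.comp (rp l) := by
    apply alg_ext
    · intros; simp
    · intros; simp
    · intro m n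
      simp only [AlgHom.comp_apply, phi_x]
      rw [rp_x]
      split_ifs <;> simp
  exact DFunLike.congr_fun this f

lemma rp_del (l i : ℕ) (f : R) : rp l (del i f) = del i (rp l f) := by
  have : (rp l).comp (del i) = (del i).comp (rp l) := by
    apply alg_ext
    · intro k n
      simp only [AlgHom.comp_apply, rp_t]
      rw [del_t]
      split_ifs <;> simp [rp_cop]
    · intros; simp
    · intro m n
      simp only [AlgHom.comp_apply, del_x]
      rw [rp_x]
      split_ifs <;> simp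
  exact DFunLike.congr_fun this f

/-- raise the kind of `l` to one -/
def up (e : ℕ → ℕ) (l : ℕ) : ℕ → ℕ := Function.update e l 1

@[simp] lemma up_self (e : ℕ → ℕ) (l : ℕ) : up e l l = 1 := by simp [up]
lemma up_ne (e : ℕ → ℕ) {l m : ℕ} (h : m ≠ l) : up e l m = e m := by simp [up, h]

lemma cx_zero_shift (l s n : ℕ) :
    rp l (cx s 0 (fun i => X (.x l i)) (n+1)) = cx s 1 (fun i => X (.x l i)) n := by
  unfold cx
  rw [map_sum, Finset.sum_range_succ', map_mul, rp_x_zero, mul_zero, add_zero]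
  refine Finset.sum_congr rfl fun i _ => ?_
  rw [map_mul, map_pow, rp_E, rp_x_succ, pow_zero, pow_one]
  congr 1
  have := E_pow s i n 1
  rw [this]

lemma rp_om {e : ℕ → ℕ} {l : ℕ} (hl : e l = 0) (s : ℕ) (f : R) :
    rp l (om e false s f) = om (up e l) false s (rp l f) := by
  have : (rp l).comp (om e false s) = (om (up e l) false s).comp (rp l) := by
    apply alg_ext
    · intro k n
      simp only [AlgHom.comp_apply, rp_t]
      rw [om_t, om_t]
      split_ifs <;> simp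
    · intro n; simp [om_v_false]
    · intro m n
      simp only [AlgHom.comp_apply]
      by_cases h : m = l
      · subst h
        rw [om_x, hl]
        cases n with
        | zero =>
          rw [rp_x_zero, map_zero]
          simp [cx, rp_x_zero]
        | succ n =>
          rw [cx_zero_shift, rp_x_succ, om_x, up_self]
      · rw [rp_x_ne h, om_x, om_x, up_ne e h, hom_cx (rp l) (fun a c => rp_E l s a c)
          (fun j => rp_x_ne h j)]
  exact DFunLike.congr_fun this f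

lemma rp_dd {e : ℕ → ℕ} {l : ℕ} (hl : e l = 0) (s : ℕ) (f : R) :
    rp l (dd e false s f) = dd (up e l) false s (rp l f) := by
  rw [dd_apply, dd_apply, map_add, map_add, map_sum, rp_phi, rp_om hl]
  have h1 : ∑ x ∈ range s, rp l (del x f) = ∑ i ∈ range s, del i (rp l f) := by
    refine Finset.sum_congr rfl fun i _ => ?_
    rw [rp_del]
  rw [h1]

lemma hg_rp {e : ℕ → ℕ} {l : ℕ} (hl : e l = 0) : ∀ i, Hg (up e l) (rp l (X i)) (wt e i) := by
  rintro (⟨k, n⟩ | n | ⟨m, n⟩)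
  · rw [rp_t]; exact Hg_X _ _
  · rw [rp_v]; exact Hg_X _ _
  · by_cases h : m = l
    · subst h
      cases n with
      | zero => rw [rp_x_zero]; exact isWeightedHomogeneous_zero _ _ _
      | succ n =>
        rw [rp_x_succ]
        apply Hg_X'
        simp [wt, hl]
    · rw [rp_x_ne h]
      apply Hg_X'
      simp [wt, up_ne e h]

lemma hg_ri {e : ℕ → ℕ} {l : ℕ} (hl : e l = 0) : ∀ i, Hg e (ri l (X i)) (wt (up e l) i) := by
  rintro (⟨k, n⟩ | n | ⟨m, n⟩)
  · rw [ri_t]; exact Hg_X _ _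
  · rw [ri_v]; exact Hg_X _ _
  · by_cases h : m = l
    · subst h
      rw [ri_x_eq]
      apply Hg_X'
      simp [wt, hl]
    · rw [ri_x_ne h]
      apply Hg_X'
      simp [wt, up_ne e h]

lemma rp_F (l : ℕ) {p s : ℕ} {f : R} (hf : f ∈ F p s) : rp l f ∈ F p s := by
  apply Fs_map (rp l) _ hf
  rintro (⟨k, n⟩ | n | ⟨m, n⟩)
  · rw [rp_t]; exact X_pow_mem _ dvd_rfl
  · rw [rp_v]; exact Subalgebra.pow_mem _ v_mem _
  · rw [rp_x]
    split_ifs
    · simp only [Tp, pow_one]; exact Subalgebra.zero_mem _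
    · exact Subalgebra.pow_mem _ x_mem _
    · exact Subalgebra.pow_mem _ x_mem _

lemma ri_F (l : ℕ) {p s : ℕ} {f : R} (hf : f ∈ F p s) : ri l f ∈ F p s := by
  apply Fs_map (ri l) _ hf
  rintro (⟨k, n⟩ | n | ⟨m, n⟩)
  · rw [ri_t]; exact X_pow_mem _ dvd_rfl
  · rw [ri_v]; exact Subalgebra.pow_mem _ v_mem _
  · rw [ri_x]
    split_ifs
    · exact Subalgebra.pow_mem _ x_mem _
    · exact Subalgebra.pow_mem _ x_mem _

lemma rp_G {e : ℕ → ℕ} {l : ℕ} (hl : e l = 0) {p s : ℕ} {M : Gd} {f : R} (hf : f ∈ Gm e p s M) :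
    rp l f ∈ Gm (up e l) p s M := ⟨rp_F l hf.1, Hg_map (rp l) (hg_rp hl) hf.2⟩

lemma ri_G {e : ℕ → ℕ} {l : ℕ} (hl : e l = 0) {p s : ℕ} {M : Gd} {f : R}
    (hf : f ∈ Gm (up e l) p s M) :
    ri l f ∈ Gm e p s M := ⟨ri_F l hf.1, Hg_map (ri l) (hg_ri hl) hf.2⟩

/-- `x_{l,0}` is primitive for kind zero -/
lemma dd_xmul {e : ℕ → ℕ} {l : ℕ} (hl : e l = 0) (s : ℕ) (f : R) :
    dd e false s (X (.x l 0) * f) = X (.x l 0) * dd e false s f := by
  have h0 : om e false s (X (.x l 0)) = X (.x l 0) := by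
    rw [om_x, hl]; simp [cx]
  rw [dd_apply, dd_apply]
  simp only [map_mul, phi_x, del_x, h0, mul_add, Finset.mul_sum]

lemma ker_rp_aux (l : ℕ) {p s : ℕ} : ∀ f ∈ F p s, ∃ g ∈ F p s,
    f = ri l (rp l f) + X (.x l 0) * g := by
  apply Fs_induction
  · rintro (⟨k, n⟩ | n | ⟨m, n⟩)
    · exact ⟨0, Subalgebra.zero_mem _, by simp⟩
    · exact ⟨0, Subalgebra.zero_mem _, by simp⟩
    · simp only [Tp, pow_one]
      by_cases h : m = l
      · subst h
        cases n with
        | zero => exact ⟨1, Subalgebra.one_mem _, by rw [rp_x_zero]; simp⟩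
        | succ n => exact ⟨0, Subalgebra.zero_mem _, by rw [rp_x_succ, ri_x_eq]; simp⟩
      · exact ⟨0, Subalgebra.zero_mem _, by rw [rp_x_ne h, ri_x_ne h]; simp⟩
  · exact ⟨0, Subalgebra.zero_mem _, by simp⟩
  · exact ⟨0, Subalgebra.zero_mem _, by simp⟩
  · rintro f g ⟨f', hf', hf⟩ ⟨g', hg', hg⟩
    refine ⟨f' + g', Subalgebra.add_mem _ hf' hg', ?_⟩
    conv_lhs => rw [hf, hg]
    rw [map_add, map_add]; ring
  · rintro f g hfF hgF ⟨f', hf', hf⟩ ⟨g', hg', hg⟩
    refine ⟨f' * g + ri l (rp l f) * g', Subalgebra.add_mem _ (Subalgebra.mul_mem _ hf' hgF)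
      (Subalgebra.mul_mem _ (ri_F l (rp_F l hfF)) hg'), ?_⟩
    rw [map_mul, map_mul]
    calc f * g = (ri l (rp l f) + X (.x l 0) * f') * g := by rw [← hf]
      _ = ri l (rp l f) * g + X (.x l 0) * (f' * g) := by ring
      _ = ri l (rp l f) * (ri l (rp l g) + X (.x l 0) * g') + X (.x l 0) * (f' * g) := by
        rw [← hg]
      _ = _ := by ring

/-- elements of `ker π_l` (plus a lifted part) are divisible by `x_{l,0}` -/
lemma ker_rp {e : ℕ → ℕ} {l : ℕ} (hl : e l = 0) {s : ℕ} {w : ℤ} {μ : ℕ →₀ ℕ} {f : R}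
    (hf : f ∈ Gm e 0 s (w, 0, μ + Finsupp.single l 1)) :
    ∃ g ∈ Gm e 0 s (w - 1, 0, μ), f = ri l (rp l f) + X (.x l 0) * g := by
  obtain ⟨g, hg, hfg⟩ := ker_rp_aux l f hf.1
  have hr : ri l (rp l f) ∈ Gm e 0 s (w, 0, μ + Finsupp.single l 1) := ri_G hl (rp_G hl hf)
  have h1 : X (.x l 0) * g = f + ri l (rp l f) := by
    have := add_self' (ri l (rp l f))
    calc X (.x l 0) * g = (ri l (rp l f) + ri l (rp l f)) + X (.x l 0) * g := by
          rw [this, zero_add]
      _ = (ri l (rp l f) + X (.x l 0) * g) + ri l (rp l f) := by ring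
      _ = f + ri l (rp l f) := by rw [← hfg]
  have h2 : Hg e (X (.x l 0) * g) (w, 0, μ + Finsupp.single l 1) := by
    rw [h1]; exact hf.2.add hr.2
  let O : R →ₗ[ZMod 2] R := LinearMap.mulLeft (ZMod 2) (X (.x l 0))
  have h3 := comp_proj_gen (e := e) (e' := e) O (fun M => wt e (.x l 0) + M)
    (fun M N h => add_left_cancel h) (fun m => by
      show Hg e (X (.x l 0) * monomial m 1) _
      exact (Hg_X e _).mul (isWeightedHomogeneous_monomial _ _ _ rfl)) (w - 1, 0, μ) g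
  have h4 : wt e (.x l 0) + ((w - 1, 0, μ) : Gd) = (w, 0, μ + Finsupp.single l 1) := by
    simp only [wt, hl, Prod.mk_add_mk]
    rw [Prod.mk.injEq, Prod.mk.injEq]
    refine ⟨by norm_num, rfl, add_comm _ _⟩
  refine ⟨weightedHomogeneousComponent (wt e) (w - 1, 0, μ) g, ⟨comp_mem_Fs hg _, Hg_comp _ _ _⟩,
    ?_⟩
  have h5 : X (.x l 0) * weightedHomogeneousComponent (wt e) (w - 1, 0, μ) g = X (.x l 0) * g := by
    have h6 : O (weightedHomogeneousComponent (wt e) (w - 1, 0, μ) g) =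
        X (.x l 0) * weightedHomogeneousComponent (wt e) (w - 1, 0, μ) g := rfl
    have h7 : O g = X (.x l 0) * g := rfl
    rw [← h6, h3, h4, h7, h2.weightedHomogeneousComponent_same]
  rw [h5]
  exact hfg

lemma xmul_ne_zero (l : ℕ) {f : R} (h : X (.x l 0) * f = 0) : f = 0 := by
  rcases mul_eq_zero.mp h with h | h
  · exact absurd h (X_ne_zero _)
  · exact h

lemma xmul_G {e : ℕ → ℕ} {l : ℕ} (hl : e l = 0) {s : ℕ} {w : ℤ} {μ : ℕ →₀ ℕ} {f : R}
    (hf : f ∈ Gm e 0 s (w - 1, 0, μ)) :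
    X (.x l 0) * f ∈ Gm e 0 s (w, 0, μ + Finsupp.single l 1) := by
  refine ⟨Subalgebra.mul_mem _ x_mem hf.1, Hg_cast ((Hg_X e _).mul hf.2) ?_⟩
  simp only [wt, hl, Prod.mk_add_mk]
  rw [Prod.mk.injEq, Prod.mk.injEq]
  refine ⟨by norm_num, rfl, add_comm _ _⟩

/-- conclusion of the raising argument -/
theorem raise_aux {e : ℕ → ℕ} {l : ℕ} (hl : e l = 0) {a : ℕ} {w : ℤ} {μ : ℕ →₀ ℕ} {f : R}
    (hf : f ∈ Gm e 0 a (w, 0, μ + Finsupp.single l 1)) (hd : dd e false a f = 0)
    (h1 : Bd (up e l) false (fun a => Gm (up e l) 0 a (w, 0, μ + Finsupp.single l 1)) a (rp l f))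
    (h2 : Van e a (w - 1) μ) :
    Bd e false (fun a => Gm e 0 a (w, 0, μ + Finsupp.single l 1)) a f := by
  cases a with
  | zero =>
    have h3 : rp l f = 0 := h1
    obtain ⟨g, hg, hfg⟩ := ker_rp hl hf
    rw [h3, map_zero, zero_add] at hfg
    have h4 : dd e false 0 g = 0 := by
      apply xmul_ne_zero l
      rw [← dd_xmul hl, ← hfg, hd]
    have h5 : g = 0 := h2 g hg h4
    show f = 0
    rw [hfg, h5, mul_zero]
  | succ a =>
    obtain ⟨y, hy, hyd⟩ := h1
    set f1 := f + dd e false a (ri l y) with hf1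
    have hri : ri l y ∈ Gm e 0 a (w, 0, μ + Finsupp.single l 1) := ri_G hl hy
    have hf1G : f1 ∈ Gm e 0 (a+1) (w, 0, μ + Finsupp.single l 1) :=
      Submodule.add_mem _ hf (dd_G (Nat.zero_le _) hri)
    have h3 : rp l f1 = 0 := by
      rw [hf1, map_add, rp_dd hl, rp_ri, hyd]; exact add_self' _
    have h3' : dd e false (a+1) f1 = 0 := by
      rw [hf1, map_add, hd, dd_dd, add_zero]
    obtain ⟨g, hg, hfg⟩ := ker_rp hl hf1G
    rw [h3, map_zero, zero_add] at hfg
    have h4 : dd e false (a+1) g = 0 := by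
      apply xmul_ne_zero l
      rw [← dd_xmul hl, ← hfg, h3']
    obtain ⟨z, hz, hzd⟩ := h2 g hg h4
    have hz' : z ∈ Gm e 0 a (w - 1, 0, μ) := hz
    have h6 : X (.x l 0) * z ∈ Gm e 0 a (w, 0, μ + Finsupp.single l 1) := xmul_G hl hz'
    have h7 : ri l y + X (.x l 0) * z ∈ Gm e 0 a (w, 0, μ + Finsupp.single l 1) :=
      Submodule.add_mem _ hri h6
    have h8 : dd e false a (ri l y + X (.x l 0) * z) = f := by
      rw [map_add, dd_xmul hl, hzd, ← hfg, hf1, add_comm, add_assoc, add_self', add_zero]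
    exact ⟨_, h7, h8⟩

theorem raise {e : ℕ → ℕ} {l : ℕ} (hl : e l = 0) {a : ℕ} {w : ℤ} {μ : ℕ →₀ ℕ}
    (h1 : Van (up e l) a w (μ + Finsupp.single l 1)) (h2 : Van e a (w - 1) μ) :
    Van e a w (μ + Finsupp.single l 1) := by
  intro f hf hd
  apply raise_aux hl hf hd _ h2
  apply h1 _ (rp_G hl hf)
  rw [← rp_dd hl, hd, map_zero]

/-! ### the connecting map -/

/-- the operator `Θ` -/
def Th (e : ℕ → ℕ) (l s : ℕ) (h : R) : R :=
  rp l (pderiv (.x l 0) (om e false s (ri l h)))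

lemma Th_mul {e : ℕ → ℕ} {l : ℕ} (hl : e l = 0) (s : ℕ) (f g : R) :
    Th e l s (f * g) = Th e l s f * om (up e l) false s g + om (up e l) false s f * Th e l s g := by
  unfold Th
  simp only [map_mul, Derivation.leibniz, map_add, smul_eq_mul]
  rw [rp_om hl, rp_om hl, rp_ri, rp_ri]
  ring

lemma Th_add (e : ℕ → ℕ) (l s : ℕ) (f g : R) : Th e l s (f + g) = Th e l s f + Th e l s g := by
  simp [Th]

lemma Th_zero (e : ℕ → ℕ) (l s : ℕ) : Th e l s 0 = 0 := by simp [Th]
lemma Th_one (e : ℕ → ℕ) (l s : ℕ) : Th e l s 1 = 0 := by simp [Th]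

lemma pd_xi (l j m : ℕ) : pderiv (Idx.x l 0) (xi j m) = 0 := by
  cases m with
  | zero => simp
  | succ m => rw [xi_succ, pderiv_X_of_ne (by simp)]

lemma pd_E (l j a b : ℕ) : pderiv (Idx.x l 0) (E j a b) = 0 := by
  rw [E, Derivation.leibniz_pow, pd_xi]; simp

lemma pd_cop (l j m : ℕ) : pderiv (Idx.x l 0) (cop j m) = 0 := by
  unfold cop
  rw [map_sum]
  apply Finset.sum_eq_zero
  intro i _
  rw [Derivation.leibniz, pd_xi, pd_E]; simp

lemma Th_t (e : ℕ → ℕ) (l s j n : ℕ) : Th e l s (X (.t j n)) = 0 := by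
  unfold Th
  rw [ri_t, om_t]
  split_ifs <;> rw [pderiv_X_of_ne (by simp), map_zero]

lemma Th_v (e : ℕ → ℕ) (l s n : ℕ) : Th e l s (X (.v n)) = 0 := by
  unfold Th
  rw [ri_v, om_v_false, pderiv_X_of_ne (by simp), map_zero]

lemma Th_x_ne (e : ℕ → ℕ) {l m : ℕ} (h : m ≠ l) (s n : ℕ) : Th e l s (X (.x m n)) = 0 := by
  unfold Th
  rw [ri_x_ne h, om_x, cx, map_sum, Finset.sum_eq_zero, map_zero]
  intro i _
  rw [Derivation.leibniz, Derivation.leibniz_pow, pd_E, pderiv_X_of_ne (by simp [h])]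
  simp

lemma Th_x (e : ℕ → ℕ) {l : ℕ} (hl : e l = 0) (s n : ℕ) :
    Th e l s (X (.x l n)) = X (.t s n) := by
  unfold Th
  rw [ri_x_eq, om_x, cx, map_sum, Finset.sum_range_succ', Finset.sum_eq_zero, zero_add, hl]
  · rw [Derivation.leibniz, Derivation.leibniz_pow, pd_E, pderiv_X_self]
    simp [E_zero, xi_succ]
  · intro i _
    rw [Derivation.leibniz, Derivation.leibniz_pow, pd_E, pderiv_X_of_ne (by simp)]
    simp

lemma Th_sq {e : ℕ → ℕ} {l : ℕ} (hl : e l = 0) (s : ℕ) (f : R) : Th e l s (f ^ 2) = 0 := by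
  rw [pow_two, Th_mul hl, mul_comm (Th e l s f)]
  exact add_self' _

lemma Th_F {e : ℕ → ℕ} {l : ℕ} (hl : e l = 0) {a : ℕ} {h : R} (hh : h ∈ F a a) :
    Th e l a h ∈ F a (a+1) := by
  apply Fs_twisted (T := Tp a a) (Th e l a) (om (up e l) false a) (Th_zero e l a) (Th_one e l a)
    (Th_add e l a) (Th_mul hl a) ?_ ?_ hh
  · intro i
    rw [← map_pow]
    exact om_F (up e l) false le_rfl (X_pow_mem i dvd_rfl)
  · rintro (⟨k, n⟩ | n | ⟨m, n⟩)
    · simp only [Tp]
      split_ifs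
      · rw [Th_sq hl]; exact Subalgebra.zero_mem _
      · rw [pow_zero, Th_one]; exact Subalgebra.zero_mem _
    · simp only [Tp, pow_one, Th_v]; exact Subalgebra.zero_mem _
    · simp only [Tp, pow_one]
      by_cases h : m = l
      · subst h
        rw [Th_x e hl]; exact t_mem le_rfl (by omega)
      · rw [Th_x_ne e h]; exact Subalgebra.zero_mem _

lemma sig_dt_Th {e : ℕ → ℕ} {l : ℕ} (hl : e l = 0) (he : ∀ m, m ≠ l → e m ≠ 0) (a : ℕ) (h : R) :
    sig a (dt a (Th e l a h)) = dx l h := by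
  have he' : ∀ m, up e l m ≠ 0 := by
    intro m
    by_cases hm : m = l
    · subst hm; simp
    · rw [up_ne e hm]; exact he m hm
  apply twisted_ext (O := fun h => sig a (dt a (Th e l a h))) (O' := fun h => dx l h)
    (AlgHom.id _ _)
  · simp [Th_zero]
  · simp [Th_one]
  · intro f g; simp [Th_add]
  · intro f g; simp
  · intro f g
    simp only [Th_mul hl, map_add, Derivation.leibniz, dt_om_eq (up e l) he', smul_eq_mul,
      mul_zero, zero_add, add_zero, map_mul, sig_om_eq, AlgHom.id_apply]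
    ring
  · intro f g
    simp only [Derivation.leibniz, smul_eq_mul, AlgHom.id_apply]
    ring
  · rintro (⟨k, n⟩ | n | ⟨m, n⟩)
    · simp [Th_t]
    · simp [Th_v]
    · by_cases hm : m = l
      · subst hm
        simp only [Th_x e hl]
        rw [dt_t, if_pos rfl, sig_v, dx_x, if_pos rfl]
      · simp only [Th_x_ne e hm]
        rw [map_zero, map_zero, dx_x, if_neg hm]

lemma pd_phi_ri (l : ℕ) (f : R) : pderiv (Idx.x l 0) (phi (ri l f)) = 0 := by
  have := der_zero_of (pderiv (Idx.x l 0)) (phi.comp (ri l)) (by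
    rintro (⟨k, n⟩ | n | ⟨m, n⟩)
    · rw [AlgHom.comp_apply, ri_t, phi_t, pderiv_X_of_ne (by simp)]
    · rw [AlgHom.comp_apply, ri_v, phi_v, pderiv_X_of_ne (by simp)]
    · rw [AlgHom.comp_apply]
      by_cases h : m = l
      · subst h; rw [ri_x_eq, phi_x, pderiv_X_of_ne (by simp)]
      · rw [ri_x_ne h, phi_x, pderiv_X_of_ne (by simp [h])]) f
  exact this

lemma pd_del_ri (l i : ℕ) (f : R) : pderiv (Idx.x l 0) (del i (ri l f)) = 0 := by
  have := der_zero_of (pderiv (Idx.x l 0)) ((del i).comp (ri l)) (by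
    rintro (⟨k, n⟩ | n | ⟨m, n⟩)
    · rw [AlgHom.comp_apply, ri_t, del_t]
      split_ifs
      · rw [pderiv_X_of_ne (by simp)]
      · rw [pd_cop]
      · rw [pderiv_X_of_ne (by simp)]
    · rw [AlgHom.comp_apply, ri_v, del_v, pderiv_X_of_ne (by simp)]
    · rw [AlgHom.comp_apply]
      by_cases h : m = l
      · subst h; rw [ri_x_eq, del_x, pderiv_X_of_ne (by simp)]
      · rw [ri_x_ne h, del_x, pderiv_X_of_ne (by simp [h])]) f
  exact this

/-- the cocycle condition for `ι h + x_{l,0} g` -/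
lemma connecting {e : ℕ → ℕ} {l : ℕ} (hl : e l = 0) {s : ℕ} {h g : R}
    (hd : dd e false s (ri l h + X (.x l 0) * g) = 0) :
    dd (up e l) false s (rp l g) = Th e l s h := by
  rw [map_add, dd_xmul hl] at hd
  have h1 := congrArg (fun f => rp l (pderiv (Idx.x l 0) f)) hd
  simp only [map_add, map_zero, Derivation.leibniz, smul_eq_mul, pderiv_X_self, mul_one,
    map_mul, rp_x_zero, zero_mul, zero_add] at h1
  have h2 : rp l (pderiv (Idx.x l 0) (dd e false s (ri l h))) = Th e l s h := by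
    have : ∑ x ∈ range s, pderiv (Idx.x l 0) (del x (ri l h)) = 0 :=
      Finset.sum_eq_zero fun i _ => pd_del_ri l i h
    rw [dd_apply, map_add (pderiv (Idx.x l 0)), map_add (pderiv (Idx.x l 0)), pd_phi_ri,
      map_sum (pderiv (Idx.x l 0)), this, zero_add, zero_add]
    rfl
  rw [h2, rp_dd hl] at h1
  exact (eq_of_add_eq_zero' h1).symm

end Pool.Agent.Lib.SqZ
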