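import Pool.Agent.Lib.MP_9c8c11_gt.Final

set_option autoImplicit false

open MvPolynomial Finset

noncomputable section

namespace Pool.Agent.Lib.SqZ

/-- cocycles of degree `2 ^ (k + 1) * w` are squares up to a boundary -/
theorem surj_step (s : ℕ) : ∃ r : ℕ, ∀ k ≥ r, ∀ (w : ℤ) (y : R),
    y ∈ Gm e1 0 s (2^(k+1) * w, 0, 0) → dd e1 false s y = 0 →
    ∃ f ∈ Gm e1 0 s (2^k * w, 0, 0), ∃ h,
      Bd e1 false (fun a => Gm e1 0 a (2^(k+1) * w, 0, 0)) s h ∧ y + h = f ^ 2 ∧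
        dd e1 false s f = 0 := by
  have h1 : ∀ p ∈ Finset.range s, HGood e1 p (s - p) 0 0 := by
    intro p hp
    rw [Finset.mem_range] at hp
    exact HGood_child e1_ne (by positivity) (Or.inr (by omega)) (main_claim p)
  have h2 := (Filter.eventually_all_finset (Finset.range s)).mpr h1
  rw [Filter.eventually_atTop] at h2
  obtain ⟨r, hr⟩ := h2
  refine ⟨r, fun k hk w y hy hd => ?_⟩
  obtain ⟨h, hh, hyh⟩ := MLs e1_ne hy s le_rfl (by rw [hd]; exact Subalgebra.zero_mem _) (by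
    intro p hp
    apply hr (k+1) (by omega) p (Finset.mem_range.mpr hp)
    rw [sub_zero]
    exact dvd_mul_right _ _)
  have hd2 : dd e1 false s (y + h) = 0 := by rw [map_add, hd, Bd_dd hh, add_zero]
  have hT2 : y + h ∈ Fs (T2 s (fun _ => 0)) := by
    intro m hm i
    have hpure := pure_of_Gm (Gm_mono (Nat.zero_le _) le_rfl le_rfl hyh)
    rcases i with (⟨j, n⟩ | n | ⟨l, n⟩)
    · have h3 := hyh.1 m hm (.t j n)
      simp only [Tp] at h3
      simp only [T2]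
      by_cases hj : j < s
      · rw [if_pos hj] at h3 ⊢; exact h3
      · rw [if_neg hj, if_neg hj] at h3
        rw [if_neg hj]; exact h3
    · simp only [T2]
      rw [Hg_zero_v hyh.2 m hm n]
    · simp [T2]
  obtain ⟨f', hf', hff⟩ := Psi_surj (y + h) hT2
  have hkind : ∀ l : ℕ, (fun _ : ℕ => 0) l + 1 = e1 l + (fun _ : ℕ => 0) l := fun l => rfl
  set f'' := weightedHomogeneousComponent (wt (fun _ => 0)) ((2^k * w, 0, 0) : Gd) f' with hf''def
  have hPf : Psi (fun _ => 0) f'' = y + h := by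
    have h5 := comp_proj_gen (Psi (fun _ => 0)).toLinearMap (Adb (fun _ => 0)) (Adb_injective _)
      (Psi_monomial hkind) ((2^k * w, 0, 0) : Gd) f'
    rw [Adb_apply, map_zero, mul_zero, ← mul_assoc, ← pow_succ'] at h5
    have h4 : weightedHomogeneousComponent (wt e1) ((2^(k+1) * w, 0, 0) : Gd)
        ((Psi (fun _ => 0)).toLinearMap f') = y + h := by
      show weightedHomogeneousComponent (wt e1) ((2^(k+1) * w, 0, 0) : Gd)
        (Psi (fun _ => 0) f') = y + h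
      rw [hff]; exact hyh.2.weightedHomogeneousComponent_same
    rw [h4] at h5
    exact h5
  have hfG : f'' ∈ Gm (fun _ => 0) 0 s (2^k * w, 0, 0) :=
    ⟨T1_le (comp_mem_Fs hf' _), Hg_comp _ _ _⟩
  have hfG' : f'' ∈ Gm e1 0 s (2^k * w, 0, 0) := by
    refine ⟨hfG.1, Hg_congr ?_ hfG.2⟩
    intro l hl
    simp at hl
  have h6 : dd (fun _ => 0) false s f'' = 0 := by
    have h7 : Psi (fun _ => 0) (dd (fun _ => 0) false s f'') = 0 := by
      rw [Psi_dd hkind, hPf, hd2]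
    exact Psi_injective (fun _ => Nat.zero_le _) h7
  refine ⟨f'', hfG', h, hh, ?_, ?_⟩
  · rw [← hPf, Psi_pure _ _ (pure_of_Gm hfG')]
  · rw [← h6]
    exact dd_congr (by intro l hl; simp at hl) false s hfG'.2

/-- the degree of the variables -/
def dg (s : ℕ) (p : Fin s × ℕ) : ℕ := 2 ^ (p.2 + 1) - 1

lemma weight_map (s : ℕ) (m : Fin s × ℕ →₀ ℕ) :
    Finsupp.weight (wt e1) (m.mapDomain (fun p : Fin s × ℕ => Idx.t p.1 p.2)) =
      (((Finsupp.weight (dg s) m : ℕ) : ℤ), 0, 0) := by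
  induction m using Finsupp.induction_linear with
  | zero =>
    simp
    rfl
  | add f g hf hg =>
    rw [Finsupp.mapDomain_add, map_add, hf, hg, map_add]
    simp
  | single p n =>
    rw [Finsupp.mapDomain_single, Finsupp.weight_single, Finsupp.weight_single]
    have h : wt e1 (Idx.t p.1 p.2) = (((dg s p : ℕ) : ℤ), 0, 0) := by
      show ((2 : ℤ) ^ (p.2 + 1) - 1, (0 : ℕ), (0 : ℕ →₀ ℕ)) = _
      rw [dg, Nat.cast_sub Nat.one_le_two_pow]
      push_cast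
      rfl
    rw [h]
    simp

lemma rho_hg {s : ℕ} {f : MvPolynomial (Fin s × ℕ) (ZMod 2)} {t : ℕ} :
    IsWeightedHomogeneous (dg s) f t ↔ Hg e1 (rho s f) ((t : ℤ), 0, 0) := by
  have hinj : Function.Injective (fun p : Fin s × ℕ => Idx.t p.1 p.2) := by
    rintro ⟨i, n⟩ ⟨j, m⟩ h
    simp only [Idx.t.injEq] at h
    rw [Prod.mk.injEq]
    exact ⟨Fin.ext h.1, h.2⟩
  constructor
  · intro h d hd
    obtain ⟨u, rfl, hu⟩ := coeff_rename_ne_zero _ _ _ hd
    rw [weight_map, h hu]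
  · intro h u hu
    have h1 : coeff (u.mapDomain (fun p : Fin s × ℕ => Idx.t p.1 p.2)) (rho s f) ≠ 0 := by
      rw [rho, coeff_rename_mapDomain _ hinj]
      exact hu
    have h2 := h h1
    rw [weight_map, Prod.mk.injEq] at h2
    exact_mod_cast h2.1

lemma rho_Gm {s : ℕ} {f : MvPolynomial (Fin s × ℕ) (ZMod 2)} {t : ℕ}
    (h : IsWeightedHomogeneous (dg s) f t) : rho s f ∈ Gm e1 0 s ((t : ℤ), 0, 0) :=
  ⟨T0_le (rho_mem s f), rho_hg.1 h⟩

/-- the cobar differential -/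
def dC (s : ℕ) (x : MvPolynomial (Fin s × ℕ) (ZMod 2)) :
    MvPolynomial (Fin (s + 1) × ℕ) (ZMod 2) := ∑ j : Fin (s + 2), aeval (fz s j) x

lemma rho_dC (s : ℕ) (f : MvPolynomial (Fin s × ℕ) (ZMod 2)) :
    rho (s + 1) (dC s f) = dd e1 false s (rho s f) := rho_d s f

/-- injectivity of the squaring in degrees `2 ^ k * w` -/
theorem inj_C (s : ℕ) : ∃ r : ℕ, ∀ k ≥ r, ∀ (w : ℕ) (g : MvPolynomial (Fin (s + 1) × ℕ) (ZMod 2)),
    IsWeightedHomogeneous (dg (s + 1)) g (2 ^ k * w) →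
    (∃ y, dC s y = g ^ 2) → ∃ y, dC s y = g := by
  obtain ⟨r, hr⟩ := descent s
  refine ⟨r, fun k hk w g hg ⟨y, hy⟩ => ?_⟩
  have hG := rho_Gm hg
  rw [Nat.cast_mul, Nat.cast_pow, Nat.cast_ofNat] at hG
  have h1 : dd e1 false s (rho s y) = (rho (s + 1) g) ^ 2 := by rw [← rho_dC, hy, map_pow]
  have h2 : dd e1 false s (weightedHomogeneousComponent (wt e1)
      ((2 ^ (k + 1) * (w : ℤ), 0, 0) : Gd) (rho s y)) = (rho (s + 1) g) ^ 2 := by
    rw [comp_dd, h1]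
    have h3 : Hg e1 ((rho (s + 1) g) ^ 2) ((2 ^ (k + 1) * (w : ℤ), 0, 0) : Gd) := by
      refine Hg_cast (hG.2.pow 2) ?_
      ext
      · simp
        ring
      · simp
      · simp
    exact h3.weightedHomogeneousComponent_same
  obtain ⟨y', hy', hd'⟩ := hr k hk w _ _ hG (comp_pure (rho_mem s y) _) h2
  obtain ⟨u, hu⟩ := rho_surj s y' (pure_of_Gm hy')
  refine ⟨u, rho_injective (s + 1) ?_⟩
  rw [rho_dC, hu, hd']

/-- surjectivity of the squaring in degrees `2 ^ k * w`, `s = 0` -/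
theorem surj_zero : ∃ r : ℕ, ∀ k ≥ r, ∀ (w : ℕ) (z : MvPolynomial (Fin 0 × ℕ) (ZMod 2)),
    IsWeightedHomogeneous (dg 0) z (2 ^ (k + 1) * w) → dC 0 z = 0 →
    ∃ u, IsWeightedHomogeneous (dg 0) u (2 ^ k * w) ∧ dC 0 u = 0 ∧ z = u ^ 2 := by
  obtain ⟨r, hr⟩ := surj_step 0
  refine ⟨r, fun k hk w z hz hd => ?_⟩
  have hG := rho_Gm hz
  rw [Nat.cast_mul, Nat.cast_pow, Nat.cast_ofNat] at hG
  obtain ⟨f, hf, h, hh, h1, h2⟩ := hr k hk w _ hG (by rw [← rho_dC, hd, map_zero])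
  obtain ⟨u, rfl⟩ := rho_surj 0 f (pure_of_Gm hf)
  have h0 : h = 0 := hh
  refine ⟨u, ?_, ?_, ?_⟩
  · rw [rho_hg, Nat.cast_mul, Nat.cast_pow, Nat.cast_ofNat]
    exact hf.2
  · apply rho_injective (0 + 1)
    rw [rho_dC, h2, map_zero]
  · apply rho_injective 0
    rw [map_pow, ← h1, h0, add_zero]

/-- surjectivity of the squaring in degrees `2 ^ k * w` -/
theorem surj_succ (s : ℕ) : ∃ r : ℕ, ∀ k ≥ r, ∀ (w : ℕ)
    (z : MvPolynomial (Fin (s + 1) × ℕ) (ZMod 2)),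
    IsWeightedHomogeneous (dg (s + 1)) z (2 ^ (k + 1) * w) → dC (s + 1) z = 0 →
    ∃ u, IsWeightedHomogeneous (dg (s + 1)) u (2 ^ k * w) ∧ dC (s + 1) u = 0 ∧
      ∃ v, z + dC s v = u ^ 2 := by
  obtain ⟨r, hr⟩ := surj_step (s + 1)
  refine ⟨r, fun k hk w z hz hd => ?_⟩
  have hG := rho_Gm hz
  rw [Nat.cast_mul, Nat.cast_pow, Nat.cast_ofNat] at hG
  obtain ⟨f, hf, h, hh, h1, h2⟩ := hr k hk w _ hG (by rw [← rho_dC, hd, map_zero])
  obtain ⟨u, rfl⟩ := rho_surj (s + 1) f (pure_of_Gm hf)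
  obtain ⟨y, hy, hyd⟩ := hh
  obtain ⟨v, rfl⟩ := rho_surj s y (pure_of_Gm hy)
  refine ⟨u, ?_, ?_, v, ?_⟩
  · rw [rho_hg, Nat.cast_mul, Nat.cast_pow, Nat.cast_ofNat]
    exact hf.2
  · apply rho_injective (s + 1 + 1)
    rw [rho_dC, h2, map_zero]
  · apply rho_injective (s + 1)
    rw [map_add, map_pow, rho_dC, ← h1, hyd]

end Pool.Agent.Lib.SqZ
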