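import Pool.Agent.Lib.MP_9c8c11_gt.ML

set_option autoImplicit false

open MvPolynomial Finset

noncomputable section

namespace Pool.Agent.Lib.SqZ

/-- exponents for the Frobenius-type map -/
def kk (c : ℕ → ℕ) : Idx → ℕ
  | .t _ _ => 2
  | .v _ => 2
  | .x l _ => 2 ^ (c l)

/-- Frobenius-type map: squares `t` and `v`, raises `x_l` to the power `2^{c_l}` -/
def Psi (c : ℕ → ℕ) : R →ₐ[ZMod 2] R := aeval (fun i => X i ^ kk c i)

lemma Psi_X (c : ℕ → ℕ) (i : Idx) : Psi c (X i) = X i ^ kk c i := by simp [Psi]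
lemma Psi_t (c : ℕ → ℕ) (j n : ℕ) : Psi c (X (.t j n)) = X (.t j n) ^ 2 := Psi_X c _
lemma Psi_v (c : ℕ → ℕ) (n : ℕ) : Psi c (X (.v n)) = X (.v n) ^ 2 := Psi_X c _
lemma Psi_x (c : ℕ → ℕ) (l n : ℕ) : Psi c (X (.x l n)) = X (.x l n) ^ (2 ^ (c l)) := Psi_X c _

lemma add_pow_two' (f g : R) : (f + g) ^ 2 = f ^ 2 + g ^ 2 := by
  have := add_self' (f * g)
  calc (f + g) ^ 2 = f ^ 2 + g ^ 2 + (f * g + f * g) := by ring
    _ = f ^ 2 + g ^ 2 := by rw [this, add_zero]

/-- an algebra map squaring every variable is the Frobenius -/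
lemma frob_of (O : R →ₐ[ZMod 2] R) (h : ∀ i, O (X i) = X i ^ 2) (f : R) : O f = f ^ 2 := by
  have key : ∀ f ∈ Fs (fun _ => 1), O f = f ^ 2 := by
    apply Fs_induction
    · intro i; rw [pow_one]; exact h i
    · simp
    · simp
    · intro f g hf hg; rw [map_add, hf, hg, add_pow_two']
    · intro f g _ _ hf hg; rw [map_mul, hf, hg, mul_pow]
  exact key f (fun m _ i => one_dvd _)

lemma Psi_injective {c : ℕ → ℕ} (hc : ∀ l, c l ≤ 1) {f : R} (h : Psi c f = 0) : f = 0 := by
  let O : R →ₐ[ZMod 2] R := aeval (fun i => match i with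
    | .t j n => X (.t j n)
    | .v n => X (.v n)
    | .x l n => X (.x l n) ^ (2 ^ (1 - c l)))
  have hO : ∀ i, (O.comp (Psi c)) (X i) = X i ^ 2 := by
    rintro (⟨k, n⟩ | n | ⟨l, n⟩)
    · simp [O, Psi_t]
    · simp [O, Psi_v]
    · simp only [O, AlgHom.comp_apply, Psi_x, map_pow, aeval_X]
      rw [← pow_mul, ← pow_add, Nat.sub_add_cancel (hc l), pow_one]
  have h2 := frob_of (O.comp (Psi c)) hO f
  rw [AlgHom.comp_apply, h, map_zero] at h2
  exact pow_eq_zero_iff (two_ne_zero) |>.mp h2.symm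

lemma Psi_xi (c : ℕ → ℕ) (j m : ℕ) : Psi c (xi j m) = xi j m ^ 2 := by
  cases m with
  | zero => simp
  | succ m => rw [xi_succ, Psi_t]

lemma Psi_E (c : ℕ → ℕ) (j a b : ℕ) : Psi c (E j a b) = E j a b ^ 2 := by
  rw [E, map_pow, Psi_xi, ← pow_mul, ← pow_mul, mul_comm]

lemma Psi_cop (c : ℕ → ℕ) (j m : ℕ) : Psi c (cop j m) = cop j m ^ 2 := by
  unfold cop
  have := frob_sum (range (m+1)) (fun l => E j l m * xi (j+1) l) 1
  rw [pow_one] at this
  rw [this, map_sum]
  refine Finset.sum_congr rfl fun l _ => ?_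
  rw [map_mul, Psi_E, Psi_xi, mul_pow]

lemma Psi_phi (c : ℕ → ℕ) (f : R) : Psi c (phi f) = phi (Psi c f) := by
  have : (Psi c).comp phi = phi.comp (Psi c) := by
    apply alg_ext
    · intro k n; simp [Psi_t]
    · intro n; simp [Psi_v]
    · intro l n; simp [Psi_x]
  exact DFunLike.congr_fun this f

lemma Psi_del (c : ℕ → ℕ) (i : ℕ) (f : R) : Psi c (del i f) = del i (Psi c f) := by
  have : (Psi c).comp (del i) = (del i).comp (Psi c) := by
    apply alg_ext
    · intro k n
      simp only [AlgHom.comp_apply, Psi_t, map_pow]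
      rw [del_t]
      split_ifs
      · rw [Psi_t]
      · rw [Psi_cop]
      · rw [Psi_t]
    · intro n; simp [Psi_v]
    · intro l n; simp [Psi_x]
  exact DFunLike.congr_fun this f

lemma Psi_om {c e e'' : ℕ → ℕ} (h : ∀ l, e'' l + 1 = e l + c l) (s : ℕ) (f : R) :
    Psi c (om e'' false s f) = om e false s (Psi c f) := by
  have : (Psi c).comp (om e'' false s) = (om e false s).comp (Psi c) := by
    apply alg_ext
    · intro k n
      simp only [AlgHom.comp_apply, Psi_t, map_pow]
      rw [om_t, om_t]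
      split_ifs
      · rw [Psi_t]
      · rw [Psi_t]
    · intro n; simp [Psi_v, om_v_false]
    · intro l n
      simp only [AlgHom.comp_apply, Psi_x, map_pow]
      rw [om_x, om_x, cx, cx, frob_sum, map_sum]
      refine Finset.sum_congr rfl fun i _ => ?_
      rw [map_mul, map_pow, Psi_E, Psi_x, mul_pow, ← pow_mul, ← pow_mul, ← pow_succ', ← pow_add,
        h l]
  exact DFunLike.congr_fun this f

lemma Psi_dd {c e e'' : ℕ → ℕ} (h : ∀ l, e'' l + 1 = e l + c l) (s : ℕ) (f : R) :
    Psi c (dd e'' false s f) = dd e false s (Psi c f) := by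
  rw [dd_apply, dd_apply, map_add, map_add, map_sum, Psi_phi, Psi_om h]
  have h1 : ∑ x ∈ range s, Psi c (del x f) = ∑ i ∈ range s, del i (Psi c f) := by
    refine Finset.sum_congr rfl fun i _ => ?_
    rw [Psi_del]
  rw [h1]

/-- scaling of label degrees -/
def cmul (c : ℕ → ℕ) : (ℕ →₀ ℕ) →+ (ℕ →₀ ℕ) where
  toFun μ := Finsupp.onFinset μ.support (fun l => 2 ^ (c l) * μ l) (by
    intro l hl
    rw [Finsupp.mem_support_iff]
    intro h
    rw [h, mul_zero] at hl
    exact hl rfl)
  map_zero' := by ext l; simp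
  map_add' μ ν := by ext l; simp [mul_add]

@[simp] lemma cmul_apply (c : ℕ → ℕ) (μ : ℕ →₀ ℕ) (l : ℕ) : cmul c μ l = 2 ^ (c l) * μ l := rfl

lemma cmul_injective (c : ℕ → ℕ) : Function.Injective (cmul c) := by
  intro μ ν h
  ext l
  have := DFunLike.congr_fun h l
  simp only [cmul_apply] at this
  exact Nat.eq_of_mul_eq_mul_left (by positivity) this

/-- degree change under `Psi` -/
def Adb (c : ℕ → ℕ) : Gd →+ Gd where
  toFun M := (2 * M.1, 2 * M.2.1, cmul c M.2.2)
  map_zero' := by simp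
  map_add' M N := by ext <;> simp [mul_add]

lemma Adb_apply (c : ℕ → ℕ) (w : ℤ) (q : ℕ) (μ : ℕ →₀ ℕ) :
    Adb c (w, q, μ) = (2 * w, 2 * q, cmul c μ) := rfl

lemma Adb_injective (c : ℕ → ℕ) : Function.Injective (Adb c) := by
  rintro ⟨w, q, μ⟩ ⟨w', q', μ'⟩ h
  rw [Adb_apply, Adb_apply, Prod.mk.injEq, Prod.mk.injEq] at h
  obtain ⟨h1, h2, h3⟩ := h
  have h4 := cmul_injective c h3
  rw [Prod.mk.injEq, Prod.mk.injEq]
  exact ⟨by omega, by omega, h4⟩

lemma hg_Psi {c e e'' : ℕ → ℕ} (h : ∀ l, e'' l + 1 = e l + c l) :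
    ∀ i, Hg e (Psi c (X i)) (Adb c (wt e'' i)) := by
  intro i
  rw [Psi_X]
  refine Hg_cast ((Hg_X e i).pow (kk c i)) ?_
  rcases i with (⟨k, n⟩ | n | ⟨l, n⟩)
  · simp only [kk, wt, Adb_apply]
    ext <;> simp
  · simp only [kk, wt, Adb_apply]
    ext <;> simp
  · simp only [kk, wt, Adb_apply]
    ext l'
    · simp only [Prod.smul_fst, nsmul_eq_mul, Nat.cast_pow, Nat.cast_ofNat]
      rw [← pow_add, ← pow_succ']
      congr 1
      have := h l
      omega
    · simp
    · simp only [Prod.smul_snd, Finsupp.smul_apply, cmul_apply, smul_eq_mul,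
        Finsupp.single_apply]
      split_ifs with h'
      · rw [h']
      · simp

/-- maps changing the degree by an injective additive map -/
lemma comp_proj_gen {e e' : ℕ → ℕ} (O : R →ₗ[ZMod 2] R) (A : Gd → Gd)
    (hA : Function.Injective A)
    (h : ∀ m : Idx →₀ ℕ, Hg e' (O (monomial m 1)) (A (Finsupp.weight (wt e) m))) (M : Gd) (f : R) :
    O (weightedHomogeneousComponent (wt e) M f) =
      weightedHomogeneousComponent (wt e') (A M) (O f) := by
  classical
  apply lin_induction (Q := fun f => O (weightedHomogeneousComponent (wt e) M f) =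
    weightedHomogeneousComponent (wt e') (A M) (O f)) f
  · simp
  · intro f g hf hg; simp only [map_add, hf, hg]
  · intro m _
    have h1 : Hg e (monomial m (1 : ZMod 2)) (Finsupp.weight (wt e) m) :=
      isWeightedHomogeneous_monomial _ _ _ rfl
    by_cases hm : Finsupp.weight (wt e) m = M
    · rw [← hm, h1.weightedHomogeneousComponent_same, (h m).weightedHomogeneousComponent_same]
    · rw [h1.weightedHomogeneousComponent_ne _ (Ne.symm hm), map_zero,
        (h m).weightedHomogeneousComponent_ne _ (fun h => hm (hA h).symm)]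

lemma comp_zero_gen {e e' : ℕ → ℕ} (O : R →ₗ[ZMod 2] R) (A : Gd → Gd)
    (h : ∀ m : Idx →₀ ℕ, Hg e' (O (monomial m 1)) (A (Finsupp.weight (wt e) m))) {M' : Gd}
    (hM : ∀ M, A M ≠ M') (f : R) :
    weightedHomogeneousComponent (wt e') M' (O f) = 0 := by
  classical
  apply lin_induction (Q := fun f => weightedHomogeneousComponent (wt e') M' (O f) = 0) f
  · simp
  · intro f g hf hg; rw [map_add, map_add, hf, hg, add_zero]
  · intro m _
    rw [(h m).weightedHomogeneousComponent_ne _ (hM _).symm]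

lemma Psi_monomial {c e e'' : ℕ → ℕ} (h : ∀ l, e'' l + 1 = e l + c l) (m : Idx →₀ ℕ) :
    Hg e ((Psi c).toLinearMap (monomial m 1)) (Adb c (Finsupp.weight (wt e'') m)) :=
  Hg_map_gen (Psi c) (Adb c) (hg_Psi h) (isWeightedHomogeneous_monomial _ _ _ rfl)

/-- type of fully divisible polynomials -/
def T2 (a : ℕ) (c : ℕ → ℕ) : Idx → ℕ
  | .t i _ => if i < a then 2 else 0
  | .v _ => 0
  | .x l _ => 2 ^ (c l)

def T1 (a : ℕ) : Idx → ℕ
  | .t i _ => if i < a then 1 else 0
  | .v _ => 0
  | .x _ _ => 1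

lemma Psi_surj {a : ℕ} {c : ℕ → ℕ} : ∀ f ∈ Fs (T2 a c), ∃ f' ∈ Fs (T1 a), Psi c f' = f := by
  apply Fs_induction
  · intro i
    refine ⟨X i ^ T1 a i, X_pow_mem i dvd_rfl, ?_⟩
    rw [map_pow, Psi_X, ← pow_mul]
    congr 1
    rcases i with (⟨k, n⟩ | n | ⟨l, n⟩)
    · simp only [kk, T1, T2]; split_ifs <;> rfl
    · simp [kk, T1, T2]
    · simp [kk, T1, T2]
  · exact ⟨0, Subalgebra.zero_mem _, map_zero _⟩
  · exact ⟨1, Subalgebra.one_mem _, map_one _⟩
  · rintro f g ⟨f', hf', rfl⟩ ⟨g', hg', rfl⟩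
    exact ⟨f' + g', Subalgebra.add_mem _ hf' hg', map_add _ _ _⟩
  · rintro f g _ _ ⟨f', hf', rfl⟩ ⟨g', hg', rfl⟩
    exact ⟨f' * g', Subalgebra.mul_mem _ hf' hg', map_mul _ _ _⟩

lemma T1_le {a : ℕ} {f : R} (hf : f ∈ Fs (T1 a)) : f ∈ F 0 a := by
  apply Fs_mono _ hf
  rintro (⟨k, n⟩ | n | ⟨l, n⟩)
  · simp only [T1, Tp]; split_ifs <;> omega
  · simp [T1, Tp]
  · simp [T1, Tp]

/-- general untwisting lemma -/
theorem untwist {c e e'' : ℕ → ℕ} (hc : ∀ l, c l ≤ 1) (h : ∀ l, e'' l + 1 = e l + c l) {a : ℕ}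
    {w : ℤ} {μ : ℕ →₀ ℕ} {f : R} (hf : f ∈ Fs (T2 a c)) (hfh : Hg e f (w, 0, μ))
    (hd : dd e false a f = 0)
    (hV : ∀ w'' μ'', 2 * w'' = w → cmul c μ'' = μ → Van e'' a w'' μ'') :
    Bd e false (fun a => Gm e a a (w, 0, μ)) a f := by
  obtain ⟨f', hf', hff⟩ := Psi_surj f hf
  by_cases hex : ∃ M, Adb c M = (w, 0, μ)
  · obtain ⟨⟨w'', q'', μ''⟩, hM⟩ := hex
    rw [Adb_apply, Prod.mk.injEq, Prod.mk.injEq] at hM
    obtain ⟨h1, h2, h3⟩ := hM
    obtain rfl : q'' = 0 := by omega
    -- the preimage is homogeneous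
    set f'' := weightedHomogeneousComponent (wt e'') (w'', 0, μ'') f' with hf''def
    have hPf : Psi c f'' = f := by
      have := comp_proj_gen (Psi c).toLinearMap (Adb c) (Adb_injective c) (Psi_monomial h)
        (w'', 0, μ'') f'
      rw [Adb_apply, h1, h2, h3] at this
      have h4 : weightedHomogeneousComponent (wt e) (w, 0, μ) ((Psi c).toLinearMap f') = f := by
        show weightedHomogeneousComponent (wt e) (w, 0, μ) (Psi c f') = f
        rw [hff]; exact hfh.weightedHomogeneousComponent_same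
      rw [h4] at this
      exact this
    have hfG : f'' ∈ Gm e'' 0 a (w'', 0, μ'') :=
      ⟨T1_le (comp_mem_Fs hf' _), Hg_comp _ _ _⟩
    have hdd : dd e'' false a f'' = 0 := by
      apply Psi_injective hc
      rw [Psi_dd h, hPf, hd]
    have hb := hV w'' μ'' h1 h3 f'' hfG hdd
    cases a with
    | zero =>
      have h5 : f'' = 0 := hb
      show f = 0
      rw [← hPf, h5, map_zero]
    | succ a =>
      obtain ⟨y, hy, hyd⟩ := hb
      refine ⟨Psi c y, ⟨?_, ?_⟩, ?_⟩
      · apply Fs_map (Psi c) _ hy.1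
        rintro (⟨k, n⟩ | n | ⟨l, n⟩)
        · rw [Psi_t]
          simp only [Tp]
          split_ifs with h6 h7
          · omega
          · rw [pow_one]; exact t_sq_mem' h7
          · rw [pow_zero]; exact Subalgebra.one_mem _
        · rw [Psi_v]; exact Subalgebra.pow_mem _ (Subalgebra.pow_mem _ v_mem _) _
        · rw [Psi_x]; exact Subalgebra.pow_mem _ (Subalgebra.pow_mem _ x_mem _) _
      · have := Hg_map_gen (Psi c) (Adb c) (hg_Psi h) hy.2
        rw [Adb_apply, h1, h3] at this
        exact this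
      · rw [← Psi_dd h, hyd, hPf]
  · push Not at hex
    have h0 : f = 0 := by
      have h1 := comp_zero_gen (Psi c).toLinearMap (Adb c) (Psi_monomial h) hex f'
      have h4 : weightedHomogeneousComponent (wt e) (w, 0, μ) ((Psi c).toLinearMap f') = f := by
        show weightedHomogeneousComponent (wt e) (w, 0, μ) (Psi c f') = f
        rw [hff]; exact hfh.weightedHomogeneousComponent_same
      rw [← h4, h1]
    rw [h0]
    exact Bd_zero _ _ _ _

/-! ### turning `v` into a label -/

def econs (k : ℕ) (e : ℕ → ℕ) : ℕ → ℕ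
  | 0 => k
  | l+1 => e l

@[simp] lemma econs_zero (k : ℕ) (e : ℕ → ℕ) : econs k e 0 = k := rfl
@[simp] lemma econs_succ (k : ℕ) (e : ℕ → ℕ) (l : ℕ) : econs k e (l+1) = e l := rfl

def lam : R →ₐ[ZMod 2] R := aeval (fun k => match k with
  | .t j n => X (.t j n)
  | .v n => X (.x 0 n)
  | .x l n => X (.x (l+1) n))

@[simp] lemma lam_t (j n : ℕ) : lam (X (.t j n)) = X (.t j n) := by simp [lam]
@[simp] lemma lam_v (n : ℕ) : lam (X (.v n)) = X (.x 0 n) := by simp [lam]
@[simp] lemma lam_x (l n : ℕ) : lam (X (.x l n)) = X (.x (l+1) n) := by simp [lam]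

def lami : R →ₐ[ZMod 2] R := aeval (fun k => match k with
  | .t j n => X (.t j n)
  | .v _ => 0
  | .x 0 n => X (.v n)
  | .x (l+1) n => X (.x l n))

@[simp] lemma lami_t (j n : ℕ) : lami (X (.t j n)) = X (.t j n) := by simp [lami]
@[simp] lemma lami_v (n : ℕ) : lami (X (.v n)) = 0 := by simp [lami]
@[simp] lemma lami_x_zero (n : ℕ) : lami (X (.x 0 n)) = X (.v n) := by simp [lami]
@[simp] lemma lami_x_succ (l n : ℕ) : lami (X (.x (l+1) n)) = X (.x l n) := by simp [lami]

lemma lami_lam (f : R) : lami (lam f) = f := by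
  have : lami.comp lam = AlgHom.id _ _ := by
    apply alg_ext <;> intros <;> simp
  exact DFunLike.congr_fun this f

lemma lam_xi (j m : ℕ) : lam (xi j m) = xi j m := by cases m <;> simp [xi]
lemma lam_E (j a b : ℕ) : lam (E j a b) = E j a b := by simp [E, lam_xi]
lemma lam_cop (j m : ℕ) : lam (cop j m) = cop j m := by simp [cop, lam_E, lam_xi]
lemma lami_xi (j m : ℕ) : lami (xi j m) = xi j m := by cases m <;> simp [xi]
lemma lami_E (j a b : ℕ) : lami (E j a b) = E j a b := by simp [E, lami_xi]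
lemma lami_cop (j m : ℕ) : lami (cop j m) = cop j m := by simp [cop, lami_E, lami_xi]

lemma lam_phi (f : R) : lam (phi f) = phi (lam f) := by
  have : lam.comp phi = phi.comp lam := by
    apply alg_ext <;> intros <;> simp
  exact DFunLike.congr_fun this f

lemma lam_del (i : ℕ) (f : R) : lam (del i f) = del i (lam f) := by
  have : lam.comp (del i) = (del i).comp lam := by
    apply alg_ext
    · intro k n
      simp only [AlgHom.comp_apply, lam_t]
      rw [del_t]
      split_ifs <;> simp [lam_cop]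
    · intro n; simp
    · intro l n; simp
  exact DFunLike.congr_fun this f

lemma lam_om (e : ℕ → ℕ) (s : ℕ) (f : R) :
    lam (om e true s f) = om (econs 1 e) false s (lam f) := by
  have : lam.comp (om e true s) = (om (econs 1 e) false s).comp lam := by
    apply alg_ext
    · intro k n
      simp only [AlgHom.comp_apply, lam_t]
      rw [om_t, om_t]
      split_ifs <;> simp
    · intro n
      simp only [AlgHom.comp_apply, lam_v]
      rw [om_v_true, om_x, econs_zero, hom_cx lam (fun a c => lam_E s a c) (fun j => lam_v j)]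
    · intro l n
      simp only [AlgHom.comp_apply, lam_x]
      rw [om_x, om_x, econs_succ, hom_cx lam (fun a c => lam_E s a c) (fun j => lam_x l j)]
  exact DFunLike.congr_fun this f

lemma lam_dd (e : ℕ → ℕ) (s : ℕ) (f : R) :
    lam (dd e true s f) = dd (econs 1 e) false s (lam f) := by
  rw [dd_apply, dd_apply, map_add, map_add, map_sum, lam_phi, lam_om]
  have h1 : ∑ x ∈ range s, lam (del x f) = ∑ i ∈ range s, del i (lam f) := by
    refine Finset.sum_congr rfl fun i _ => ?_
    rw [lam_del]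
  rw [h1]

lemma lami_phi (f : R) : lami (phi f) = phi (lami f) := by
  have : lami.comp phi = phi.comp lami := by
    apply alg_ext
    · intros; simp
    · intros; simp
    · intro l n
      cases l <;> simp
  exact DFunLike.congr_fun this f

lemma lami_del (i : ℕ) (f : R) : lami (del i f) = del i (lami f) := by
  have : lami.comp (del i) = (del i).comp lami := by
    apply alg_ext
    · intro k n
      simp only [AlgHom.comp_apply, lami_t]
      rw [del_t]
      split_ifs <;> simp [lami_cop]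
    · intro n; simp
    · intro l n
      cases l <;> simp
  exact DFunLike.congr_fun this f

lemma lami_om (e : ℕ → ℕ) (s : ℕ) (f : R) :
    lami (om (econs 1 e) false s f) = om e true s (lami f) := by
  have : lami.comp (om (econs 1 e) false s) = (om e true s).comp lami := by
    apply alg_ext
    · intro k n
      simp only [AlgHom.comp_apply, lami_t]
      rw [om_t, om_t]
      split_ifs <;> simp
    · intro n
      simp [om_v_false]
    · intro l n
      simp only [AlgHom.comp_apply]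
      rw [om_x]
      cases l with
      | zero =>
        rw [econs_zero, lami_x_zero, om_v_true,
          hom_cx lami (fun a c => lami_E s a c) (fun j => lami_x_zero j)]
      | succ l =>
        rw [econs_succ, lami_x_succ, om_x,
          hom_cx lami (fun a c => lami_E s a c) (fun j => lami_x_succ l j)]
  exact DFunLike.congr_fun this f

lemma lami_dd (e : ℕ → ℕ) (s : ℕ) (f : R) :
    lami (dd (econs 1 e) false s f) = dd e true s (lami f) := by
  rw [dd_apply, dd_apply, map_add, map_add, map_sum, lami_phi, lami_om]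
  have h1 : ∑ x ∈ range s, lami (del x f) = ∑ i ∈ range s, del i (lami f) := by
    refine Finset.sum_congr rfl fun i _ => ?_
    rw [lami_del]
  rw [h1]

/-- `cons` on label degrees -/
def mcons (q : ℕ) (μ : ℕ →₀ ℕ) : ℕ →₀ ℕ := Finsupp.single 0 q + μ.mapDomain Nat.succ

def AL : Gd →+ Gd where
  toFun M := (M.1 + M.2.1, 0, mcons M.2.1 M.2.2)
  map_zero' := by simp [mcons]
  map_add' M N := by
    ext l
    · simp; ring
    · simp
    · simp only [mcons, Prod.snd_add, Prod.fst_add, Finsupp.single_add, Finsupp.mapDomain_add,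
        Finsupp.add_apply]
      ring

lemma AL_apply (w : ℤ) (q : ℕ) (μ : ℕ →₀ ℕ) : AL (w, q, μ) = (w + q, 0, mcons q μ) := rfl

def BL : Gd →+ Gd where
  toFun M := (M.1 - M.2.2 0, M.2.2 0, M.2.2.comapDomain Nat.succ (Nat.succ_injective.injOn))
  map_zero' := by simp
  map_add' M N := by
    ext l
    · simp; ring
    · simp
    · simp

lemma BL_apply (w : ℤ) (q : ℕ) (μ : ℕ →₀ ℕ) : BL (w, q, μ) =
    (w - μ 0, μ 0, μ.comapDomain Nat.succ (Nat.succ_injective.injOn)) := rfl

lemma mcons_zero_apply (q : ℕ) (μ : ℕ →₀ ℕ) : mcons q μ 0 = q := by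
  unfold mcons
  rw [Finsupp.add_apply, Finsupp.single_eq_same, Finsupp.mapDomain_of_notMem_range]
  · simp
  · rintro ⟨x, hx⟩; exact absurd hx (Nat.succ_ne_zero x)

lemma mcons_succ_apply (q : ℕ) (μ : ℕ →₀ ℕ) (l : ℕ) : mcons q μ (l+1) = μ l := by
  unfold mcons
  rw [Finsupp.add_apply, Finsupp.single_apply, if_neg (by omega), zero_add]
  exact Finsupp.mapDomain_apply Nat.succ_injective μ l

lemma BL_AL (w : ℤ) (q : ℕ) (μ : ℕ →₀ ℕ) : BL (w + q, 0, mcons q μ) = (w, q, μ) := by
  rw [BL_apply, mcons_zero_apply]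
  ext l
  · simp
  · simp
  · simp [mcons_succ_apply]

lemma hg_lam (e : ℕ → ℕ) : ∀ i, Hg (econs 1 e) (lam (X i)) (AL (wt e i)) := by
  rintro (⟨k, n⟩ | n | ⟨l, n⟩)
  · rw [lam_t]
    apply Hg_X'
    simp only [wt, AL_apply]
    ext l
    · simp
    · simp
    · simp [mcons]
  · rw [lam_v]
    apply Hg_X'
    simp only [wt, AL_apply]
    ext l
    · simp
    · simp
    · simp [mcons]
  · rw [lam_x]
    apply Hg_X'
    simp only [wt, AL_apply]
    ext l'
    · simp
    · simp
    · simp [mcons]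

lemma hg_lami (e : ℕ → ℕ) : ∀ i, Hg e (lami (X i)) (BL (wt (econs 1 e) i)) := by
  rintro (⟨k, n⟩ | n | ⟨l, n⟩)
  · rw [lami_t]
    apply Hg_X'
    simp only [wt, BL_apply]
    ext l
    · simp
    · simp
    · simp
  · rw [lami_v]
    exact isWeightedHomogeneous_zero _ _ _
  · cases l with
    | zero =>
      rw [lami_x_zero]
      apply Hg_X'
      simp only [wt, BL_apply]
      ext l
      · simp
      · simp
      · simp
    | succ l =>
      rw [lami_x_succ]
      apply Hg_X'
      simp only [wt, BL_apply]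
      ext l'
      · simp
      · simp
      · simp [Finsupp.single_apply]

/-- HVan from Van -/
theorem HVan_of_Van {e : ℕ → ℕ} (he : ∀ l, e l ≠ 0) {p q : ℕ} {w : ℤ} {μ : ℕ →₀ ℕ}
    (hV : ∀ w'', 2 * w'' = w + q → Van (econs 0 (fun l => e l - 1)) p w'' (mcons q μ)) :
    HVan e p q w μ := by
  intro g hg hd
  have h1 : dd (econs 1 e) false p (lam g) = 0 := by rw [← lam_dd, hd, map_zero]
  have h2 : Hg (econs 1 e) (lam g) (w + q, 0, mcons q μ) := Hg_map_gen lam AL (hg_lam e) hg.2
  have h3 : lam g ∈ Fs (T2 p (fun _ => 0)) := by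
    apply Fs_map lam _ hg.1
    rintro (⟨k, n⟩ | n | ⟨l, n⟩)
    · rw [lam_t]
      apply X_pow_mem
      simp only [T2, Tp]; split_ifs <;> simp
    · rw [lam_v]; exact Subalgebra.pow_mem _ (X_mem _ (by simp [T2])) _
    · rw [lam_x]; exact Subalgebra.pow_mem _ (X_mem _ (by simp [T2])) _
  have h4 := untwist (c := fun _ => 0) (e := econs 1 e) (e'' := econs 0 (fun l => e l - 1))
    (fun _ => Nat.zero_le _) (by
      intro l
      cases l with
      | zero => simp
      | succ l =>
        simp only [econs_succ, add_zero]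
        have := he l
        omega) h3 h2 h1 (by
      intro w'' μ'' hw hμ
      have : μ'' = mcons q μ := by
        rw [← hμ]; ext l; simp
      rw [this]
      exact hV w'' hw)
  cases p with
  | zero =>
    have h5 : lam g = 0 := h4
    show g = 0
    rw [← lami_lam g, h5, map_zero]
  | succ p =>
    obtain ⟨y, hy, hyd⟩ := h4
    refine ⟨lami y, ⟨?_, ?_⟩, ?_⟩
    · apply Fs_map lami _ hy.1
      rintro (⟨k, n⟩ | n | ⟨l, n⟩)
      · rw [lami_t]
        exact X_pow_mem _ dvd_rfl
      · rw [lami_v]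
        simp only [Tp, pow_one]; exact Subalgebra.zero_mem _
      · cases l with
        | zero => rw [lami_x_zero]; exact Subalgebra.pow_mem _ v_mem _
        | succ l => rw [lami_x_succ]; exact Subalgebra.pow_mem _ x_mem _
    · have := Hg_map_gen lami BL (hg_lami e) hy.2
      rw [BL_AL] at this
      exact this
    · rw [← lami_dd, hyd, lami_lam]

end Pool.Agent.Lib.SqZ
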